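import Pool.Agent.Helper944.Amalgam

set_option autoImplicit false

namespace Pool.Agent.Helper944

section AP

variable {p : ℕ} [hp : Fact p.Prime] {V : Type*} [LinearOrder V] [OrderBot V]

omit hp in
theorem trunc_eq_bot_iff {v l : V} : (if v ≤ l then ⊥ else v) = ⊥ ↔ v ≤ l := by
  constructor
  · intro h
    by_contra h1
    rw [if_neg h1] at h
    exact h1 (by rw [h]; exact bot_le)
  · intro h
    rw [if_pos h]

omit hp in
/-- the bottom layer is central -/
theorem bottom_central {A : Type*} [Group A] {v : A → V} (hv : IsPVal p v) {l : V}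
    (hl : ∀ a, a ≠ 1 → l ≤ v a) {z : A} (hz : v z ≤ l) (a : A) : z * a = a * z := by
  have h1 : z * a * z⁻¹ * a⁻¹ = 1 := by
    by_contra h
    rcases hv.comm z a with h2 | h2
    · exact absurd (hl _ h) (not_le.mpr (h2.trans_le hz))
    · exact h (hv.eq_one _ h2)
  calc z * a = (z * a * z⁻¹ * a⁻¹) * (a * z) := by group
    _ = a * z := by rw [h1, one_mul]

/-- compatible embeddings of the bottom layers into the group of order `p` -/
theorem exists_compatible_theta {A B H : Type*} [Group A] [Group B] [Group H]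
    {vA : A → V} {vB : B → V} {vH : H → V}
    (hA : IsPVal p vA) (hB : IsPVal p vB) (hH : IsPVal p vH) (f : H →* A) (g : H →* B)
    (hf : ∀ h, vA (f h) = vH h) (hg : ∀ h, vB (g h) = vH h) (l : V)
    (hlA : ∀ a, a ≠ 1 → l ≤ vA a) (hlB : ∀ a, a ≠ 1 → l ≤ vB a)
    (KA : Subgroup A) (hKA : ∀ a, a ∈ KA ↔ vA a ≤ l) (KB : Subgroup B)
    (hKB : ∀ a, a ∈ KB ↔ vB a ≤ l) :
    ∃ (θA : KA →* Cp p) (θB : KB →* Cp p), Function.Injective θA ∧ Function.Injective θB ∧
      ∀ h (h1 : f h ∈ KA) (h2 : g h ∈ KB), θA ⟨f h, h1⟩ = θB ⟨g h, h2⟩ := by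
  classical
  have hfi : Function.Injective f := hH.injective_of_preserves hA.toIsPre f hf
  have hgi : Function.Injective g := hH.injective_of_preserves hB.toIsPre g hg
  by_cases hex : ∃ h₁ : H, h₁ ≠ 1 ∧ vH h₁ ≤ l
  · obtain ⟨h₁, hh₁, hh₁l⟩ := hex
    have ha₁ : f h₁ ∈ KA := by rw [hKA, hf]; exact hh₁l
    have hb₁ : g h₁ ∈ KB := by rw [hKB, hg]; exact hh₁l
    obtain ⟨θA, hθA, hθA1⟩ := exists_theta hA l hlA KA hKA ⟨f h₁, ha₁⟩ (by
      intro h
      apply hh₁
      apply hfi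
      rw [map_one]
      exact congrArg Subtype.val h)
    obtain ⟨θB, hθB, hθB1⟩ := exists_theta hB l hlB KB hKB ⟨g h₁, hb₁⟩ (by
      intro h
      apply hh₁
      apply hgi
      rw [map_one]
      exact congrArg Subtype.val h)
    refine ⟨θA, θB, hθA, hθB, ?_⟩
    intro h h1 h2
    have hlH : ∀ x : H, x ≠ 1 → l ≤ vH x := by
      intro x hx
      rw [← hf]
      apply hlA
      intro h3
      exact hx (hfi (by rw [h3, map_one]))
    have hpow : ∃ i : ℕ, h = h₁ ^ i := by
      by_cases hh : h = 1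
      · exact ⟨0, by rw [hh, pow_zero]⟩
      · have hle : vH h ≤ l := by rw [← hf]; exact (hKA _).mp h1
        have hveq : vH h₁ = vH h :=
          (le_antisymm hh₁l (hlH _ hh₁)).trans (le_antisymm hle (hlH _ hh)).symm
        obtain ⟨i, hi⟩ := hH.layer_lt hh₁ hveq
        refine ⟨i, ?_⟩
        have : h₁ ^ i * h⁻¹ = 1 := by
          by_contra h3
          exact absurd (hlH _ h3) (not_le.mpr (hi.trans_le hh₁l))
        exact (mul_inv_eq_one.mp this).symm
    obtain ⟨i, hi⟩ := hpow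
    have e1 : (⟨f h, h1⟩ : KA) = ⟨f h₁, ha₁⟩ ^ i := by
      apply Subtype.ext
      simp [hi]
    have e2 : (⟨g h, h2⟩ : KB) = ⟨g h₁, hb₁⟩ ^ i := by
      apply Subtype.ext
      simp [hi]
    rw [e1, e2, map_pow, map_pow, hθA1, hθB1]
  · push Not at hex
    have hA' : ∃ θA : KA →* Cp p, Function.Injective θA := by
      by_cases h : ∃ a : KA, a ≠ 1
      · obtain ⟨a, ha⟩ := h
        obtain ⟨θ, hθ, _⟩ := exists_theta hA l hlA KA hKA a ha
        exact ⟨θ, hθ⟩
      · push Not at h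
        exact ⟨1, fun x y _ => by rw [h x, h y]⟩
    have hB' : ∃ θB : KB →* Cp p, Function.Injective θB := by
      by_cases h : ∃ a : KB, a ≠ 1
      · obtain ⟨a, ha⟩ := h
        obtain ⟨θ, hθ, _⟩ := exists_theta hB l hlB KB hKB a ha
        exact ⟨θ, hθ⟩
      · push Not at h
        exact ⟨1, fun x y _ => by rw [h x, h y]⟩
    obtain ⟨θA, hθA⟩ := hA'
    obtain ⟨θB, hθB⟩ := hB'
    refine ⟨θA, θB, hθA, hθB, ?_⟩
    intro h h1 h2
    have hh : h = 1 := by
      by_contra hh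
      have := hex h hh
      rw [← hf] at this
      exact absurd ((hKA _).mp h1) (not_le.mpr this)
    have e1 : (⟨f h, h1⟩ : KA) = 1 := by
      apply Subtype.ext
      simp [hh]
    have e2 : (⟨g h, h2⟩ : KB) = 1 := by
      apply Subtype.ext
      simp [hh]
    rw [e1, e2, map_one, map_one]

theorem card_quot_lt {A : Type*} [Group A] [Finite A] (K : Subgroup A) (a : A) (ha : a ≠ 1)
    (haK : a ∈ K) : Nat.card (A ⧸ K) < Nat.card A := by
  have h1 := Subgroup.card_eq_card_quotient_mul_card_subgroup K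
  have h2 : 1 < Nat.card K := by
    rw [Finite.one_lt_card_iff_nontrivial]
    exact ⟨⟨⟨a, haK⟩, 1, by intro h; exact ha (congrArg Subtype.val h)⟩⟩
  have h3 : 0 < Nat.card (A ⧸ K) := Nat.card_pos
  rw [h1]
  nlinarith

theorem card_quot_le {A : Type*} [Group A] [Finite A] (K : Subgroup A) :
    Nat.card (A ⧸ K) ≤ Nat.card A := by
  have h1 := Subgroup.card_eq_card_quotient_mul_card_subgroup K
  have h2 : 0 < Nat.card K := Nat.card_pos
  rw [h1]
  nlinarith [Nat.zero_le (Nat.card (A ⧸ K))]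

/-- value of the wreath embedding -/
theorem wreathHom_val {A W : Type*} [Group A] [Group W] {vA : A → V}
    (hA : IsPVal p vA) {l : V} (hlA : ∀ a, a ≠ 1 → l ≤ vA a)
    (KA : Subgroup A) (hKA : ∀ a, a ∈ KA ↔ vA a ≤ l)
    (hcen : ∀ z ∈ KA, ∀ a, z * a = a * z) (θ : KA →* Cp p) (hθ : Function.Injective θ)
    (i : A →* W) (w : W → V) (hi1 : ∀ a, i a = 1 ↔ a ∈ KA) (hi2 : ∀ a, a ∉ KA → w (i a) = vA a)
    (r : W → A) (hr : ∀ a w, a * r w * (r (i a * w))⁻¹ ∈ KA)
    (vC : RegularWreathProduct (Cp p) W → V) (hvC : IsPVal p vC)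
    (h1 : ∀ c, c.right ≠ 1 → vC c = w c.right) (h2 : ∀ z : Cp p, z ≠ 1 → vC (cst z) = l) (a : A) :
    vC (wreathHom KA hcen θ i r hr a) = vA a := by
  by_cases ha : a ∈ KA
  · have hia : i a = 1 := (hi1 a).mpr ha
    have hc : wreathHom KA hcen θ i r hr a = cst (θ ⟨a, ha⟩) := by
      refine RegularWreathProduct.ext (funext fun u => ?_) hia
      have hm : a * r ((i a)⁻¹ * u) * (r u)⁻¹ ∈ KA := by
        have := hr a ((i a)⁻¹ * u)
        rwa [mul_inv_cancel_left] at this
      have e : (⟨a * r ((i a)⁻¹ * u) * (r u)⁻¹, hm⟩ : KA) = ⟨a, ha⟩ := by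
        apply Subtype.ext
        simp [hia]
      change θ ⟨a * r ((i a)⁻¹ * u) * (r u)⁻¹, hm⟩ = θ ⟨a, ha⟩
      rw [e]
    by_cases ha1 : a = 1
    · rw [ha1, map_one, hvC.one, hA.one]
    · rw [hc, h2]
      · exact le_antisymm (hlA a ha1) ((hKA a).mp ha)
      · intro h3
        apply ha1
        have : (⟨a, ha⟩ : KA) = 1 := hθ (by rw [h3, map_one])
        exact congrArg Subtype.val this
  · have hr1 : (wreathHom KA hcen θ i r hr a).right = i a := rfl
    have : (wreathHom KA hcen θ i r hr a).right ≠ 1 := by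
      rw [hr1]
      intro h
      exact ha ((hi1 a).mp h)
    rw [h1 _ this, hr1, hi2 a ha]

/-- Higman's theorem for valued `p`-groups: the amalgamation property. -/
theorem amalgam [DenselyOrdered V] [NoMaxOrder V] (m : V) :
    ∀ (n : ℕ) (A B H : Type) [Group A] [Group B] [Group H] [Finite A] [Finite B]
      (_ : Nat.card A + Nat.card B = n) (vA : A → V) (vB : B → V) (vH : H → V)
      (_ : IsPVal p vA) (_ : IsPVal p vB) (_ : IsPVal p vH)
      (f : H →* A) (g : H →* B) (_ : ∀ h, vA (f h) = vH h) (_ : ∀ h, vB (g h) = vH h)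
      (b : V) (_ : ∀ a, a ≠ 1 → b < vA a) (_ : ∀ a, a ≠ 1 → b < vB a)
      (_ : ∀ a, vA a ≤ m) (_ : ∀ a, vB a ≤ m),
      ∃ (C : Type) (_ : Group C) (_ : Finite C) (vC : C → V) (i : A →* C) (j : B →* C),
        IsPVal p vC ∧ (∀ a, vC (i a) = vA a) ∧ (∀ a, vC (j a) = vB a) ∧
        (∀ h, i (f h) = j (g h)) ∧ (∀ c, c ≠ 1 → b < vC c) ∧ (∀ c, vC c ≤ m) := by
  intro n
  induction n using Nat.strong_induction_on with
  | _ n ih =>
  intro A B H _ _ _ _ _ hn vA vB vH hA hB hH f g hf hg b hbA hbB hmA hmB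
  classical
  by_cases htriv : (∀ a : A, a = 1) ∧ (∀ a : B, a = 1)
  · refine ⟨A, inferInstance, inferInstance, vA, MonoidHom.id A, 1, hA, fun a => rfl, ?_, ?_,
      hbA, hmA⟩
    · intro a
      rw [htriv.2 a, map_one, hA.one, hB.one]
    · intro h
      rw [htriv.1 ((MonoidHom.id A) (f h)), MonoidHom.one_apply]
  -- minimal value
  let S : Set V := {x | (∃ a : A, a ≠ 1 ∧ vA a = x) ∨ (∃ a : B, a ≠ 1 ∧ vB a = x)}
  have hSfin : S.Finite := by
    apply ((Set.finite_range vA).union (Set.finite_range vB)).subset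
    rintro x (⟨a, _, rfl⟩ | ⟨a, _, rfl⟩)
    · exact Or.inl ⟨a, rfl⟩
    · exact Or.inr ⟨a, rfl⟩
  have hSne : S.Nonempty := by
    by_contra hne
    rw [Set.not_nonempty_iff_eq_empty] at hne
    apply htriv
    constructor
    · intro a
      by_contra ha
      have : vA a ∈ S := Or.inl ⟨a, ha, rfl⟩
      rw [hne] at this
      exact this
    · intro a
      by_contra ha
      have : vB a ∈ S := Or.inr ⟨a, ha, rfl⟩
      rw [hne] at this
      exact this
  obtain ⟨l, hlS, hlmin⟩ := Set.exists_min_image S id hSfin hSne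
  simp only [id] at hlmin
  have hl0 : ⊥ < l := by
    rcases hlS with ⟨a, ha, rfl⟩ | ⟨a, ha, rfl⟩
    · exact hA.ne_bot ha
    · exact hB.ne_bot ha
  have hbl : b < l := by
    rcases hlS with ⟨a, ha, rfl⟩ | ⟨a, ha, rfl⟩
    · exact hbA a ha
    · exact hbB a ha
  have hlm : l ≤ m := by
    rcases hlS with ⟨a, ha, rfl⟩ | ⟨a, ha, rfl⟩
    · exact hmA a
    · exact hmB a
  have hlA : ∀ a : A, a ≠ 1 → l ≤ vA a := fun a ha => hlmin _ (Or.inl ⟨a, ha, rfl⟩)
  have hlB : ∀ a : B, a ≠ 1 → l ≤ vB a := fun a ha => hlmin _ (Or.inr ⟨a, ha, rfl⟩)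
  -- next value
  obtain ⟨l', hll', hl'⟩ : ∃ l', l < l' ∧ ∀ x ∈ S, l < x → l' < x := by
    by_cases hS' : ({x | x ∈ S ∧ l < x} : Set V).Nonempty
    · obtain ⟨y, hyS, hymin⟩ := Set.exists_min_image {x | x ∈ S ∧ l < x} id
        (hSfin.subset (fun x hx => hx.1)) hS'
      obtain ⟨l', h1, h2⟩ := exists_between hyS.2
      refine ⟨l', h1, ?_⟩
      intro x hx hlx
      exact h2.trans_le (hymin x ⟨hx, hlx⟩)
    · obtain ⟨l', h1⟩ := exists_gt l
      refine ⟨l', h1, ?_⟩
      intro x hx hlx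
      exact absurd ⟨x, hx, hlx⟩ hS'
  -- truncated valuations and kernels
  have tA := hA.toIsPre.trunc l
  have tB := hB.toIsPre.trunc l
  have tH := hH.toIsPre.trunc l
  have hKA : ∀ a, a ∈ tA.ker ↔ vA a ≤ l := fun a => trunc_eq_bot_iff
  have hKB : ∀ a, a ∈ tB.ker ↔ vB a ≤ l := fun a => trunc_eq_bot_iff
  have hKH : ∀ a, a ∈ tH.ker ↔ vH a ≤ l := fun a => trunc_eq_bot_iff
  have hfK : tH.ker ≤ tA.ker.comap f := by
    intro h hh
    rw [Subgroup.mem_comap, hKA, hf]
    exact (hKH h).mp hh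
  have hgK : tH.ker ≤ tB.ker.comap g := by
    intro h hh
    rw [Subgroup.mem_comap, hKB, hg]
    exact (hKH h).mp hh
  have hcard : Nat.card (A ⧸ tA.ker) + Nat.card (B ⧸ tB.ker) < n := by
    rw [← hn]
    rcases hlS with ⟨a, ha, hal⟩ | ⟨a, ha, hal⟩
    · have h1 := card_quot_lt tA.ker a ha ((hKA a).mpr hal.le)
      have h2 := card_quot_le tB.ker
      omega
    · have h1 := card_quot_lt tB.ker a ha ((hKB a).mpr hal.le)
      have h2 := card_quot_le tA.ker
      omega
  have hsA : Function.Surjective (QuotientGroup.mk' tA.ker) := QuotientGroup.mk'_surjective _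
  have hsB : Function.Surjective (QuotientGroup.mk' tB.ker) := QuotientGroup.mk'_surjective _
  have hsH : Function.Surjective (QuotientGroup.mk' tH.ker) := QuotientGroup.mk'_surjective _
  have hqA : ∀ a, tA.quot (QuotientGroup.mk' tA.ker a) = if vA a ≤ l then ⊥ else vA a :=
    fun a => rfl
  have hqB : ∀ a, tB.quot (QuotientGroup.mk' tB.ker a) = if vB a ≤ l then ⊥ else vB a :=
    fun a => rfl
  have hqH : ∀ a, tH.quot (QuotientGroup.mk' tH.ker a) = if vH a ≤ l then ⊥ else vH a :=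
    fun a => rfl
  obtain ⟨W, gW, fW, w, i', j', hw, hi', hj', hij', hbW, hmW⟩ := ih _ hcard
    (A ⧸ tA.ker) (B ⧸ tB.ker) (H ⧸ tH.ker) rfl tA.quot tB.quot tH.quot
    tA.isPVal_quot tB.isPVal_quot tH.isPVal_quot
    (QuotientGroup.map tH.ker tA.ker f hfK) (QuotientGroup.map tH.ker tB.ker g hgK)
    (by
      intro x
      obtain ⟨x, rfl⟩ := hsH x
      have : QuotientGroup.map tH.ker tA.ker f hfK (QuotientGroup.mk' tH.ker x)
        = QuotientGroup.mk' tA.ker (f x) := rfl
      rw [this, hqA, hqH, hf])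
    (by
      intro x
      obtain ⟨x, rfl⟩ := hsH x
      have : QuotientGroup.map tH.ker tB.ker g hgK (QuotientGroup.mk' tH.ker x)
        = QuotientGroup.mk' tB.ker (g x) := rfl
      rw [this, hqB, hqH, hg])
    l'
    (by
      intro x hx
      obtain ⟨x, rfl⟩ := hsA x
      rw [hqA]
      have h1 : ¬ vA x ≤ l := by
        intro h1
        apply hx
        rw [QuotientGroup.mk'_apply, QuotientGroup.eq_one_iff]
        exact (hKA x).mpr h1
      rw [if_neg h1]
      apply hl' _ (Or.inl ⟨x, ?_, rfl⟩) (not_le.mp h1)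
      rintro rfl
      apply h1
      rw [hA.one]; exact bot_le)
    (by
      intro x hx
      obtain ⟨x, rfl⟩ := hsB x
      rw [hqB]
      have h1 : ¬ vB x ≤ l := by
        intro h1
        apply hx
        rw [QuotientGroup.mk'_apply, QuotientGroup.eq_one_iff]
        exact (hKB x).mpr h1
      rw [if_neg h1]
      apply hl' _ (Or.inr ⟨x, ?_, rfl⟩) (not_le.mp h1)
      rintro rfl
      apply h1
      rw [hB.one]; exact bot_le)
    (by
      intro x
      obtain ⟨x, rfl⟩ := hsA x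
      rw [hqA]
      split_ifs
      · exact bot_le
      · exact hmA x)
    (by
      intro x
      obtain ⟨x, rfl⟩ := hsB x
      rw [hqB]
      split_ifs
      · exact bot_le
      · exact hmB x)
  -- homomorphisms to W
  let iA : A →* W := i'.comp (QuotientGroup.mk' tA.ker)
  let jB : B →* W := j'.comp (QuotientGroup.mk' tB.ker)
  let kH : H →* W := iA.comp f
  have hwA : ∀ a, w (iA a) = if vA a ≤ l then ⊥ else vA a := by
    intro a
    change w (i' (QuotientGroup.mk' tA.ker a)) = _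
    rw [hi', hqA]
  have hwB : ∀ a, w (jB a) = if vB a ≤ l then ⊥ else vB a := by
    intro a
    change w (j' (QuotientGroup.mk' tB.ker a)) = _
    rw [hj', hqB]
  have hiA1 : ∀ a, iA a = 1 ↔ a ∈ tA.ker := by
    intro a
    rw [← hw.bot_iff, hwA, hKA, trunc_eq_bot_iff]
  have hjB1 : ∀ a, jB a = 1 ↔ a ∈ tB.ker := by
    intro a
    rw [← hw.bot_iff, hwB, hKB, trunc_eq_bot_iff]
  have hkH : ∀ h, kH h = jB (g h) := by
    intro h
    have := hij' (QuotientGroup.mk' tH.ker h)
    exact this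
  have hcenA : ∀ z ∈ tA.ker, ∀ a, z * a = a * z :=
    fun z hz a => bottom_central hA hlA ((hKA z).mp hz) a
  have hcenB : ∀ z ∈ tB.ker, ∀ a, z * a = a * z :=
    fun z hz a => bottom_central hB hlB ((hKB z).mp hz) a
  obtain ⟨θA, θB, hθA, hθB, hθ⟩ := exists_compatible_theta hA hB hH f g hf hg l hlA hlB
    tA.ker hKA tB.ker hKB
  obtain ⟨sH, yH, hsy, hyH⟩ := exists_transversal kH
  obtain ⟨ρA, xA, hρA, hxA⟩ := exists_transversal iA
  obtain ⟨ρB, xB, hρB, hxB⟩ := exists_transversal jB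
  let rA : W → A := fun x => f (sH x) * ρA (yH x)
  let rB : W → B := fun x => g (sH x) * ρB (yH x)
  have hrA : ∀ x, iA (rA x) = x * (xA x)⁻¹ := by
    intro x
    have h1 : xA x = xA (yH x) := by
      conv_lhs => rw [hsy x]
      exact hxA (f (sH x)) (yH x)
    have h2 : iA (ρA (yH x)) = yH x * (xA (yH x))⁻¹ := by
      rw [eq_mul_inv_iff_mul_eq]; exact (hρA (yH x)).symm
    change iA (f (sH x) * ρA (yH x)) = _
    rw [map_mul, h2, h1, ← mul_assoc]
    congr 1
    exact (hsy x).symm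
  have hrB : ∀ x, jB (rB x) = x * (xB x)⁻¹ := by
    intro x
    have h0 : x = jB (g (sH x)) * yH x := by
      rw [← hkH]; exact hsy x
    have h1 : xB x = xB (yH x) := by
      conv_lhs => rw [h0]
      exact hxB (g (sH x)) (yH x)
    have h2 : jB (ρB (yH x)) = yH x * (xB (yH x))⁻¹ := by
      rw [eq_mul_inv_iff_mul_eq]; exact (hρB (yH x)).symm
    change jB (g (sH x) * ρB (yH x)) = _
    rw [map_mul, h2, h1, ← mul_assoc]
    congr 1
    exact h0.symm
  have hPA : ∀ a x, a * rA x * (rA (iA a * x))⁻¹ ∈ tA.ker := by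
    intro a x
    rw [← hiA1, map_mul, map_mul, map_inv, hrA, hrA, hxA]
    group
  have hPB : ∀ a x, a * rB x * (rB (jB a * x))⁻¹ ∈ tB.ker := by
    intro a x
    rw [← hjB1, map_mul, map_mul, map_inv, hrB, hrB, hxB]
    group
  obtain ⟨vC, hvC, hvC1, hvC2, hvC3⟩ := exists_wreath_val w hw l l' hl0 hll'
    (fun x hx => (hbW x hx).le)
  refine ⟨RegularWreathProduct (Cp p) W, inferInstance, inferInstance, vC,
    wreathHom tA.ker hcenA θA iA rA hPA, wreathHom tB.ker hcenB θB jB rB hPB, hvC, ?_, ?_, ?_,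
    ?_, ?_⟩
  · intro a
    exact wreathHom_val hA hlA tA.ker hKA hcenA θA hθA iA w hiA1
      (fun a ha => by rw [hwA, if_neg (fun h => ha ((hKA a).mpr h))]) rA hPA vC hvC hvC1 hvC2 a
  · intro a
    exact wreathHom_val hB hlB tB.ker hKB hcenB θB hθB jB w hjB1
      (fun a ha => by rw [hwB, if_neg (fun h => ha ((hKB a).mpr h))]) rB hPB vC hvC hvC1 hvC2 a
  · intro h
    refine RegularWreathProduct.ext (funext fun u => ?_) (hkH h)
    have hm1 : f h * rA ((iA (f h))⁻¹ * u) * (rA u)⁻¹ ∈ tA.ker := by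
      have := hPA (f h) ((iA (f h))⁻¹ * u)
      rwa [mul_inv_cancel_left] at this
    have hm2 : g h * rB ((jB (g h))⁻¹ * u) * (rB u)⁻¹ ∈ tB.ker := by
      have := hPB (g h) ((jB (g h))⁻¹ * u)
      rwa [mul_inv_cancel_left] at this
    change θA ⟨f h * rA ((iA (f h))⁻¹ * u) * (rA u)⁻¹, hm1⟩
      = θB ⟨g h * rB ((jB (g h))⁻¹ * u) * (rB u)⁻¹, hm2⟩
    have hy : yH ((kH h)⁻¹ * u) = yH u := by
      rw [← hyH h ((kH h)⁻¹ * u), mul_inv_cancel_left]
    have e1 : f h * rA ((iA (f h))⁻¹ * u) * (rA u)⁻¹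
        = f (h * sH ((kH h)⁻¹ * u) * (sH u)⁻¹) := by
      have : iA (f h) = kH h := rfl
      rw [this]
      change f h * (f (sH ((kH h)⁻¹ * u)) * ρA (yH ((kH h)⁻¹ * u))) *
        (f (sH u) * ρA (yH u))⁻¹ = _
      rw [hy, map_mul, map_mul, map_inv]
      group
    have e2 : g h * rB ((jB (g h))⁻¹ * u) * (rB u)⁻¹
        = g (h * sH ((kH h)⁻¹ * u) * (sH u)⁻¹) := by
      rw [← hkH h]
      change g h * (g (sH ((kH h)⁻¹ * u)) * ρB (yH ((kH h)⁻¹ * u))) *
        (g (sH u) * ρB (yH u))⁻¹ = _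
      rw [hy, map_mul, map_mul, map_inv]
      group
    have hm1' : f (h * sH ((kH h)⁻¹ * u) * (sH u)⁻¹) ∈ tA.ker := by rw [← e1]; exact hm1
    have hm2' : g (h * sH ((kH h)⁻¹ * u) * (sH u)⁻¹) ∈ tB.ker := by rw [← e2]; exact hm2
    have e1' : (⟨_, hm1⟩ : tA.ker) = ⟨_, hm1'⟩ := Subtype.ext e1
    have e2' : (⟨_, hm2⟩ : tB.ker) = ⟨_, hm2'⟩ := Subtype.ext e2
    rw [e1', e2']
    exact hθ _ _ _
  · intro c hc
    by_cases hr : c.right = 1
    · exact hbl.trans_le (hvC3 c hr hc).1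
    · rw [hvC1 c hr]
      exact (hbl.trans hll').trans (hbW _ hr)
  · intro c
    by_cases hr : c.right = 1
    · by_cases hc : c = 1
      · rw [hc, hvC.one]; exact bot_le
      · by_cases hW : ∃ x : W, x ≠ 1
        · obtain ⟨x, hx⟩ := hW
          exact ((hvC3 c hr hc).2.trans (hbW x hx)).le.trans (hmW x)
        · push Not at hW
          have hcc : c = cst (c.left 1) := by
            refine RegularWreathProduct.ext (funext fun u => ?_) hr
            rw [hW u]; rfl
          have hne : c.left 1 ≠ 1 := by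
            intro h
            apply hc
            rw [hcc, h]
            rfl
          rw [hcc, hvC2 _ hne]
          exact hlm
    · rw [hvC1 c hr]; exact hmW _

end AP

end Pool.Agent.Helper944
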