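import Pool.Agent.Helper944.Step

set_option autoImplicit false

namespace Pool.Agent.Helper944

/-- a bare type with `n` points, without algebraic instances -/
def Pt (n : ℕ) : Type := Fin n

instance (n : ℕ) : Finite (Pt n) := inferInstanceAs (Finite (Fin n))

instance (n : ℕ) : Countable (Pt n) := inferInstanceAs (Countable (Fin n))

theorem Fs_countable {I : Type} {S : Set I} (hS : S.Countable) : Countable (Fs S) := by
  have : Countable S := hS.to_subtype
  have hle : Fs S ≤ (FreeGroup.lift (fun i : S => FreeGroup.of (i : I))).range := by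
    rw [Fs, Subgroup.closure_le]
    rintro _ ⟨i, hi, rfl⟩
    exact ⟨FreeGroup.of ⟨i, hi⟩, by simp⟩
  have h2 : Countable ((FreeGroup.lift (fun i : S => FreeGroup.of (i : I))).range) := by
    have h3 : (Set.range (FreeGroup.lift (fun i : S => FreeGroup.of (i : I)))).Countable :=
      Set.countable_range _
    exact h3.to_subtype
  exact (Subgroup.inclusion_injective hle).countable

namespace PStr

variable {p : ℕ} [hp : Fact p.Prime] {I V : Type} [LinearOrder V] [OrderBot V]

/-- all extension problems over `A` with values in `Λ` are solved in `T` -/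
def Solves (A T : PStr p I V) (Λ : Set V) : Prop :=
  ∀ (A' B : Type) [Group A'] [Group B] [Finite A'] [Finite B] (vA' : A' → V) (vB : B → V)
    (_ : IsPVal p vA') (_ : IsPVal p vB) (ι : A' →* B) (_ : ∀ a, vB (ι a) = vA' a)
    (y₀ : A' → FreeGroup I) (_ : A.Real vA' y₀) (_ : ∀ b, vB b ∈ insert ⊥ Λ),
    ∃ y : B → FreeGroup I, T.Real vB y ∧ ∀ a, T.w (y (ι a) * (y₀ a)⁻¹) = ⊥

/-- codes for extension problems -/
def Code (A : PStr p I V) (Λ : Set V) : Type :=
  Σ n : ℕ, (Pt n → Pt n → Pt n) × (Pt n → (insert ⊥ Λ : Set V)) × (Set (Pt n)) × (Pt n → Fs A.S)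

omit hp in
theorem code_countable (A : PStr p I V) (hA : A.S.Countable) (Λ : Set V) (hΛ : Λ.Countable) :
    Countable (Code A Λ) := by
  have h1 : Countable (Fs A.S) := Fs_countable hA
  have h2 : Countable (insert ⊥ Λ : Set V) := (hΛ.insert ⊥).to_subtype
  unfold Code
  infer_instance

/-- the extension problem coded by `c` is solved in `T` -/
def SolvesCode (A T : PStr p I V) {Λ : Set V} (c : Code A Λ) : Prop :=
  ∀ (g : Group (Pt c.1)), (∀ a b, g.mul a b = c.2.1 a b) →
    IsPVal p (fun x : Pt c.1 => (c.2.2.1 x : V)) →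
    ∀ K : Subgroup (Pt c.1), (K : Set (Pt c.1)) = c.2.2.2.1 →
      A.Real (B := K) (fun k => (c.2.2.1 k : V)) (fun k => (c.2.2.2.2 k : FreeGroup I)) →
      ∃ y : Pt c.1 → FreeGroup I, T.Real (fun x => (c.2.2.1 x : V)) y ∧
        ∀ k : K, T.w (y k * (c.2.2.2.2 k : FreeGroup I)⁻¹) = ⊥

omit hp in
theorem SolvesCode.mono {A T T' : PStr p I V} (h : T.le T') {Λ : Set V} {c : Code A Λ}
    (hAT : A.le T) (hc : A.SolvesCode T c) : A.SolvesCode T' c := by
  intro g hg hv K hK hr
  obtain ⟨y, hy, hyk⟩ := hc g hg hv K hK hr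
  refine ⟨y, hy.mono h, fun k => ?_⟩
  rw [h.2 _ (mul_mem (hy.mem _) (inv_mem (Fs_mono hAT.1 (c.2.2.2.2 k).2)))]
  exact hyk k

theorem exists_solvesCode [DenselyOrdered V] [NoMaxOrder V]
    (hI : ∀ S : Set I, S.Countable → (Sᶜ).Infinite) (A : PStr p I V) {Λ : Set V} (c : Code A Λ)
    (T₀ : PStr p I V) (hT₀ : T₀.S.Countable) (hAT : A.le T₀) :
    ∃ T : PStr p I V, T.S.Countable ∧ T₀.le T ∧ A.SolvesCode T c := by
  by_cases hex : ∃ (g : Group (Pt c.1)), (∀ a b, g.mul a b = c.2.1 a b) ∧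
    IsPVal p (fun x : Pt c.1 => (c.2.2.1 x : V)) ∧
    ∃ K : Subgroup (Pt c.1), (K : Set (Pt c.1)) = c.2.2.2.1 ∧
      A.Real (B := K) (fun k => (c.2.2.1 k : V)) (fun k => (c.2.2.2.2 k : FreeGroup I))
  · obtain ⟨g, hg, hv, K, hK, hr⟩ := hex
    obtain ⟨T, hT, hle, y, hy, hyk⟩ := exists_step hI T₀ hT₀ (A' := K) (B := Pt c.1)
      (fun k => (c.2.2.1 k : V)) (fun x => (c.2.2.1 x : V))
      (hv.comp K.subtype Subtype.val_injective) hv K.subtype (fun a => rfl)
      (fun k => (c.2.2.2.2 k : FreeGroup I)) (hr.mono hAT)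
    refine ⟨T, hT, hle, ?_⟩
    intro g' hg' hv' K' hK' hr'
    have hgg : g' = g := by
      apply Group.ext
      funext a b
      exact (hg' a b).trans (hg a b).symm
    subst hgg
    have hKK : K' = K := by
      apply SetLike.coe_injective
      rw [hK, hK']
    subst hKK
    exact ⟨y, hy, hyk⟩
  · refine ⟨T₀, hT₀, le_refl _, ?_⟩
    intro g hg hv K hK hr
    exact absurd ⟨g, hg, hv, K, hK, hr⟩ hex

theorem solves_of_codes {A T : PStr p I V} {Λ : Set V} (h : ∀ c : Code A Λ, A.SolvesCode T c) :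
    A.Solves T Λ := by
  classical
  intro A' B _ _ _ _ vA' vB hA' hB ι hι y₀ hy₀ hΛ
  obtain ⟨e₀⟩ : Nonempty (B ≃ Fin (Nat.card B)) := ⟨Finite.equivFin B⟩
  let e : B ≃ Pt (Nat.card B) := e₀
  letI g : Group (Pt (Nat.card B)) := e.symm.group
  have hmul : ∀ a b : Pt (Nat.card B), a * b = e (e.symm a * e.symm b) := fun a b => rfl
  have hes : ∀ a b : Pt (Nat.card B), e.symm (a * b) = e.symm a * e.symm b := by
    intro a b
    rw [hmul, e.symm_apply_apply]
  have he : ∀ a b : B, e (a * b) = e a * e b := by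
    intro a b
    rw [hmul, e.symm_apply_apply, e.symm_apply_apply]
  let es : Pt (Nat.card B) →* B := MonoidHom.mk' e.symm hes
  let κ : A' →* Pt (Nat.card B) := MonoidHom.mk' (fun a => e (ι a)) (by
    intro a b
    rw [map_mul, he])
  have hιinj : Function.Injective ι := hA'.injective_of_preserves hB.toIsPre ι hι
  have hκinj : Function.Injective κ := by
    intro a b hab
    exact hιinj (e.injective hab)
  let yc : Pt (Nat.card B) → Fs A.S := fun k =>
    if hk : ∃ a, κ a = k then ⟨y₀ hk.choose, hy₀.mem _⟩ else 1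
  have hyc : ∀ a, (yc (κ a) : FreeGroup I) = y₀ a := by
    intro a
    have hex : ∃ a', κ a' = κ a := ⟨a, rfl⟩
    simp only [yc, dif_pos hex]
    congr 1
    exact hκinj hex.choose_spec
  let c : Code A Λ := ⟨Nat.card B, fun a b => a * b, fun x => ⟨vB (e.symm x), hΛ _⟩,
    (κ.range : Set (Pt (Nat.card B))), yc⟩
  have hv : IsPVal p (fun x : Pt (Nat.card B) => vB (e.symm x)) :=
    hB.comp es e.symm.injective
  obtain ⟨y, hy, hyk⟩ := h c g (fun a b => rfl) hv κ.range rfl (by
    refine ⟨fun k => (yc k).2, ?_, ?_⟩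
    · rintro ⟨_, a, rfl⟩ ⟨_, b, rfl⟩
      change A.w ((yc (κ a) : FreeGroup I) * (yc (κ b) : FreeGroup I) *
        ((yc (κ a * κ b) : FreeGroup I))⁻¹) = ⊥
      rw [← map_mul, hyc, hyc, hyc]
      exact hy₀.mul a b
    · rintro ⟨_, a, rfl⟩
      change A.w (yc (κ a) : FreeGroup I) = vB (e.symm (κ a))
      rw [hyc, hy₀.val]
      change vA' a = vB (e.symm (e (ι a)))
      rw [e.symm_apply_apply, hι])
  refine ⟨fun b => y (e b), ⟨fun b => hy.mem _, ?_, ?_⟩, ?_⟩
  · intro b b'
    have := hy.mul (e b) (e b')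
    rw [← he] at this
    exact this
  · intro b
    have := hy.val (e b)
    rw [this]
    change vB (e.symm (e b)) = vB b
    rw [e.symm_apply_apply]
  · intro a
    have := hyk ⟨κ a, a, rfl⟩
    change T.w (y (κ a) * (yc (κ a) : FreeGroup I)⁻¹) = ⊥ at this
    rw [hyc] at this
    exact this

/-- solving all extension problems over a countable structure -/
theorem exists_solves [DenselyOrdered V] [NoMaxOrder V]
    (hI : ∀ S : Set I, S.Countable → (Sᶜ).Infinite) (A : PStr p I V) (hA : A.S.Countable)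
    (Λ : Set V) (hΛ : Λ.Countable) :
    ∃ T : PStr p I V, T.S.Countable ∧ A.le T ∧ A.Solves T Λ := by
  have hcc : Countable (Code A Λ) := code_countable A hA Λ hΛ
  have hne : Nonempty (Code A Λ) :=
    ⟨⟨0, fun a _ => a, fun _ => ⟨⊥, Set.mem_insert _ _⟩, ∅, fun _ => 1⟩⟩
  obtain ⟨c, hc⟩ := exists_surjective_nat (Code A Λ)
  let X : ℕ → Type := fun _ => {T : PStr p I V // T.S.Countable ∧ A.le T}
  obtain ⟨f, hf0, hf⟩ := exists_dep_seq (X := X) (⟨A, hA, le_refl A⟩ : X 0)
    (fun n T T' => T.1.le T'.1 ∧ A.SolvesCode T'.1 (c n)) (by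
      intro n T
      obtain ⟨T', h1, h2, h3⟩ := exists_solvesCode hI A (c n) T.1 T.2.1 T.2.2
      exact ⟨⟨T', h1, le_trans T.2.2 h2⟩, h2, h3⟩)
  have hmono : ∀ n k, n ≤ k → (f n).1.le (f k).1 := by
    intro n k hnk
    induction hnk with
    | refl => exact le_refl _
    | step _ ih => exact le_trans ih (hf _).1
  obtain ⟨T, hTS, hT⟩ := exists_union (fun n => (f n).1)
    (fun i k => ⟨max i k, hmono _ _ (le_max_left _ _), hmono _ _ (le_max_right _ _)⟩)
  have hAT : A.le T := le_trans (f 0).2.2 (hT 0)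
  refine ⟨T, ?_, hAT, ?_⟩
  · rw [hTS]
    exact Set.countable_iUnion (fun n => (f n).2.1)
  · apply solves_of_codes
    intro c'
    obtain ⟨n, rfl⟩ := hc c'
    exact SolvesCode.mono (hT (n + 1)) (f (n + 1)).2.2 (hf n).2

end PStr

end Pool.Agent.Helper944
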