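import Pool.Agent.Helper944.PVal

set_option autoImplicit false

namespace Pool.Agent.Helper944

section quot

variable {p : ℕ} {G V : Type*} [Group G] [LinearOrder V] [OrderBot V] {v : G → V}

/-- truncating a pre-valuation at a threshold -/
theorem IsPre.trunc (h : IsPre p v) (l : V) : IsPre p (fun x => if v x ≤ l then ⊥ else v x) := by
  classical
  have key : ∀ x y : G, ∀ (hle : v y < v x ∨ v y = ⊥),
      (if v y ≤ l then ⊥ else v y) < (if v x ≤ l then ⊥ else v x) ∨
      (if v y ≤ l then ⊥ else v y) = ⊥ := by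
    intro x y hle
    by_cases hy : v y ≤ l
    · right; rw [if_pos hy]
    · left
      rw [if_neg hy]
      rcases hle with h1 | h1
      · rw [if_neg]
        · exact h1
        · intro h2
          exact hy (h1.le.trans h2)
      · exact absurd (by rw [h1]; exact bot_le) hy
  refine { one := ?_, mul := ?_, inv := ?_, comm := ?_, layer := ?_, pow := ?_ }
  · simp [h.one]
  · intro x y
    by_cases hxy : v (x * y) ≤ l
    · rw [if_pos hxy]; exact bot_le
    · rw [if_neg hxy]
      rcases le_max_iff.mp (h.mul x y) with h1 | h1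
      · apply le_max_of_le_left
        rw [if_neg]
        · exact h1
        · intro h2; exact hxy (h1.trans h2)
      · apply le_max_of_le_right
        rw [if_neg]
        · exact h1
        · intro h2; exact hxy (h1.trans h2)
  · intro x
    rw [h.inv_eq]
  · intro x y
    exact key x _ (h.comm x y)
  · intro x y hxy
    by_cases hx : v x ≤ l
    · rw [if_pos hx] at hxy
      have hy : v y ≤ l := by
        by_contra hy
        rw [if_neg hy] at hxy
        exact hy (by rw [← hxy]; exact bot_le)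
      refine ⟨0, Or.inr ?_⟩
      rw [if_pos]
      rw [pow_zero, one_mul, h.inv_eq]
      exact hy
    · rw [if_neg hx] at hxy
      have hy : ¬ v y ≤ l := by
        intro hy
        rw [if_pos hy] at hxy
        exact hx (by rw [hxy]; exact bot_le)
      rw [if_neg hy] at hxy
      obtain ⟨i, hi⟩ := h.layer x y hxy
      exact ⟨i, key x _ hi⟩
  · intro x
    exact key x _ (h.pow x)

/-- the kernel of a pre-valuation -/
def IsPre.ker (h : IsPre p v) : Subgroup G where
  carrier := {x | v x = ⊥}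
  one_mem' := h.one
  mul_mem' := by
    intro a b ha hb
    have : v (a * b) = v a := h.mul_bot_right hb
    exact this.trans ha
  inv_mem' := by
    intro a ha
    exact (h.inv_eq a).trans ha

theorem IsPre.mem_ker (h : IsPre p v) {x : G} : x ∈ h.ker ↔ v x = ⊥ := Iff.rfl

instance IsPre.ker_normal (h : IsPre p v) : h.ker.Normal :=
  ⟨fun n hn g => by rw [h.mem_ker, h.conj_eq]; exact hn⟩

/-- the induced valuation on the quotient by the kernel -/
def IsPre.quot (h : IsPre p v) : G ⧸ h.ker → V :=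
  Quotient.lift v (by
    intro a b hab
    have h1 : a⁻¹ * b ∈ h.ker := QuotientGroup.leftRel_apply.mp hab
    have h2 : b = a * (a⁻¹ * b) := by group
    rw [h2]
    exact (h.mul_bot_right h1).symm)

@[simp]
theorem IsPre.quot_mk (h : IsPre p v) (x : G) : h.quot (QuotientGroup.mk x) = v x := rfl

@[simp]
theorem IsPre.quot_mk' (h : IsPre p v) (x : G) : h.quot (QuotientGroup.mk' h.ker x) = v x := rfl

theorem IsPre.isPVal_quot (h : IsPre p v) : IsPVal p h.quot := by
  have hs : Function.Surjective (QuotientGroup.mk' h.ker) := QuotientGroup.mk'_surjective _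
  refine { one := ?_, mul := ?_, inv := ?_, comm := ?_, layer := ?_, pow := ?_, eq_one := ?_ }
  · exact h.one
  · intro x y
    obtain ⟨x, rfl⟩ := hs x
    obtain ⟨y, rfl⟩ := hs y
    exact h.mul x y
  · intro x
    obtain ⟨x, rfl⟩ := hs x
    exact h.inv x
  · intro x y
    obtain ⟨x, rfl⟩ := hs x
    obtain ⟨y, rfl⟩ := hs y
    exact h.comm x y
  · intro x y hxy
    obtain ⟨x, rfl⟩ := hs x
    obtain ⟨y, rfl⟩ := hs y
    exact h.layer x y hxy
  · intro x
    obtain ⟨x, rfl⟩ := hs x
    exact h.pow x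
  · intro x hx
    obtain ⟨x, rfl⟩ := hs x
    rw [QuotientGroup.mk'_apply, QuotientGroup.eq_one_iff]
    exact hx

end quot

section wreath

variable {p : ℕ} [hp : Fact p.Prime]

/-- the group of order `p` -/
abbrev Cp (p : ℕ) := Multiplicative (ZMod p)

/-- the constant element in the base group -/
def cst {p : ℕ} {W : Type*} [Group W] (z : Cp p) : RegularWreathProduct (Cp p) W :=
  ⟨fun _ => z, 1⟩

theorem cst_comm {W : Type*} [Group W] (z : Cp p) (g : RegularWreathProduct (Cp p) W) :
    g * cst z = cst z * g := by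
  ext
  · simp [cst, mul_comm]
  · simp [cst]

theorem exists_wreath_val {V : Type*} [LinearOrder V] [OrderBot V] [DenselyOrdered V]
    {W : Type*} [Group W] [Finite W] (w : W → V) (hw : IsPVal p w) (l u : V) (hl : ⊥ < l)
    (hlu : l < u) (huw : ∀ x, x ≠ 1 → u ≤ w x) :
    ∃ v : RegularWreathProduct (Cp p) W → V, IsPVal p v ∧
      (∀ c, c.right ≠ 1 → v c = w c.right) ∧
      (∀ z : Cp p, z ≠ 1 → v (cst z) = l) ∧
      (∀ c, c.right = 1 → c ≠ 1 → l ≤ v c ∧ v c < u) := by
  classical
  set C := RegularWreathProduct (Cp p) W with hCdef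
  have hWp : IsPGroup p W := hw.isPGroup
  have hC : IsPGroup p C := by
    obtain ⟨k, hk⟩ := IsPGroup.iff_card.mp hWp
    have h1 : Nat.card C = p ^ (Nat.card W + k) := by
      rw [RegularWreathProduct.card, hk, pow_add]
      congr 2
      simp [Cp]
    exact IsPGroup.of_card h1
  let z₁ : C := cst (Multiplicative.ofAdd 1)
  have hcst_mul : ∀ a b : Cp p, (cst (a * b) : C) = cst a * cst b := by
    intro a b
    ext <;> simp [cst]
  let cs : Cp p →* C := MonoidHom.mk' cst hcst_mul
  have hcs_inj : Function.Injective cs := by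
    intro a b hab
    have : (cs a).left 1 = (cs b).left 1 := by rw [hab]
    exact this
  have hz₁ : orderOf z₁ = p := by
    have : z₁ = cs (Multiplicative.ofAdd 1) := rfl
    rw [this, orderOf_injective cs hcs_inj]
    rw [orderOf_ofAdd_eq_addOrderOf]
    simp [ZMod.addOrderOf_one]
  have hcst_mem : ∀ z : Cp p, (cst z : C) ∈ Subgroup.zpowers z₁ := by
    intro z
    rw [Subgroup.mem_zpowers_iff]
    refine ⟨((Multiplicative.toAdd z).val : ℤ), ?_⟩
    have h1 : z₁ = cs (Multiplicative.ofAdd 1) := rfl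
    have h2 : (cst z : C) = cs z := rfl
    rw [h1, h2, ← map_zpow]
    congr 1
    rw [zpow_natCast, ← ofAdd_nsmul]
    apply Multiplicative.toAdd.injective
    simp
  have hcentral : ∀ x ∈ Subgroup.zpowers z₁, x ∈ Subgroup.center C := by
    intro x hx
    have : z₁ ∈ Subgroup.center C := by
      rw [Subgroup.mem_center_iff]
      intro g
      exact cst_comm _ g
    exact (Subgroup.zpowers_le.mpr this) hx
  have hnorm : (Subgroup.zpowers z₁).Normal := by
    refine ⟨fun x hx g => ?_⟩
    have := (Subgroup.mem_center_iff.mp (hcentral x hx)) g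
    rw [this, mul_inv_cancel_right]
    exact hx
  set Z := Subgroup.zpowers z₁ with hZdef
  have hZr : ∀ x ∈ Z, RegularWreathProduct.rightHom x = 1 := by
    intro x hx
    obtain ⟨k, rfl⟩ := Subgroup.mem_zpowers_iff.mp hx
    rw [map_zpow]
    have : (RegularWreathProduct.rightHom z₁ : W) = 1 := rfl
    rw [this, one_zpow]
  obtain ⟨v', hv', hv'1, hv'2⟩ := exists_refine w hw u huw (Nat.card (C ⧸ Z)) (C ⧸ Z) rfl
    (hC.to_quotient Z) (QuotientGroup.lift Z RegularWreathProduct.rightHom hZr) l hlu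
  have hlift : ∀ c : C, QuotientGroup.lift Z RegularWreathProduct.rightHom hZr
      (QuotientGroup.mk' Z c) = c.right := fun c => rfl
  refine ⟨extVal (QuotientGroup.mk' Z) v' l, ?_, ?_, ?_, ?_⟩
  · apply isPVal_extVal _ _ hv' l hl
    · intro x hx
      by_cases hπ : QuotientGroup.lift Z RegularWreathProduct.rightHom hZr x = 1
      · exact (hv'2 x hπ hx).1
      · rw [hv'1 x hπ]
        exact hlu.trans_le (huw _ hπ)
    · intro x c hx
      rw [QuotientGroup.mk'_apply, QuotientGroup.eq_one_iff] at hx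
      exact ((Subgroup.mem_center_iff.mp (hcentral x hx)) c).symm
    · intro x hx
      rw [QuotientGroup.mk'_apply, QuotientGroup.eq_one_iff] at hx
      exact prime_pow_one hz₁ hx
    · intro x x' hx hx' hx1
      rw [QuotientGroup.mk'_apply, QuotientGroup.eq_one_iff] at hx hx'
      exact prime_cyc hz₁ hx hx' hx1
  · intro c hc
    have h1 : QuotientGroup.mk' Z c ≠ 1 := by
      intro h
      rw [QuotientGroup.mk'_apply, QuotientGroup.eq_one_iff] at h
      exact hc (hZr c h)
    rw [extVal_of_ne h1, hv'1 _ (by rw [hlift]; exact hc), hlift]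
  · intro z hz
    have h1 : QuotientGroup.mk' Z (cst z) = 1 := by
      rw [QuotientGroup.mk'_apply, QuotientGroup.eq_one_iff]
      exact hcst_mem z
    apply extVal_of_eq h1
    intro h2
    apply hz
    apply hcs_inj
    rw [map_one]
    exact h2
  · intro c hc hc1
    by_cases h1 : QuotientGroup.mk' Z c = 1
    · rw [extVal_of_eq h1 hc1]
      exact ⟨le_rfl, hlu⟩
    · rw [extVal_of_ne h1]
      have := hv'2 (QuotientGroup.mk' Z c) (by rw [hlift]; exact hc) h1
      exact ⟨this.1.le, this.2⟩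

end wreath

section embed

/-- a transversal for the left action through a homomorphism -/
theorem exists_transversal {H W : Type*} [Group H] [Group W] (k : H →* W) :
    ∃ (s : W → H) (y : W → W), (∀ w, w = k (s w) * y w) ∧ ∀ h w, y (k h * w) = y w := by
  classical
  let S : Setoid W :=
    { r := fun a b => ∃ h, b = k h * a
      iseqv :=
        { refl := fun a => ⟨1, by simp⟩
          symm := fun {a b} ⟨h, hh⟩ => ⟨h⁻¹, by rw [hh, map_inv]; group⟩
          trans := fun {a b c} ⟨h, hh⟩ ⟨h', hh'⟩ => ⟨h' * h, by rw [hh', hh, map_mul]; group⟩ } }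
  let y : W → W := fun w => (Quotient.mk S w).out
  have hy : ∀ w, ∃ h, w = k h * y w := fun w => Quotient.mk_out (s := S) w
  choose s hs using hy
  refine ⟨s, y, hs, ?_⟩
  intro h w
  have : (Quotient.mk S (k h * w)) = Quotient.mk S w := by
    apply Quotient.sound
    refine ⟨h⁻¹, ?_⟩
    rw [map_inv]; group
  change (Quotient.mk S (k h * w)).out = (Quotient.mk S w).out
  rw [this]

/-- the Krasner Kaloujnine type embedding attached to a section -/
def wreathHom {p : ℕ} {A W : Type*} [Group A] [Group W] (A₁ : Subgroup A)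
    (hcen : ∀ z ∈ A₁, ∀ a, z * a = a * z) (θ : A₁ →* Cp p) (i : A →* W) (r : W → A)
    (hr : ∀ a w, a * r w * (r (i a * w))⁻¹ ∈ A₁) : A →* RegularWreathProduct (Cp p) W where
  toFun a := ⟨fun u => θ ⟨a * r ((i a)⁻¹ * u) * (r u)⁻¹, by
    have := hr a ((i a)⁻¹ * u)
    rwa [mul_inv_cancel_left] at this⟩, i a⟩
  map_one' := by
    refine RegularWreathProduct.ext (funext fun u => ?_) (map_one i)
    have hm : (1 : A) * r ((i 1)⁻¹ * u) * (r u)⁻¹ ∈ A₁ := by
      have := hr 1 ((i 1)⁻¹ * u)
      rwa [mul_inv_cancel_left] at this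
    have h1 : (⟨1 * r ((i 1)⁻¹ * u) * (r u)⁻¹, hm⟩ : A₁) = 1 := by
      apply Subtype.ext
      simp
    change θ ⟨1 * r ((i 1)⁻¹ * u) * (r u)⁻¹, hm⟩ = 1
    rw [h1, map_one]
  map_mul' := by
    intro a b
    refine RegularWreathProduct.ext (funext fun u => ?_) (map_mul i a b)
    have hma : a * r ((i a)⁻¹ * u) * (r u)⁻¹ ∈ A₁ := by
      have := hr a ((i a)⁻¹ * u)
      rwa [mul_inv_cancel_left] at this
    have hmab : a * b * r ((i (a * b))⁻¹ * u) * (r u)⁻¹ ∈ A₁ := by
      have := hr (a * b) ((i (a * b))⁻¹ * u)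
      rwa [mul_inv_cancel_left] at this
    have hmem : b * r ((i b)⁻¹ * ((i a)⁻¹ * u)) * (r ((i a)⁻¹ * u))⁻¹ ∈ A₁ := by
      have := hr b ((i b)⁻¹ * ((i a)⁻¹ * u))
      rwa [mul_inv_cancel_left] at this
    have h1 : (i (a * b))⁻¹ * u = (i b)⁻¹ * ((i a)⁻¹ * u) := by
      rw [map_mul, mul_inv_rev, mul_assoc]
    have h2 := hcen _ hmem ((r ((i a)⁻¹ * u)) * (r u)⁻¹)
    have h3 : (⟨a * b * r ((i (a * b))⁻¹ * u) * (r u)⁻¹, hmab⟩ : A₁)
        = ⟨a * r ((i a)⁻¹ * u) * (r u)⁻¹, hma⟩ *
          ⟨b * r ((i b)⁻¹ * ((i a)⁻¹ * u)) * (r ((i a)⁻¹ * u))⁻¹, hmem⟩ := by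
      apply Subtype.ext
      simp only [Subgroup.coe_mul, h1]
      calc a * b * r ((i b)⁻¹ * ((i a)⁻¹ * u)) * (r u)⁻¹
          = a * ((b * r ((i b)⁻¹ * ((i a)⁻¹ * u)) * (r ((i a)⁻¹ * u))⁻¹) *
            (r ((i a)⁻¹ * u) * (r u)⁻¹)) := by group
        _ = a * r ((i a)⁻¹ * u) * (r u)⁻¹ *
            (b * r ((i b)⁻¹ * ((i a)⁻¹ * u)) * (r ((i a)⁻¹ * u))⁻¹) := by
          rw [h2]; group
    change θ ⟨a * b * r ((i (a * b))⁻¹ * u) * (r u)⁻¹, hmab⟩ =
      θ ⟨a * r ((i a)⁻¹ * u) * (r u)⁻¹, hma⟩ *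
      θ ⟨b * r ((i b)⁻¹ * ((i a)⁻¹ * u)) * (r ((i a)⁻¹ * u))⁻¹, hmem⟩
    rw [h3, map_mul]

theorem exists_theta {p : ℕ} [hp : Fact p.Prime] {A V : Type*} [Group A] [LinearOrder V]
    [OrderBot V] {v : A → V} (hv : IsPVal p v) (l : V) (hl : ∀ a, a ≠ 1 → l ≤ v a)
    (A₁ : Subgroup A) (hA₁ : ∀ a, a ∈ A₁ ↔ v a ≤ l) (a₁ : A₁) (ha₁ : a₁ ≠ 1) :
    ∃ θ : A₁ →* Cp p, Function.Injective θ ∧ θ a₁ = Multiplicative.ofAdd 1 := by
  have hval : ∀ a : A₁, a ≠ 1 → v a = l := by
    intro a ha
    apply le_antisymm ((hA₁ a).mp a.2)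
    apply hl
    simpa using ha
  have hlt : ∀ a : A, v a < l → a = 1 := by
    intro a ha
    by_contra h
    exact absurd (hl a h) (not_le.mpr ha)
  have hgen : ∀ x : A₁, x ∈ Subgroup.zpowers a₁ := by
    intro x
    by_cases hx : x = 1
    · rw [hx]; exact one_mem _
    · obtain ⟨i, hi⟩ := hv.layer_lt (x := (a₁ : A)) (y := x) (by simpa using ha₁)
        (by rw [hval _ ha₁, hval _ hx])
      rw [hval _ ha₁] at hi
      have h1 := hlt _ hi
      have h2 : a₁ ^ i = x := by
        apply Subtype.ext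
        simpa [mul_inv_eq_one] using h1
      rw [← h2]
      exact Subgroup.npow_mem_zpowers _ _
  have hord : orderOf a₁ = p := by
    have h1 : a₁ ^ p = 1 := by
      apply Subtype.ext
      have := hv.pow_lt (x := (a₁ : A)) (by simpa using ha₁)
      rw [hval _ ha₁] at this
      simpa using hlt _ this
    exact orderOf_eq_prime h1 ha₁
  have hgen' : ∀ x : Cp p, x ∈ Subgroup.zpowers (Multiplicative.ofAdd (1 : ZMod p)) := by
    intro x
    rw [Subgroup.mem_zpowers_iff]
    refine ⟨((Multiplicative.toAdd x).val : ℤ), ?_⟩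
    rw [zpow_natCast, ← ofAdd_nsmul]
    apply Multiplicative.toAdd.injective
    simp
  have hord' : orderOf a₁ = orderOf (Multiplicative.ofAdd (1 : ZMod p)) := by
    rw [hord, orderOf_ofAdd_eq_addOrderOf]
    simp [ZMod.addOrderOf_one]
  refine ⟨(mulEquivOfOrderOfEq hgen hgen' hord').toMonoidHom,
    (mulEquivOfOrderOfEq hgen hgen' hord').injective, ?_⟩
  exact mulEquivOfOrderOfEq_apply_gen hgen hgen' hord'

end embed

end Pool.Agent.Helper944
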