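import Mathlib

set_option autoImplicit false

namespace Pool.Agent.Helper944

/-- terms of the derived series of a finitely generated torsion group have finite index -/
theorem derivedSeries_finite_index (G : Type*) [Group G] [hG : Group.FG G]
    (h : ∀ g : G, IsOfFinOrder g) (n : ℕ) : (derivedSeries G n).FiniteIndex := by
  induction n with
  | zero =>
    rw [derivedSeries_zero]
    infer_instance
  | succ n ih =>
    set K := derivedSeries G n with hK
    have hfg : Group.FG K := Subgroup.fg_of_index_ne_zero K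
    have hfgab : Group.FG (Abelianization K) := QuotientGroup.fg _
    have htor : IsMulTorsion (Abelianization K) := by
      intro x
      obtain ⟨y, rfl⟩ := QuotientGroup.mk'_surjective _ x
      have h1 : IsOfFinOrder (y : G) := h y
      have h2 : IsOfFinOrder y := by
        exact Submonoid.isOfFinOrder_coe.mp h1
      exact MonoidHom.isOfFinOrder _ h2
    have hfin : Finite (Abelianization K) := CommGroup.finite_of_fg_isMulTorsion (G := Abelianization K) htor
    have hidx : (commutator K).FiniteIndex := by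
      have : Finite (K ⧸ commutator K) := hfin
      exact Subgroup.finiteIndex_of_finite_quotient
    rw [derivedSeries_succ, ← hK, ← Subgroup.map_subtype_commutator]
    constructor
    rw [Subgroup.index_map_subtype]
    exact mul_ne_zero hidx.index_ne_zero ih.index_ne_zero

/-- a finitely generated soluble torsion group is finite -/
theorem finite_of_fg_solvable_torsion (G : Type*) [Group G] [Group.FG G] [hs : Group.IsSolvable G]
    (h : ∀ g : G, IsOfFinOrder g) : Finite G := by
  obtain ⟨n, hn⟩ := hs.solvable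
  have := derivedSeries_finite_index G h n
  rw [hn] at this
  have h1 : Finite (G ⧸ (⊥ : Subgroup G)) := inferInstance
  exact Finite.of_injective (fun g : G => (QuotientGroup.mk g : G ⧸ (⊥ : Subgroup G))) (by
    intro a b hab
    simpa [QuotientGroup.eq, inv_mul_eq_one] using hab)

theorem closure_finite_of_solvable {H : Type*} [Group H] (h : ∀ g : H, IsOfFinOrder g)
    (s : Set H) (hs : s.Finite) (hsol : Group.IsSolvable (Subgroup.closure s)) :
    Finite (Subgroup.closure s) := by
  have hfg : Group.FG (Subgroup.closure s) := by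
    rw [Group.fg_iff_subgroup_fg]
    exact ⟨hs.toFinset, by simp⟩
  apply finite_of_fg_solvable_torsion
  intro g
  have h1 : IsOfFinOrder (g : H) := h g
  exact Submonoid.isOfFinOrder_coe.mp h1

/-- projection of a finite nilpotent group to a `p`-group whose kernel has order prime to `p` -/
theorem exists_proj.{u} (F : Type u) [Group F] [Finite F] [Group.IsNilpotent F] (p : ℕ)
    [hp : Fact p.Prime] : ∃ (Q : Type u) (_ : Group Q) (ψ : F →* Q),
      (∀ c : Q, ∃ k : ℕ, c ^ (p ^ k) = 1) ∧ ∀ z : F, ψ z = 1 → ¬ p ∣ orderOf z := by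
  obtain ⟨φ⟩ := (Group.isNilpotent_of_finite_tfae (G := F)).out 0 4 |>.mp ‹_›
  by_cases hpF : p ∈ (Nat.card F).primeFactors
  · refine ⟨∀ P : Sylow p F, P, inferInstance,
      (Pi.evalMonoidHom (fun q : (Nat.card F).primeFactors => ∀ P : Sylow q F, P) ⟨p, hpF⟩).comp
        φ.symm.toMonoidHom, ?_, ?_⟩
    · intro c
      refine ⟨(Nat.card F).factorization p, ?_⟩
      funext P
      rw [Pi.pow_apply, ← P.card_eq_multiplicity]
      exact pow_card_eq_one'
    · intro z hz hdvd
      obtain ⟨m, hm⟩ := hdvd
      have hpos : 0 < orderOf z := orderOf_pos z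
      have hm0 : 0 < m := by
        rcases Nat.eq_zero_or_pos m with rfl | h
        · rw [hm, mul_zero] at hpos; exact absurd hpos (lt_irrefl _)
        · exact h
      have hwp : (z ^ m) ^ p = 1 := by
        rw [← pow_mul, mul_comm m p, ← hm, pow_orderOf_eq_one]
      have hw1 : z ^ m ≠ 1 := by
        apply pow_ne_one_of_lt_orderOf hm0.ne'
        rw [hm]
        have := hp.out.one_lt
        nlinarith
      apply hw1
      have hφw : φ.symm (z ^ m) = 1 := by
        funext q P
        by_cases hq : q = ⟨p, hpF⟩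
        · subst hq
          have h1 : φ.symm z ⟨p, hpF⟩ = 1 := hz
          rw [map_pow, Pi.pow_apply, h1, one_pow]
          rfl
        · have hqprime : Fact (q : ℕ).Prime := ⟨Nat.prime_of_mem_primeFactors q.2⟩
          have hne : (q : ℕ) ≠ p := fun h => hq (Subtype.ext h)
          have h1 : (φ.symm (z ^ m) q P) ^ p = 1 := by
            have : (φ.symm (z ^ m)) ^ p = 1 := by rw [← map_pow, hwp, map_one]
            exact congrFun (congrFun this q) P
          obtain ⟨k, hk⟩ := P.isPGroup' (φ.symm (z ^ m) q P)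
          have h3 : orderOf (φ.symm (z ^ m) q P) ∣ p := orderOf_dvd_of_pow_eq_one h1
          have h4 : orderOf (φ.symm (z ^ m) q P) ∣ (q : ℕ) ^ k := orderOf_dvd_of_pow_eq_one hk
          have hcop : Nat.Coprime p ((q : ℕ) ^ k) :=
            Nat.Coprime.pow_right k ((Nat.coprime_primes hp.out hqprime.out).mpr hne.symm)
          have h5 : orderOf (φ.symm (z ^ m) q P) = 1 := Nat.eq_one_of_dvd_coprimes hcop h3 h4
          exact orderOf_eq_one_iff.mp h5
      have := congrArg φ hφw
      rwa [φ.apply_symm_apply, map_one] at this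
  · refine ⟨PUnit.{u + 1}, inferInstance, 1, fun c => ⟨0, rfl⟩, ?_⟩
    intro z _ hdvd
    apply hpF
    rw [Nat.mem_primeFactors]
    exact ⟨hp.out, hdvd.trans (orderOf_dvd_natCard z), Nat.card_pos.ne'⟩

theorem not_dvd_orderOf_mul {F : Type*} [Group F] [Finite F] [Group.IsNilpotent F] (p : ℕ)
    [hp : Fact p.Prime] {x y : F} (hx : ¬ p ∣ orderOf x) (hy : ¬ p ∣ orderOf y) :
    ¬ p ∣ orderOf (x * y) := by
  obtain ⟨Q, gQ, ψ, hψ, hψ1⟩ := exists_proj F p
  have key : ∀ z : F, ¬ p ∣ orderOf z → ψ z = 1 := by
    intro z hz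
    obtain ⟨k, hk⟩ := hψ (ψ z)
    have h1 : orderOf (ψ z) ∣ p ^ k := orderOf_dvd_of_pow_eq_one hk
    have h2 : orderOf (ψ z) ∣ orderOf z := orderOf_map_dvd ψ z
    have hcop : Nat.Coprime (p ^ k) (orderOf z) :=
      Nat.Coprime.pow_left k ((Nat.Prime.coprime_iff_not_dvd hp.out).mpr hz)
    exact orderOf_eq_one_iff.mp (Nat.eq_one_of_dvd_coprimes hcop h1 h2)
  apply hψ1
  rw [map_mul, key x hx, key y hy, one_mul]

/-- the subgroup of elements of order prime to `p` in a periodic locally nilpotent group -/
def primeTo (p : ℕ) [hp : Fact p.Prime] (H : Type*) [Group H] (h : ∀ g : H, IsOfFinOrder g)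
    (hn : ∀ s : Set H, s.Finite → Group.IsNilpotent (Subgroup.closure s)) : Subgroup H where
  carrier := {x | ¬ p ∣ orderOf x}
  one_mem' := by
    change ¬ p ∣ orderOf (1 : H)
    rw [orderOf_one]
    exact fun h1 => hp.out.one_lt.ne' (Nat.dvd_one.mp h1)
  mul_mem' := by
    intro x y hx hy
    have hnil := hn {x, y} (by simp)
    have hfin : Finite (Subgroup.closure {x, y}) :=
      closure_finite_of_solvable h _ (by simp) inferInstance
    have hxm : x ∈ Subgroup.closure {x, y} := Subgroup.subset_closure (by simp)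
    have hym : y ∈ Subgroup.closure {x, y} := Subgroup.subset_closure (by simp)
    have := not_dvd_orderOf_mul p (x := (⟨x, hxm⟩ : Subgroup.closure {x, y})) (y := ⟨y, hym⟩)
      (by rw [← Subgroup.orderOf_coe]; exact hx) (by rw [← Subgroup.orderOf_coe]; exact hy)
    rw [← Subgroup.orderOf_coe] at this
    exact this
  inv_mem' := by
    intro x hx
    change ¬ p ∣ orderOf x⁻¹
    rw [orderOf_inv]
    exact hx

theorem mem_primeTo {p : ℕ} [hp : Fact p.Prime] {H : Type*} [Group H]
    {h : ∀ g : H, IsOfFinOrder g}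
    {hn : ∀ s : Set H, s.Finite → Group.IsNilpotent (Subgroup.closure s)} {x : H} :
    x ∈ primeTo p H h hn ↔ ¬ p ∣ orderOf x := Iff.rfl

instance {p : ℕ} [hp : Fact p.Prime] {H : Type*} [Group H]
    {h : ∀ g : H, IsOfFinOrder g}
    {hn : ∀ s : Set H, s.Finite → Group.IsNilpotent (Subgroup.closure s)} :
    (primeTo p H h hn).Normal where
  conj_mem := by
    intro x hx g
    rw [mem_primeTo] at hx ⊢
    have : orderOf (g * x * g⁻¹) = orderOf x := by
      have h1 : orderOf (MulAut.conj g x) = orderOf x :=
        orderOf_injective (MulAut.conj g).toMonoidHom (MulAut.conj g).injective x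
      rwa [MulAut.conj_apply] at h1
    rw [this]
    exact hx

theorem isPGroup_quot {p : ℕ} [hp : Fact p.Prime] {H : Type*} [Group H]
    {h : ∀ g : H, IsOfFinOrder g}
    {hn : ∀ s : Set H, s.Finite → Group.IsNilpotent (Subgroup.closure s)} :
    IsPGroup p (H ⧸ primeTo p H h hn) := by
  intro g
  obtain ⟨x, rfl⟩ := QuotientGroup.mk'_surjective _ g
  have hpos : 0 < orderOf x := (h x).orderOf_pos
  obtain ⟨k, m, hm, hkm⟩ := Nat.exists_eq_pow_mul_and_not_dvd hpos.ne' p hp.out.one_lt.ne'
  refine ⟨k, ?_⟩
  rw [← map_pow, QuotientGroup.mk'_apply, QuotientGroup.eq_one_iff, mem_primeTo]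
  have hk0 : p ^ k ≠ 0 := (pow_pos hp.out.pos k).ne'
  rw [orderOf_pow_of_dvd hk0 ⟨m, hkm⟩, hkm, Nat.mul_div_cancel_left _ (pow_pos hp.out.pos k)]
  exact hm

end Pool.Agent.Helper944
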