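import Pool.Agent.Helper944.Gadget
import Pool.Agent.Helper944.Tors

set_option autoImplicit false

namespace Pool.Agent.Helper944

theorem word_constants {G : Type} [Group G] {n : ℕ} (w : Monoid.Coprod G (FreeGroup (Fin n))) :
    ∃ A : Set G, A.Finite ∧ ∀ K : Subgroup G, A ⊆ K →
      ∃ w' : Monoid.Coprod K (FreeGroup (Fin n)),
        Monoid.Coprod.map K.subtype (MonoidHom.id _) w' = w := by
  induction w using Monoid.Coprod.induction_on with
  | inl m =>
    refine ⟨{m}, Set.finite_singleton m, fun K hK => ⟨Monoid.Coprod.inl ⟨m, hK rfl⟩, ?_⟩⟩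
    rw [Monoid.Coprod.map_apply_inl]
    rfl
  | inr m =>
    refine ⟨∅, Set.finite_empty, fun K _ => ⟨Monoid.Coprod.inr m, ?_⟩⟩
    rw [Monoid.Coprod.map_apply_inr]
    rfl
  | mul a b ha hb =>
    obtain ⟨A, hA, h⟩ := ha
    obtain ⟨A', hA', h'⟩ := hb
    refine ⟨A ∪ A', hA.union hA', fun K hK => ?_⟩
    obtain ⟨a', ha'⟩ := h K (Set.subset_union_left.trans hK)
    obtain ⟨b', hb'⟩ := h' K (Set.subset_union_right.trans hK)
    exact ⟨a' * b', by rw [map_mul, ha', hb']⟩

/-- rich groups are existentially closed among locally soluble `2`-groups -/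
theorem Rich.ec {G V : Type} [Group G] [LinearOrder V] [OrderBot V] [DenselyOrdered V]
    [NoMaxOrder V] {v : G → V} (hG : Rich 2 v) (H : Type) [Group H]
    (hsol : ∀ S : Finset H, Group.IsSolvable (Subgroup.closure (S : Set H)))
    (hord : ∀ g : H, orderOf g ≠ 0 ∧ ∀ p : ℕ, p.Prime → p ∣ orderOf g → p ∈ ({2} : Set ℕ))
    (f : G →* H) (hf : Function.Injective f) (n : ℕ)
    (E U : Finset (Monoid.Coprod G (FreeGroup (Fin n)))) (x : Fin n → H)
    (hE : ∀ w ∈ E, Monoid.Coprod.lift f (FreeGroup.lift x) w = 1)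
    (hU : ∀ w ∈ U, Monoid.Coprod.lift f (FreeGroup.lift x) w ≠ 1) :
    ∃ y : Fin n → G,
      (∀ w ∈ E, Monoid.Coprod.lift (MonoidHom.id G) (FreeGroup.lift y) w = 1) ∧
      (∀ w ∈ U, Monoid.Coprod.lift (MonoidHom.id G) (FreeGroup.lift y) w ≠ 1) := by
  classical
  choose A hA hAK using word_constants (G := G) (n := n)
  have hconst : (⋃ w ∈ (E ∪ U : Finset _), A w).Finite :=
    (E ∪ U).finite_toSet.biUnion (fun w _ => hA w)
  have hK₀fin := hG.lf _ hconst
  set K₀ := Subgroup.closure (⋃ w ∈ (E ∪ U : Finset _), A w) with hK₀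
  have hsub : ∀ w ∈ (E ∪ U : Finset _), A w ⊆ K₀ := by
    intro w hw z hz
    exact Subgroup.subset_closure (Set.mem_biUnion hw hz)
  obtain ⟨K₁, hK₁fin, hle, hrig⟩ := hG.rigid K₀
  have hHfin : ∀ g : H, IsOfFinOrder g := fun g => orderOf_ne_zero_iff.mp (hord g).1
  have hBset : (f '' K₁ ∪ Set.range x).Finite :=
    ((Set.toFinite (K₁ : Set G)).image f).union (Set.finite_range x)
  have hBfin : Finite (Subgroup.closure (f '' K₁ ∪ Set.range x)) := by
    apply closure_finite_of_solvable hHfin _ hBset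
    have := hsol hBset.toFinset
    rwa [Set.Finite.coe_toFinset] at this
  set B := Subgroup.closure (f '' K₁ ∪ Set.range x) with hBdef
  have hBsub : f '' K₁ ∪ Set.range x ⊆ B := Subgroup.subset_closure
  have hBp : IsPGroup 2 B := by
    intro g
    have h1 : orderOf (g : H) = 2 ^ (orderOf (g : H)).primeFactorsList.length :=
      Nat.eq_prime_pow_of_unique_prime_dvd (hord g).1 (fun {q} hq hd => (hord g).2 q hq hd)
    refine ⟨(orderOf (g : H)).primeFactorsList.length, ?_⟩
    rw [← h1]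
    apply Subtype.ext
    rw [Subgroup.coe_pow, pow_orderOf_eq_one, Subgroup.coe_one]
  obtain ⟨u, hu⟩ := exists_isPVal (p := 2) (V := V) B hBp
  have hfK₁ : ∀ k : K₁, f k ∈ B := fun k => hBsub (Or.inl ⟨k, k.2, rfl⟩)
  let ι₁ : K₁ →* B := (f.comp K₁.subtype).codRestrict B hfK₁
  have hι₁ : Function.Injective ι₁ := by
    intro a b hab
    apply Subtype.ext
    apply hf
    exact congrArg Subtype.val hab
  have hu₁ : IsPVal 2 (fun k => u (ι₁ k)) := hu.comp ι₁ hι₁
  let ι : K₀ →* B := ι₁.comp (Subgroup.inclusion hle)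
  obtain ⟨w, hw, hwA, _⟩ := hu.exists_relabel ι (fun a => v a) (by
    rw [Subgroup.coe_one, hG.val.one]) (fun a a' => (hrig _ hu₁ a a').symm)
  have hvK₀ : IsPVal 2 (fun k : K₀ => v k) := hG.val.comp K₀.subtype Subtype.val_injective
  obtain ⟨e, he, hej⟩ := hG.ext K₀ B (fun k => v k) w hvK₀ hw ι hwA K₀.subtype (fun _ => rfl)
  have heinj : Function.Injective e := hw.injective_of_preserves hG.val.toIsPre e he
  have hxB : ∀ i, x i ∈ B := fun i => hBsub (Or.inr ⟨i, rfl⟩)
  let xB : Fin n → B := fun i => ⟨x i, hxB i⟩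
  let y : Fin n → G := fun i => e (xB i)
  let FB : Monoid.Coprod K₀ (FreeGroup (Fin n)) →* B := Monoid.Coprod.lift ι (FreeGroup.lift xB)
  have h1 : (Monoid.Coprod.lift f (FreeGroup.lift x)).comp
      (Monoid.Coprod.map K₀.subtype (MonoidHom.id _)) = B.subtype.comp FB := by
    apply Monoid.Coprod.hom_ext
    · ext k
      simp [FB]
      rfl
    · ext i
      simp [FB, xB]
  have h2 : (Monoid.Coprod.lift (MonoidHom.id G) (FreeGroup.lift y)).comp
      (Monoid.Coprod.map K₀.subtype (MonoidHom.id _)) = e.comp FB := by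
    apply Monoid.Coprod.hom_ext
    · ext k
      simp [FB]
      exact (hej k).symm
    · ext i
      simp [FB, y]
  have key : ∀ w ∈ (E ∪ U : Finset _), (Monoid.Coprod.lift f (FreeGroup.lift x) w = 1 ↔
      Monoid.Coprod.lift (MonoidHom.id G) (FreeGroup.lift y) w = 1) := by
    intro w hw
    obtain ⟨w', rfl⟩ := hAK w K₀ (hsub w hw)
    have h3 := DFunLike.congr_fun h1 w'
    have h4 := DFunLike.congr_fun h2 w'
    simp only [MonoidHom.comp_apply] at h3 h4
    rw [h3, h4, map_eq_one_iff e heinj]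
    exact map_eq_one_iff B.subtype Subtype.val_injective
  exact ⟨y, fun w hw => (key w (Finset.mem_union_left _ hw)).mp (hE w hw),
    fun w hw h => hU w hw ((key w (Finset.mem_union_right _ hw)).mpr h)⟩

end Pool.Agent.Helper944
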