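import Pool.Agent.Helper944.Omega
import Pool.Agent.Helper944.EC

set_option autoImplicit false

namespace Pool.Agent.Helper944

section

variable {G V : Type} [Group G] [LinearOrder V] [OrderBot V] {v : G → V}

theorem Rich.surj (hG : Rich 2 v) (l : V) : ∃ x, v x = l := by
  rcases eq_or_ne l ⊥ with rfl | hl
  · exact ⟨1, hG.val.one⟩
  · have hw : IsPVal 2 (fun _ : PUnit.{1} => (⊥ : V)) :=
      { one := rfl
        mul := fun _ _ => by simp
        inv := fun _ => le_refl _
        comm := fun _ _ => Or.inr rfl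
        layer := fun _ _ _ => ⟨0, Or.inr rfl⟩
        pow := fun _ => Or.inr rfl
        eq_one := fun _ _ => rfl }
    obtain ⟨e, he, _⟩ := hG.ext PUnit.{1} ℤˣ (fun _ => ⊥) (sgnVal l) hw
      (isPVal_sgnVal l (bot_lt_iff_ne_bot.mpr hl)) 1 (fun _ => sgnVal_one l) 1
      (fun _ => hG.val.one)
    exact ⟨e (-1), by rw [he, sgnVal_neg]⟩

theorem Rich.closure_isPGroup (hG : Rich 2 v) (s : Set G) (hs : s.Finite) :
    Finite (Subgroup.closure s) ∧ IsPGroup 2 (Subgroup.closure s) := by
  have hf := hG.lf s hs
  exact ⟨hf, (hG.val.comp (Subgroup.closure s).subtype Subtype.val_injective).isPGroup⟩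

theorem Rich.closure_solvable (hG : Rich 2 v) (s : Set G) (hs : s.Finite) :
    Group.IsSolvable (Subgroup.closure s) := by
  obtain ⟨h1, h2⟩ := hG.closure_isPGroup s hs
  have : Fact (Nat.Prime 2) := ⟨Nat.prime_two⟩
  have := h2.isNilpotent
  infer_instance

theorem Rich.order (hG : Rich 2 v) (g : G) :
    orderOf g ≠ 0 ∧ ∀ p : ℕ, p.Prime → p ∣ orderOf g → p ∈ ({2} : Set ℕ) := by
  obtain ⟨h1, h2⟩ := hG.closure_isPGroup {g} (Set.finite_singleton g)
  obtain ⟨k, hk⟩ := h2 ⟨g, Subgroup.subset_closure rfl⟩
  have hk' : g ^ 2 ^ k = 1 := congrArg Subtype.val hk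
  have hdvd : orderOf g ∣ 2 ^ k := orderOf_dvd_of_pow_eq_one hk'
  refine ⟨?_, ?_⟩
  · intro h0
    rw [h0, zero_dvd_iff] at hdvd
    exact (pow_ne_zero k two_ne_zero) hdvd
  · intro p hp hpd
    have := hp.dvd_of_dvd_pow (hpd.trans hdvd)
    exact (Nat.prime_dvd_prime_iff_eq hp Nat.prime_two).mp this

variable (V) in
/-- the elements with countably many normal closures below -/
def small (v : G → V) (hG : Rich 2 v) : Subgroup G where
  carrier := {x | (Set.Iic (v x)).Countable}
  one_mem' := by
    change (Set.Iic (v 1)).Countable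
    rw [hG.val.one, Set.Iic_bot]
    exact Set.countable_singleton _
  mul_mem' := by
    intro a b ha hb
    change (Set.Iic (v (a * b))).Countable
    rcases le_max_iff.mp (hG.val.mul a b) with h | h
    · exact Set.Countable.mono (Set.Iic_subset_Iic.mpr h) ha
    · exact Set.Countable.mono (Set.Iic_subset_Iic.mpr h) hb
  inv_mem' := by
    intro a ha
    change (Set.Iic (v a⁻¹)).Countable
    rw [hG.val.inv_eq]
    exact ha

theorem mem_small (hG : Rich 2 v) {x : G} : x ∈ small V v hG ↔ (Set.Iic (v x)).Countable :=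
  Iff.rfl

/-- the set of normal closures of elements in the normal closure of `x` -/
def cls {G : Type} [Group G] (x : G) : Set (Subgroup G) :=
  {M | ∃ y ∈ Subgroup.normalClosure {x}, M = Subgroup.normalClosure {y}}

theorem mem_small_iff [DenselyOrdered V] [NoMaxOrder V] (hG : Rich 2 v) {x : G} :
    x ∈ small V v hG ↔ (cls x).Countable := by
  rw [mem_small]
  choose s hs using hG.surj
  have himg : cls x = (fun l => Subgroup.normalClosure {s l}) '' Set.Iic (v x) := by
    ext M
    constructor
    · rintro ⟨y, hy, rfl⟩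
      rw [hG.mem_normalClosure_iff] at hy
      refine ⟨v y, hy, ?_⟩
      ext z
      simp only [hG.mem_normalClosure_iff, hs]
    · rintro ⟨l, hl, rfl⟩
      refine ⟨s l, ?_, rfl⟩
      rw [hG.mem_normalClosure_iff, hs]
      exact hl
  rw [himg]
  constructor
  · intro h
    exact h.image _
  · intro h
    refine Set.countable_of_injective_of_countable_image ?_ h
    intro a _ b _ hab
    have hab' : Subgroup.normalClosure {s a} = Subgroup.normalClosure {s b} := hab
    have h1 : s a ∈ Subgroup.normalClosure {s b} := by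
      rw [← hab']; exact Subgroup.subset_normalClosure rfl
    have h2 : s b ∈ Subgroup.normalClosure {s a} := by
      rw [hab']; exact Subgroup.subset_normalClosure rfl
    rw [hG.mem_normalClosure_iff, hs, hs] at h1 h2
    exact le_antisymm h1 h2

theorem map_normalClosure_equiv {G : Type} [Group G] (φ : G ≃* G) (x : G) :
    (Subgroup.normalClosure {x}).map φ.toMonoidHom = Subgroup.normalClosure {φ x} := by
  rw [Subgroup.map_normalClosure _ _ φ.surjective, Set.image_singleton]
  rfl

theorem cls_equiv {G : Type} [Group G] (φ : G ≃* G) (x : G) :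
    cls (φ x) = (Subgroup.map φ.toMonoidHom) '' cls x := by
  ext M
  constructor
  · rintro ⟨y, hy, rfl⟩
    rw [← map_normalClosure_equiv] at hy
    obtain ⟨z, hz, rfl⟩ := hy
    exact ⟨Subgroup.normalClosure {z}, ⟨z, hz, rfl⟩, map_normalClosure_equiv φ z⟩
  · rintro ⟨_, ⟨y, hy, rfl⟩, rfl⟩
    refine ⟨φ y, ?_, map_normalClosure_equiv φ y⟩
    rw [← map_normalClosure_equiv]
    exact ⟨y, hy, rfl⟩

theorem small_characteristic [DenselyOrdered V] [NoMaxOrder V] (hG : Rich 2 v) :
    (small V v hG).Characteristic := by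
  rw [Subgroup.characteristic_iff_map_le]
  intro φ
  rintro _ ⟨x, hx, rfl⟩
  have hx' : x ∈ small V v hG := hx
  rw [mem_small_iff] at hx'
  change φ x ∈ small V v hG
  rw [mem_small_iff, cls_equiv]
  exact hx'.image _

end

end Pool.Agent.Helper944
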