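import Pool.Agent.Helper944.Rich

set_option autoImplicit false

namespace Pool.Agent.Helper944

/-- relabelling a valuation -/
theorem IsPVal.relabel {p : ℕ} {B W V : Type*} [Group B] [LinearOrder W] [OrderBot W]
    [LinearOrder V] [OrderBot V] {u : B → W} (hu : IsPVal p u) (v : B → V) (h1 : v 1 = ⊥)
    (h : ∀ x y, v x ≤ v y ↔ u x ≤ u y) : IsPVal p v := by
  have hlt : ∀ x y, v x < v y ↔ u x < u y := by
    intro x y
    rw [← not_le, ← not_le, h]
  have hbot : ∀ x, v x = ⊥ ↔ u x = ⊥ := by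
    intro x
    rw [← le_bot_iff, ← le_bot_iff, ← h1, ← hu.one, h]
  exact
    { one := h1
      mul := by
        intro x y
        rcases le_max_iff.mp (hu.mul x y) with h2 | h2
        · exact le_max_of_le_left ((h _ _).mpr h2)
        · exact le_max_of_le_right ((h _ _).mpr h2)
      inv := fun x => (h _ _).mpr (hu.inv x)
      comm := by
        intro x y
        rw [hlt, hbot]
        exact hu.comm x y
      layer := by
        intro x y hxy
        have : u x = u y := le_antisymm ((h _ _).mp hxy.le) ((h _ _).mp hxy.ge)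
        obtain ⟨i, hi⟩ := hu.layer x y this
        exact ⟨i, by rw [hlt, hbot]; exact hi⟩
      pow := by
        intro x
        rw [hlt, hbot]
        exact hu.pow x
      eq_one := fun x hx => hu.eq_one x ((hbot x).mp hx) }

/-- one point extension of a strictly monotone map -/
theorem extend_one {W V : Type*} [LinearOrder W] [LinearOrder V] [DenselyOrdered V]
    [NoMaxOrder V] (F : Finset W) (φ : W → V) (hφ : StrictMonoOn φ (F : Set W)) (c : W)
    (hlow : ∃ x ∈ F, x < c) :
    ∃ d : V, ∀ x ∈ F, (x < c → φ x < d) ∧ (c < x → d < φ x) := by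
  classical
  obtain ⟨x₀, hx₀, hx₀c⟩ := hlow
  have hL : (F.filter (fun x => x < c)).Nonempty := ⟨x₀, by simp [hx₀, hx₀c]⟩
  obtain ⟨a, ha, hmax⟩ := Finset.exists_max_image _ φ hL
  rw [Finset.mem_filter] at ha
  by_cases hU : (F.filter (fun x => c < x)).Nonempty
  · obtain ⟨b, hb, hmin⟩ := Finset.exists_min_image _ φ hU
    rw [Finset.mem_filter] at hb
    obtain ⟨d, h1, h2⟩ := exists_between (hφ ha.1 hb.1 (ha.2.trans hb.2))
    refine ⟨d, fun x hx => ⟨fun hxc => ?_, fun hxc => ?_⟩⟩
    · exact (hmax x (by simp [hx, hxc])).trans_lt h1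
    · exact h2.trans_le (hmin x (by simp [hx, hxc]))
  · obtain ⟨d, hd⟩ := exists_gt (φ a)
    refine ⟨d, fun x hx => ⟨fun hxc => ?_, fun hxc => ?_⟩⟩
    · exact (hmax x (by simp [hx, hxc])).trans_lt hd
    · exact absurd ⟨x, by simp [hx, hxc]⟩ hU

/-- extension of strictly monotone maps from finite sets containing a least element -/
theorem extend_mono {W V : Type*} [LinearOrder W] [OrderBot W] [LinearOrder V] [DenselyOrdered V]
    [NoMaxOrder V] (F : Finset W) (hF : ⊥ ∈ F) (φ : W → V) (hφ : StrictMonoOn φ (F : Set W))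
    (E : Finset W) : ∃ ψ : W → V, StrictMonoOn ψ ((F ∪ E : Finset W) : Set W) ∧
      ∀ x ∈ F, ψ x = φ x := by
  classical
  induction E using Finset.induction_on with
  | empty => exact ⟨φ, by simpa using hφ, fun _ _ => rfl⟩
  | insert c E _ ih =>
    obtain ⟨ψ, hψ, hψF⟩ := ih
    by_cases hc : c ∈ F ∪ E
    · refine ⟨ψ, ?_, hψF⟩
      have : F ∪ insert c E = F ∪ E := by
        rw [Finset.union_insert, Finset.insert_eq_of_mem hc]
      rw [this]; exact hψ
    · have hcb : ⊥ < c := by
        rw [bot_lt_iff_ne_bot]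
        rintro rfl
        exact hc (Finset.mem_union_left _ hF)
      obtain ⟨d, hd⟩ := extend_one (F ∪ E) ψ hψ c ⟨⊥, Finset.mem_union_left _ hF, hcb⟩
      refine ⟨Function.update ψ c d, ?_, ?_⟩
      · intro x hx y hy hxy
        rw [Finset.mem_coe, Finset.union_insert, Finset.mem_insert] at hx hy
        rcases hx with rfl | hx
        · rcases hy with rfl | hy
          · exact absurd hxy (lt_irrefl _)
          · rw [Function.update_self, Function.update_of_ne hxy.ne']
            exact (hd y hy).2 hxy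
        · have hxc : x ≠ c := fun h => hc (h ▸ hx)
          rcases hy with rfl | hy
          · rw [Function.update_self, Function.update_of_ne hxy.ne]
            exact (hd x hx).1 hxy
          · have hyc : y ≠ c := fun h => hc (h ▸ hy)
            rw [Function.update_of_ne hxc, Function.update_of_ne hyc]
            exact hψ hx hy hxy
      · intro x hx
        have hxc : x ≠ c := fun h => hc (Finset.mem_union_left _ (h ▸ hx))
        rw [Function.update_of_ne hxc]
        exact hψF x hx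

/-- relabelling a valuation so that it agrees with a given one on a subgroup -/
theorem IsPVal.exists_relabel {p : ℕ} {A B W V : Type*} [Group A] [Group B] [Finite A] [Finite B]
    [LinearOrder W] [OrderBot W] [LinearOrder V] [OrderBot V] [DenselyOrdered V] [NoMaxOrder V]
    {u : B → W} (hu : IsPVal p u) (ι : A →* B) (vA : A → V) (hA1 : vA 1 = ⊥)
    (hA : ∀ a a', vA a ≤ vA a' ↔ u (ι a) ≤ u (ι a')) :
    ∃ v : B → V, IsPVal p v ∧ (∀ a, v (ι a) = vA a) ∧ (∀ x y, v x ≤ v y ↔ u x ≤ u y) := by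
  classical
  have hfA : Fintype A := Fintype.ofFinite A
  have hfB : Fintype B := Fintype.ofFinite B
  let φ : W → V := fun t => if h : ∃ a, u (ι a) = t then vA h.choose else ⊥
  have hφ : ∀ a, φ (u (ι a)) = vA a := by
    intro a
    have hex : ∃ a', u (ι a') = u (ι a) := ⟨a, rfl⟩
    simp only [φ, dif_pos hex]
    exact le_antisymm ((hA _ _).mpr hex.choose_spec.le) ((hA _ _).mpr hex.choose_spec.ge)
  have hmem : ∀ a, u (ι a) ∈ (Finset.univ.image (fun a => u (ι a)) : Finset W) := fun a => by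
    rw [Finset.mem_image]; exact ⟨a, Finset.mem_univ a, rfl⟩
  have hbot : u (ι 1) = ⊥ := by rw [map_one, hu.one]
  obtain ⟨ψ, hψ, hψF⟩ := extend_mono (V := V) (Finset.univ.image (fun a => u (ι a)))
    (by rw [← hbot]; exact hmem 1) φ (by
      intro x hx y hy hxy
      rw [Finset.mem_coe, Finset.mem_image] at hx hy
      obtain ⟨a, _, rfl⟩ := hx
      obtain ⟨b, _, rfl⟩ := hy
      rw [hφ, hφ, ← not_le, hA, not_le]
      exact hxy) (Finset.univ.image u)
  have hmemB : ∀ x, u x ∈ ((Finset.univ.image (fun a => u (ι a)) ∪ Finset.univ.image u :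
      Finset W) : Set W) := by
    intro x
    rw [Finset.mem_coe, Finset.mem_union, Finset.mem_image (f := u)]
    exact Or.inr ⟨x, Finset.mem_univ x, rfl⟩
  have hle : ∀ x y, ψ (u x) ≤ ψ (u y) ↔ u x ≤ u y := fun x y => hψ.le_iff_le (hmemB x) (hmemB y)
  have hval : ∀ a, ψ (u (ι a)) = vA a := by
    intro a
    rw [hψF _ (hmem a), hφ]
  refine ⟨fun x => ψ (u x), hu.relabel _ ?_ hle, hval, hle⟩
  have := hval 1
  rw [map_one, hA1] at this
  exact this

/-- every finite `p`-group has a valuation -/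
theorem exists_isPVal {p : ℕ} [hp : Fact p.Prime] {V : Type*} [LinearOrder V] [OrderBot V]
    [DenselyOrdered V] [NoMaxOrder V] (C : Type*) [Group C] [Finite C] (hC : IsPGroup p C) :
    ∃ v : C → V, IsPVal p v := by
  obtain ⟨u, hu⟩ := exists_gt (⊥ : V)
  have hw : IsPVal p (fun _ : PUnit.{1} => (⊥ : V)) :=
    { one := rfl
      mul := fun _ _ => by simp
      inv := fun _ => le_refl _
      comm := fun _ _ => Or.inr rfl
      layer := fun _ _ _ => ⟨0, Or.inr rfl⟩
      pow := fun _ => Or.inr rfl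
      eq_one := fun _ _ => rfl }
  obtain ⟨v, hv, _, _⟩ := exists_refine (p := p) (fun _ : PUnit.{1} => (⊥ : V)) hw u
    (fun x hx => absurd rfl hx) (Nat.card C) C rfl hC 1 ⊥ hu
  exact ⟨v, hv⟩

section embed

variable {p : ℕ} [hp : Fact p.Prime] {G V : Type} [Group G] [LinearOrder V] [OrderBot V]
  [DenselyOrdered V] [NoMaxOrder V] {v : G → V}

omit hp in
/-- extension step -/
theorem Rich.step (hG : Rich p v) {H : Type} [Group H] (K L : Subgroup H) (hKL : K ≤ L)
    [Finite K] [Finite L] (r : H → H → Prop) {u : L → V} (hu : IsPVal p u)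
    (hur : ∀ x y : L, u x ≤ u y ↔ r x y) (e : K →* G)
    (he : ∀ x y : K, v (e x) ≤ v (e y) ↔ r x y) :
    ∃ e' : L →* G, (∀ x y : L, v (e' x) ≤ v (e' y) ↔ r x y) ∧
      ∀ x : K, e' (Subgroup.inclusion hKL x) = e x := by
  have hord : ∀ a a' : K, v (e a) ≤ v (e a') ↔
      u (Subgroup.inclusion hKL a) ≤ u (Subgroup.inclusion hKL a') := by
    intro a a'
    rw [he, hur]
    rfl
  obtain ⟨w, hw, hwA, hwu⟩ := hu.exists_relabel (Subgroup.inclusion hKL) (fun a => v (e a))
    (by rw [map_one, hG.val.one]) hord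
  have hK : IsPVal p (fun a : K => v (e a)) := by
    have : (fun a : K => v (e a)) = fun a => w (Subgroup.inclusion hKL a) := by
      funext a
      exact (hwA a).symm
    rw [this]
    exact hw.comp _ (Subgroup.inclusion_injective hKL)
  obtain ⟨e', he'1, he'2⟩ := hG.ext K L (fun a => v (e a)) w hK hw (Subgroup.inclusion hKL)
    hwA e (fun _ => rfl)
  refine ⟨e', ?_, he'2⟩
  intro x y
  rw [he'1, he'1, hwu, hur]

/-- gluing homomorphisms along an increasing union of subgroups -/
theorem exists_glue {H G : Type*} [Group H] [Group G] (K : ℕ → Subgroup H) (hK : Monotone K)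
    (hKu : ∀ x, ∃ n, x ∈ K n) (e : ∀ n, K n →* G)
    (he : ∀ n (x : K n), e (n + 1) (Subgroup.inclusion (hK (Nat.le_succ n)) x) = e n x) :
    ∃ f : H →* G, ∀ n (x : K n), f x = e n x := by
  have h1 : ∀ n k (hnk : n ≤ k) (x : H) (hx : x ∈ K n), e k ⟨x, hK hnk hx⟩ = e n ⟨x, hx⟩ := by
    intro n k hnk
    induction hnk with
    | refl => exact fun x hx => rfl
    | step hnm ih =>
      intro x hx
      rw [← ih x hx]
      exact he _ ⟨x, hK hnm hx⟩
  have h2 : ∀ n k (x : H) (hx : x ∈ K n) (hx' : x ∈ K k), e n ⟨x, hx⟩ = e k ⟨x, hx'⟩ := by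
    intro n k x hx hx'
    rcases le_total n k with h | h
    · exact (h1 n k h x hx).symm
    · exact h1 k n h x hx'
  choose m hm using hKu
  refine ⟨MonoidHom.mk' (fun x => e (m x) ⟨x, hm x⟩) ?_, ?_⟩
  · intro x y
    have hx : x ∈ K (max (m x) (m y)) := hK (le_max_left _ _) (hm x)
    have hy : y ∈ K (max (m x) (m y)) := hK (le_max_right _ _) (hm y)
    rw [h2 (m x) _ x (hm x) hx, h2 (m y) _ y (hm y) hy,
      h2 (m (x * y)) _ (x * y) (hm (x * y)) (mul_mem hx hy), ← map_mul]
    rfl
  · intro n x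
    exact h2 _ _ _ _ x.2

/-- countable locally finite `p`-groups embed in rich groups -/
theorem Rich.embeds (hG : Rich p v) (H : Type) [Group H] [Countable H]
    (hlf : ∀ s : Set H, s.Finite → Finite (Subgroup.closure s)) (hH : IsPGroup p H) :
    ∃ f : H →* G, Function.Injective f := by
  classical
  obtain ⟨enum, henum⟩ := exists_surjective_nat H
  let K : ℕ → Subgroup H := fun n => Subgroup.closure (enum '' (Set.Iio n))
  have hKm : Monotone K := fun a b hab =>
    Subgroup.closure_mono (Set.image_mono (Set.Iio_subset_Iio hab))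
  have hKf : ∀ n, Finite (K n) := fun n => hlf _ ((Set.finite_Iio n).image _)
  have hKu : ∀ x, ∃ n, x ∈ K n := by
    intro x
    obtain ⟨n, rfl⟩ := henum x
    exact ⟨n + 1, Subgroup.subset_closure ⟨n, Nat.lt_succ_self n, rfl⟩⟩
  choose u hu using fun n => exists_isPVal (p := p) (V := V) (K n) (hH.to_subgroup (K n))
  let U : ℕ → H → V := fun n x => if h : x ∈ K n then u n ⟨x, h⟩ else ⊥
  let r : H → H → Prop := fun x y => ∀ᶠ n in (Filter.hyperfilter ℕ : Filter ℕ), U n x ≤ U n y
  have hkey : ∀ m, ∃ w : K m → V, IsPVal p w ∧ ∀ x y : K m, w x ≤ w y ↔ r x y := by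
    intro m
    have hfin : Finite (K m) := hKf m
    have hfin' : Fintype (K m × K m) := Fintype.ofFinite _
    have h1 : ∀ q : K m × K m, ∀ᶠ n in (Filter.hyperfilter ℕ : Filter ℕ),
        (U n q.1 ≤ U n q.2 ↔ r q.1 q.2) := by
      intro q
      by_cases hr : r q.1 q.2
      · exact hr.mono (fun n hn => ⟨fun _ => hr, fun _ => hn⟩)
      · have h2 : ∀ᶠ n in (Filter.hyperfilter ℕ : Filter ℕ), ¬ (U n q.1 ≤ U n q.2) :=
          Ultrafilter.eventually_not.mpr hr
        exact h2.mono (fun n hn => ⟨fun h => absurd h hn, fun h => absurd h hr⟩)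
    have h2 : ∀ᶠ n in (Filter.hyperfilter ℕ : Filter ℕ), ∀ q : K m × K m,
        (U n q.1 ≤ U n q.2 ↔ r q.1 q.2) := Filter.eventually_all.mpr h1
    have h3 : ∀ᶠ n in (Filter.hyperfilter ℕ : Filter ℕ), m ≤ n :=
      Nat.hyperfilter_le_atTop (Filter.eventually_ge_atTop m)
    obtain ⟨n, hn1, hn2⟩ := (h2.and h3).exists
    refine ⟨fun x => u n (Subgroup.inclusion (hKm hn2) x),
      (hu n).comp _ (Subgroup.inclusion_injective _), ?_⟩
    intro x y
    have h4 : ∀ x : K m, U n x = u n (Subgroup.inclusion (hKm hn2) x) := by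
      intro x
      exact dif_pos (hKm hn2 x.2)
    have := hn1 (x, y)
    rw [h4, h4] at this
    exact this
  have hbot : K 0 = ⊥ := by simp [K]
  obtain ⟨w0, hw0, hw0r⟩ := hkey 0
  obtain ⟨e, _, he⟩ := exists_dep_seq
    (X := fun n => {e : K n →* G // ∀ x y : K n, v (e x) ≤ v (e y) ↔ r x y})
    (⟨1, by
      intro x y
      have hx : x = y := by
        apply Subtype.ext
        have h1 : (x : H) ∈ (⊥ : Subgroup H) := hbot ▸ x.2
        have h2 : (y : H) ∈ (⊥ : Subgroup H) := hbot ▸ y.2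
        rw [Subgroup.mem_bot] at h1 h2
        rw [h1, h2]
      subst hx
      rw [← hw0r]
      simp⟩)
    (fun n e e' => ∀ x : K n, e'.1 (Subgroup.inclusion (hKm (Nat.le_succ n)) x) = e.1 x) (by
      intro n e
      have hf1 := hKf n
      have hf2 := hKf (n + 1)
      obtain ⟨w, hw, hwr⟩ := hkey (n + 1)
      obtain ⟨e', h1, h2⟩ := hG.step (K n) (K (n + 1)) (hKm (Nat.le_succ n)) r hw hwr e.1 e.2
      exact ⟨⟨e', h1⟩, h2⟩)
  obtain ⟨f, hf⟩ := exists_glue K hKm hKu (fun n => (e n).1) he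
  refine ⟨f, ?_⟩
  rw [injective_iff_map_eq_one]
  intro a ha
  obtain ⟨n, hn⟩ := hKu a
  have h1 := hf n ⟨a, hn⟩
  rw [ha] at h1
  obtain ⟨w, hw, hwr⟩ := hkey n
  have h2 : v ((e n).1 ⟨a, hn⟩) ≤ v ((e n).1 1) := by
    rw [← h1, map_one]
  rw [(e n).2, ← hwr, hw.one, le_bot_iff] at h2
  have := hw.eq_one _ h2
  exact congrArg Subtype.val this

end embed

end Pool.Agent.Helper944
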