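import Pool.Agent.Helper944.Two

set_option autoImplicit false

namespace Pool.Agent.Helper944

theorem exists_chi {A V : Type*} [Group A] [LinearOrder V] [OrderBot V] {vA : A → V}
    (hA : IsPVal 2 vA) (L : V) (hL : ⊥ < L) (hle : ∀ a, vA a ≤ L) :
    ∃ χ : A →* ℤˣ, ∀ a, χ a = -1 ↔ vA a = L := by
  classical
  have hLL : ∀ a b, vA a = L → vA b = L → vA (a * b) ≠ L := by
    intro a b ha hb hab
    have ha1 : a ≠ 1 := by
      rintro rfl
      rw [hA.one] at ha
      exact hL.ne ha
    obtain ⟨i, hi⟩ := hA.layer_lt (x := a) (y := b⁻¹) ha1 (by rw [hA.inv_eq, ha, hb])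
    rw [inv_inv, ha] at hi
    have hsq : ∀ k : ℕ, vA (a ^ (k + k)) < L := by
      intro k
      rw [← two_mul, pow_mul]
      have h1 := hA.pow_lt ha1
      rw [ha] at h1
      exact (hA.pow_le _ _).trans_lt h1
    rcases Nat.even_or_odd i with ⟨k, hk⟩ | ⟨k, hk⟩
    · have h2 : b = (a ^ i)⁻¹ * (a ^ i * b) := by group
      have h3 : vA b < L := by
        rw [h2]
        apply hA.mul_lt_of _ hi
        rw [hA.inv_eq, hk]
        exact hsq k
      exact absurd hb h3.ne
    · have h2 : a ^ i * b = a ^ (k + k) * (a * b) := by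
        rw [hk, two_mul, pow_succ, mul_assoc]
      rw [h2, hA.mul_eq_right (by rw [hab]; exact hsq k), hab] at hi
      exact lt_irrefl _ hi
  refine ⟨MonoidHom.mk' (fun a => if vA a = L then -1 else 1) ?_, ?_⟩
  · intro a b
    by_cases ha : vA a = L
    · by_cases hb : vA b = L
      · have h1 := hLL a b ha hb
        simp [ha, hb, h1]
      · have h1 : vA b < vA a := by rw [ha]; exact lt_of_le_of_ne (hle b) hb
        have h2 : vA (a * b) = L := by rw [hA.mul_eq_left h1, ha]
        simp [ha, hb, h2]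
    · by_cases hb : vA b = L
      · have h1 : vA a < vA b := by rw [hb]; exact lt_of_le_of_ne (hle a) ha
        have h2 : vA (a * b) = L := by rw [hA.mul_eq_right h1, hb]
        simp [ha, hb, h2]
      · have h1 : vA (a * b) < L :=
          hA.mul_lt_of (lt_of_le_of_ne (hle a) ha) (lt_of_le_of_ne (hle b) hb)
        simp [ha, hb, h1.ne]
  · intro a
    change (if vA a = L then (-1 : ℤˣ) else 1) = -1 ↔ vA a = L
    by_cases ha : vA a = L
    · simp [ha]
    · simp only [ha, if_false, iff_false]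
      decide

theorem IsPre.zpow_le {p : ℕ} {G V : Type*} [Group G] [LinearOrder V] [OrderBot V] {v : G → V}
    (h : IsPre p v) (x : G) (n : ℤ) : v (x ^ n) ≤ v x := by
  rcases n.eq_nat_or_neg with ⟨k, rfl | rfl⟩
  · rw [zpow_natCast]; exact h.pow_le x k
  · rw [zpow_neg, zpow_natCast, h.inv_eq]; exact h.pow_le x k

section gadget

variable {G V : Type} [Group G] [LinearOrder V] [OrderBot V] {v : G → V}

theorem Rich.finite_zpowers (hG : Rich 2 v) (x : G) : Finite (Subgroup.zpowers x) := by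
  rw [Subgroup.zpowers_eq_closure]
  exact hG.lf {x} (Set.finite_singleton x)

/-- adjoining a central involution with prescribed label -/
theorem Rich.adjoin_central (hG : Rich 2 v) (K : Subgroup G) [Finite K] (t : V) (ht : ⊥ < t)
    (htK : ∀ k ∈ K, v k ≠ t) :
    ∃ s : G, s * s = 1 ∧ v s = t ∧ ∀ k ∈ K, s * k = k * s := by
  have hvK : IsPVal 2 (fun k : K => v k) := hG.val.comp K.subtype Subtype.val_injective
  have hB : IsPVal 2 (fun x : K × ℤˣ => max (v x.1) (sgnVal t x.2)) := by
    apply isPVal_prod hvK (isPVal_sgnVal t ht)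
    intro a b _ hb
    rcases Int.units_eq_one_or b with h | h
    · exact absurd h hb
    · rw [h, sgnVal_neg]
      exact htK a a.2
  obtain ⟨e, he, hej⟩ := hG.ext K (K × ℤˣ) (fun k => v k) _ hvK hB (MonoidHom.inl K ℤˣ) (by
    intro a
    change max (v a) (sgnVal t 1) = v a
    rw [sgnVal_one, max_bot_right]) K.subtype (fun _ => rfl)
  refine ⟨e (1, -1), ?_, ?_, ?_⟩
  · rw [← map_mul]
    have : ((1, -1) : K × ℤˣ) * (1, -1) = 1 := by
      ext <;> simp
    rw [this, map_one]
  · rw [he]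
    change max (v ((1 : K) : G)) (sgnVal t (-1)) = t
    rw [sgnVal_neg, Subgroup.coe_one, hG.val.one, max_bot_left]
  · intro k hk
    have h1 : e (MonoidHom.inl K ℤˣ ⟨k, hk⟩) = k := hej ⟨k, hk⟩
    rw [← h1, ← map_mul, ← map_mul]
    congr 1
    ext <;> simp

/-- adjoining an involution on top inducing a prescribed automorphism -/
theorem Rich.adjoin_top (hG : Rich 2 v) (A : Type) [Group A] [Finite A] (vA : A → V)
    (hA : IsPVal 2 vA) (j : A →* G) (hj : ∀ a, v (j a) = vA a) (τ : MulAut A) (hτ : τ * τ = 1)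
    (hτv : ∀ a, a ≠ 1 → vA (τ a * a⁻¹) < vA a) (t : V) (ht : ∀ a, vA a < t) :
    ∃ m : G, m * m = 1 ∧ v m = t ∧ ∀ a, m * j a * m⁻¹ = j (τ a) := by
  have hfin : Finite (A ⋊[sgnAct τ hτ] ℤˣ) :=
    Finite.of_equiv _ (SemidirectProduct.equivProd (N := A) (G := ℤˣ) (φ := sgnAct τ hτ)).symm
  obtain ⟨e, he, hej⟩ := hG.ext A (A ⋊[sgnAct τ hτ] ℤˣ) vA _ hA (isPVal_semi hA τ hτ hτv t ht)
    SemidirectProduct.inl (by
      intro a
      simp) j hj
  refine ⟨e (SemidirectProduct.inr (-1)), ?_, ?_, ?_⟩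
  · rw [← map_mul, ← map_mul]
    simp
  · rw [he]
    simp
  · intro a
    rw [← hej, ← hej, ← map_mul, ← map_inv, ← map_mul]
    congr 1
    have h2 : sgnAct τ hτ (-1) = τ := by simp [sgnAct]
    rw [← map_inv, ← SemidirectProduct.inl_aut, h2]

variable (R : G → G → Prop) (hcomm : ∀ x c, x ≠ 1 → R x (x * c * x⁻¹ * c⁻¹))
  (hmul : ∀ x y z, R x y → R x z → R x (y * z)) (htrans : ∀ x y z, R x y → R y z → R x z)

include hcomm in
theorem Rich.rel_central [NoMaxOrder V] (hG : Rich 2 v) (x s : G) (hs2 : s * s = 1) (hs1 : s ≠ 1)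
    (hxs : s * x = x * s) (hv : v s < v x) (hd : ∀ a ∈ Subgroup.zpowers x, v a ≠ v s) :
    R x s := by
  have hfin := hG.finite_zpowers x
  have hx1 : x ≠ 1 := by
    rintro rfl
    rw [hG.val.one] at hv
    exact not_lt_bot hv
  have hcomm' : ∀ a ∈ Subgroup.zpowers x, Commute a s := by
    intro a ha
    obtain ⟨n, rfl⟩ := Subgroup.mem_zpowers_iff.mp ha
    exact Commute.zpow_left (show Commute x s from hxs.symm) n
  let ψ : ℤˣ →* G := MonoidHom.mk' (fun u => if u = 1 then 1 else s) (by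
    intro a b
    rcases Int.units_eq_one_or a with rfl | rfl <;> rcases Int.units_eq_one_or b with rfl | rfl <;>
      simp [hs2])
  have hψ1 : ψ 1 = 1 := map_one ψ
  have hψn : ψ (-1) = s := by simp [ψ]
  let j : Subgroup.zpowers x × ℤˣ →* G :=
    (Subgroup.zpowers x).subtype.noncommCoprod ψ (by
      intro a b
      rcases Int.units_eq_one_or b with rfl | rfl
      · rw [hψ1]; exact Commute.one_right _
      · rw [hψn]; exact hcomm' a a.2)
  have hj : ∀ a, j a = a.1 * ψ a.2 := fun a => rfl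
  have hvK : IsPVal 2 (fun k : Subgroup.zpowers x => v k) :=
    hG.val.comp (Subgroup.zpowers x).subtype Subtype.val_injective
  have hs0 : ⊥ < v s := hG.val.ne_bot hs1
  have hB : IsPVal 2 (fun a : Subgroup.zpowers x × ℤˣ => max (v a.1) (sgnVal (v s) a.2)) := by
    apply isPVal_prod hvK (isPVal_sgnVal _ hs0)
    intro a b _ hb
    rcases Int.units_eq_one_or b with h | h
    · exact absurd h hb
    · rw [h, sgnVal_neg]
      exact hd a a.2
  have hjv : ∀ a, v (j a) = max (v a.1) (sgnVal (v s) a.2) := by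
    intro a
    rw [hj]
    rcases Int.units_eq_one_or a.2 with h | h
    · rw [h, hψ1, mul_one, sgnVal_one, max_bot_right]
    · rw [h, hψn, sgnVal_neg]
      rcases lt_or_gt_of_ne (hd a.1 a.1.2) with h' | h'
      · rw [hG.val.mul_eq_right h', max_eq_right h'.le]
      · rw [hG.val.mul_eq_left h', max_eq_left h'.le]
  have hle : ∀ a : Subgroup.zpowers x, v a ≤ v x := by
    rintro ⟨a, ha⟩
    obtain ⟨n, rfl⟩ := Subgroup.mem_zpowers_iff.mp ha
    exact hG.val.zpow_le x n
  obtain ⟨χ, hχ⟩ := exists_chi hvK (v x) (hG.val.ne_bot hx1) hle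
  have hχχ : ∀ a, χ a * χ a = 1 := fun a => Int.units_mul_self _
  let τ : MulAut (Subgroup.zpowers x × ℤˣ) :=
    { toFun := fun a => (a.1, a.2 * χ a.1)
      invFun := fun a => (a.1, a.2 * χ a.1)
      left_inv := by
        intro a
        ext
        · rfl
        · simp [mul_assoc, hχχ]
      right_inv := by
        intro a
        ext
        · rfl
        · simp [mul_assoc, hχχ]
      map_mul' := by
        intro a b
        ext
        · rfl
        · simp only [Prod.snd_mul, Prod.fst_mul, map_mul]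
          rw [mul_mul_mul_comm] }
  have hτa : ∀ a, τ a = (a.1, a.2 * χ a.1) := fun a => rfl
  have hττ : τ * τ = 1 := by
    ext a
    · rfl
    · rw [MulAut.mul_apply, hτa, hτa, MulAut.one_apply]
      simp [mul_assoc, hχχ]
  obtain ⟨t, ht⟩ := exists_gt (v x)
  obtain ⟨m, _, _, hm⟩ := hG.adjoin_top _ _ hB j hjv τ hττ (by
    intro a ha
    have h1 : τ a * a⁻¹ = (1, χ a.1) := by
      rw [hτa]
      refine Prod.ext ?_ ?_
      · simp
      · change a.2 * χ a.1 * a.2⁻¹ = χ a.1
        rw [mul_comm a.2, mul_inv_cancel_right]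
    rw [h1]
    rcases Int.units_eq_one_or (χ a.1) with h | h
    · rw [h]
      have h2 : max (v (1 : Subgroup.zpowers x)) (sgnVal (v s) 1) = ⊥ := hB.one
      change max (v (1 : Subgroup.zpowers x)) (sgnVal (v s) 1) < _
      rw [h2]
      exact hB.ne_bot ha
    · rw [h]
      have h2 := (hχ a.1).mp h
      change max (v ((1 : Subgroup.zpowers x) : G)) (sgnVal (v s) (-1)) < _
      rw [sgnVal_neg, Subgroup.coe_one, hG.val.one, max_bot_left]
      apply lt_of_lt_of_le _ (le_max_left _ _)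
      rw [h2]
      exact hv) t (by
    intro a
    apply (max_lt ((hle a.1).trans_lt ht) _)
    rcases Int.units_eq_one_or a.2 with h | h
    · rw [h, sgnVal_one]; exact bot_lt_iff_ne_bot.mpr (ne_bot_of_gt ht)
    · rw [h, sgnVal_neg]; exact hv.trans ht)
  have hmx := hm (⟨x, Subgroup.mem_zpowers x⟩, 1)
  rw [hτa, hj, hj] at hmx
  have hχx : χ ⟨x, Subgroup.mem_zpowers x⟩ = -1 := (hχ _).mpr rfl
  simp only [hχx, one_mul, hψ1, hψn, mul_one] at hmx
  have h3 : x * m * x⁻¹ * m⁻¹ = s := by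
    have h4 : x * m * x⁻¹ * m⁻¹ = x * (m * x * m⁻¹)⁻¹ := by group
    rw [h4, hmx, ← hxs, mul_inv_rev, ← mul_assoc, mul_inv_cancel, one_mul]
    exact inv_eq_of_mul_eq_one_left hs2
  rw [← h3]
  exact hcomm x m hx1

include hcomm htrans in
theorem Rich.rel_invol [DenselyOrdered V] [NoMaxOrder V] (hG : Rich 2 v) (x z : G)
    (hz2 : z * z = 1) (hz1 : z ≠ 1) (hv : v z < v x) : R x z := by
  have hfin : Finite (Subgroup.closure {x, z}) := hG.lf {x, z} (by simp)
  set K := Subgroup.closure {x, z} with hK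
  have hxK : x ∈ K := Subgroup.subset_closure (by simp)
  have hzK : z ∈ K := Subgroup.subset_closure (by simp)
  have hvK : (v '' (K : Set G)).Finite := (Set.toFinite (K : Set G)).image v
  obtain ⟨t, ⟨h1, h2⟩, h3⟩ := (Set.Ioo_infinite hv).exists_notMem_finite hvK
  obtain ⟨s, hs2, hst, hsc⟩ := hG.adjoin_central K t (lt_of_le_of_lt bot_le h1) (by
    intro k hk hkt
    exact h3 ⟨k, hk, hkt⟩)
  have hs1 : s ≠ 1 := by
    rintro rfl
    rw [hG.val.one] at hst
    rw [← hst] at h1
    exact not_lt_bot h1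
  apply htrans x s z
  · apply hG.rel_central R hcomm x s hs2 hs1 (hsc x hxK) (by rw [hst]; exact h2)
    intro a ha hav
    rw [hst] at hav
    exact h3 ⟨a, (Subgroup.zpowers_le.mpr hxK) ha, hav⟩
  · apply hG.rel_central R hcomm s z hz2 hz1 (hsc z hzK).symm (by rw [hst]; exact h1)
    intro a ha hav
    obtain ⟨n, rfl⟩ := Subgroup.mem_zpowers_iff.mp ha
    rcases Int.even_or_odd n with ⟨k, hk⟩ | ⟨k, hk⟩
    · have : s ^ n = 1 := by
        rw [hk, zpow_add, ← (Commute.refl s).mul_zpow, hs2, one_zpow]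
      rw [this, hG.val.one] at hav
      exact hz1 (hG.val.eq_one z hav.symm)
    · have : s ^ n = s := by
        rw [hk, zpow_add_one, two_mul, zpow_add, ← (Commute.refl s).mul_zpow, hs2, one_zpow,
          one_mul]
      rw [this, hst] at hav
      exact h1.ne' hav

include hcomm hmul htrans in
/-- elements of larger value dominate elements of smaller value -/
theorem Rich.rel [DenselyOrdered V] [NoMaxOrder V] (hG : Rich 2 v) (x y : G)
    (hv : v y < v x) : R x y := by
  have hx1 : x ≠ 1 := by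
    rintro rfl
    rw [hG.val.one] at hv
    exact not_lt_bot hv
  obtain ⟨t, h1, h2⟩ := exists_between hv
  have hfin := hG.finite_zpowers y
  have hA : IsPVal 2 (fun k : Subgroup.zpowers y => v k) :=
    hG.val.comp (Subgroup.zpowers y).subtype Subtype.val_injective
  have hcy : ∀ a b : Subgroup.zpowers y, a * b = b * a := by
    rintro ⟨a, ha⟩ ⟨b, hb⟩
    obtain ⟨n, rfl⟩ := Subgroup.mem_zpowers_iff.mp ha
    obtain ⟨k, rfl⟩ := Subgroup.mem_zpowers_iff.mp hb
    apply Subtype.ext
    change y ^ n * y ^ k = y ^ k * y ^ n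
    rw [← zpow_add, ← zpow_add, add_comm]
  let τ : MulAut (Subgroup.zpowers y) :=
    { toFun := fun a => a⁻¹
      invFun := fun a => a⁻¹
      left_inv := fun a => inv_inv a
      right_inv := fun a => inv_inv a
      map_mul' := by
        intro a b
        change (a * b)⁻¹ = a⁻¹ * b⁻¹
        rw [mul_inv_rev, hcy] }
  have hτa : ∀ a, τ a = a⁻¹ := fun _ => rfl
  obtain ⟨m, hm2, hmt, hm⟩ := hG.adjoin_top _ _ hA (Subgroup.zpowers y).subtype (fun _ => rfl) τ (by
    apply MulEquiv.ext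
    intro a
    rw [MulAut.mul_apply, hτa, hτa, inv_inv, MulAut.one_apply]) (by
    intro a ha
    have h3 : τ a * a⁻¹ = (a ^ 2)⁻¹ := by
      rw [hτa, pow_two, mul_inv_rev]
    rw [h3, hA.inv_eq]
    exact hA.pow_lt ha) t (by
    rintro ⟨a, ha⟩
    obtain ⟨n, rfl⟩ := Subgroup.mem_zpowers_iff.mp ha
    exact (hG.val.zpow_le y n).trans_lt h1)
  have hmy : m * y * m⁻¹ = y⁻¹ := hm ⟨y, Subgroup.mem_zpowers y⟩
  have hminv : m⁻¹ = m := inv_eq_of_mul_eq_one_left hm2
  have ht0 : ⊥ < t := lt_of_le_of_lt bot_le h1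
  have hne : ∀ g : G, v g = t → g ≠ 1 := by
    rintro g hg rfl
    rw [hG.val.one] at hg
    exact ht0.ne hg
  have hym : v (y * m) = t := by rw [hG.val.mul_eq_right (by rw [hmt]; exact h1), hmt]
  have hym2 : (y * m) * (y * m) = 1 := by
    have h4 : (y * m) * (y * m) = y * (m * y * m⁻¹) * (m * m) := by group
    rw [h4, hmy, mul_inv_cancel, hm2, one_mul]
  have h5 : y = (y * m) * m := by rw [mul_assoc, hm2, mul_one]
  rw [h5]
  apply hmul
  · exact hG.rel_invol R hcomm htrans x _ hym2 (hne _ hym) (by rw [hym]; exact h2)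
  · exact hG.rel_invol R hcomm htrans x _ hm2 (hne _ hmt) (by rw [hmt]; exact h2)

end gadget

section consequences

variable {G V : Type} [Group G] [LinearOrder V] [OrderBot V] [DenselyOrdered V] [NoMaxOrder V]
  {v : G → V}

/-- normal closures in rich groups are the sublevel sets -/
theorem Rich.mem_normalClosure_iff (hG : Rich 2 v) (x y : G) :
    y ∈ Subgroup.normalClosure {x} ↔ v y ≤ v x := by
  constructor
  · intro hy
    let N : Subgroup G :=
      { carrier := {z | v z ≤ v x}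
        one_mem' := by
          change v 1 ≤ v x
          rw [hG.val.one]; exact bot_le
        mul_mem' := fun ha hb => hG.val.mul_le_of ha hb
        inv_mem' := fun {a} ha => by
          change v a⁻¹ ≤ v x
          rw [hG.val.inv_eq]; exact ha }
    have hN : N.Normal := ⟨fun n hn g => by
      change v (g * n * g⁻¹) ≤ v x
      rw [hG.val.conj_eq]; exact hn⟩
    have hle : Subgroup.normalClosure {x} ≤ N :=
      Subgroup.normalClosure_le_normal (by
        rw [Set.singleton_subset_iff]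
        exact le_refl (v x))
    exact hle hy
  · intro hy
    have hrel := hG.rel (fun x y => y ∈ Subgroup.normalClosure {x}) (by
      intro x c _
      have hx : x ∈ Subgroup.normalClosure {x} := Subgroup.subset_normalClosure rfl
      have h1 : c * x⁻¹ * c⁻¹ ∈ Subgroup.normalClosure {x} :=
        Subgroup.normalClosure_normal.conj_mem _ (inv_mem hx) c
      have h2 : x * c * x⁻¹ * c⁻¹ = x * (c * x⁻¹ * c⁻¹) := by group
      rw [h2]
      exact mul_mem hx h1) (fun x y z hy hz => mul_mem hy hz) (by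
      intro x y z hy hz
      have hle : Subgroup.normalClosure {y} ≤ Subgroup.normalClosure {x} :=
        Subgroup.normalClosure_le_normal (Set.singleton_subset_iff.mpr hy)
      exact hle hz)
    rcases hy.lt_or_eq with h | h
    · exact hrel x y h
    · rcases eq_or_ne x 1 with rfl | hx1
      · rw [hG.val.one] at h
        rw [hG.val.eq_one y h]
        exact one_mem _
      · obtain ⟨i, hi⟩ := hG.val.layer_lt hx1 h.symm
        have h1 := hrel x _ hi
        have hx : x ∈ Subgroup.normalClosure {x} := Subgroup.subset_normalClosure rfl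
        have h2 : y = (x ^ i * y⁻¹)⁻¹ * x ^ i := by group
        rw [h2]
        exact mul_mem (inv_mem h1) (pow_mem hx i)

/-- domination of `y` by `x` in all valuations of large finite subgroups -/
def Dom (V : Type) [LinearOrder V] [OrderBot V] {G : Type} [Group G] (x y : G) : Prop :=
  ∃ F : Set G, F.Finite ∧ ∀ K : Subgroup G, F ⊆ K → ∃ (hx : x ∈ K) (hy : y ∈ K),
    ∀ u : K → V, IsPVal 2 u → u ⟨y, hy⟩ < u ⟨x, hx⟩

theorem Rich.dom (hG : Rich 2 v) (x y : G) (hv : v y < v x) : Dom V x y := by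
  apply hG.rel (Dom V) _ _ _ x y hv
  · intro x c hx
    refine ⟨{x, c}, by simp, fun K hK => ?_⟩
    have hxK : x ∈ K := hK (by simp)
    have hcK : c ∈ K := hK (by simp)
    refine ⟨hxK, mul_mem (mul_mem (mul_mem hxK hcK) (inv_mem hxK)) (inv_mem hcK), ?_⟩
    intro u hu
    have hx1 : (⟨x, hxK⟩ : K) ≠ 1 := fun h => hx (congrArg Subtype.val h)
    exact hu.comm_lt hx1 ⟨c, hcK⟩
  · rintro x y z ⟨F, hF, h⟩ ⟨F', hF', h'⟩
    refine ⟨F ∪ F', hF.union hF', fun K hK => ?_⟩
    obtain ⟨hx, hy, h1⟩ := h K (Set.subset_union_left.trans hK)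
    obtain ⟨_, hz, h2⟩ := h' K (Set.subset_union_right.trans hK)
    exact ⟨hx, mul_mem hy hz, fun u hu => hu.mul_lt_of (h1 u hu) (h2 u hu)⟩
  · rintro x y z ⟨F, hF, h⟩ ⟨F', hF', h'⟩
    refine ⟨F ∪ F', hF.union hF', fun K hK => ?_⟩
    obtain ⟨hx, hy, h1⟩ := h K (Set.subset_union_left.trans hK)
    obtain ⟨_, hz, h2⟩ := h' K (Set.subset_union_right.trans hK)
    exact ⟨hx, hz, fun u hu => (h2 u hu).trans (h1 u hu)⟩

/-- valuations of a suitable finite overgroup induce the given preorder on a finite subgroup -/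
theorem Rich.rigid (hG : Rich 2 v) (K₀ : Subgroup G) [Finite K₀] :
    ∃ K₁ : Subgroup G, Finite K₁ ∧ ∃ h : K₀ ≤ K₁, ∀ u : K₁ → V, IsPVal 2 u →
      ∀ x y : K₀, (u (Subgroup.inclusion h x) ≤ u (Subgroup.inclusion h y) ↔ v x ≤ v y) := by
  classical
  have hd : ∀ q : K₀ × K₀, ∃ F : Set G, F.Finite ∧ (v q.2 < v q.1 → ∀ K : Subgroup G, F ⊆ K →
      ∃ (hx : (q.1 : G) ∈ K) (hy : (q.2 : G) ∈ K),
        ∀ u : K → V, IsPVal 2 u → u ⟨q.2, hy⟩ < u ⟨q.1, hx⟩) := by
    intro q
    by_cases hq : v q.2 < v q.1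
    · obtain ⟨F, hF, h⟩ := hG.dom _ _ hq
      exact ⟨F, hF, fun _ => h⟩
    · exact ⟨∅, Set.finite_empty, fun h => absurd h hq⟩
  choose F hF hFd using hd
  have hfin : ((K₀ : Set G) ∪ ⋃ q, F q).Finite :=
    (Set.toFinite _).union (Set.finite_iUnion hF)
  have hK₁ := hG.lf _ hfin
  set K₁ := Subgroup.closure ((K₀ : Set G) ∪ ⋃ q, F q) with hK₁def
  have hsub : ((K₀ : Set G) ∪ ⋃ q, F q) ⊆ K₁ := Subgroup.subset_closure
  have hle : K₀ ≤ K₁ := fun x hx => hsub (Or.inl hx)
  refine ⟨K₁, hK₁, hle, ?_⟩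
  intro u hu
  have hlt : ∀ x y : K₀, v y < v x →
      u (Subgroup.inclusion hle y) < u (Subgroup.inclusion hle x) := by
    intro x y hxy
    obtain ⟨hx, hy, h⟩ := hFd (x, y) hxy K₁ (fun z hz => hsub (Or.inr (Set.mem_iUnion.mpr ⟨_, hz⟩)))
    exact h u hu
  have hle' : ∀ x y : K₀, v y ≤ v x →
      u (Subgroup.inclusion hle y) ≤ u (Subgroup.inclusion hle x) := by
    intro x y hxy
    rcases hxy.lt_or_eq with h | h
    · exact (hlt x y h).le
    · rcases eq_or_ne (x : G) 1 with hx1 | hx1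
      · have hx2 : x = 1 := Subtype.ext hx1
        rw [hx1, hG.val.one] at h
        have hy2 : y = 1 := Subtype.ext (hG.val.eq_one _ h)
        rw [hx2, hy2]
      · obtain ⟨i, hi⟩ := hG.val.layer_lt hx1 h.symm
        have h1 := hlt x (x ^ i * y⁻¹) hi
        have h2 : y = (x ^ i * y⁻¹)⁻¹ * x ^ i := by group
        rw [h2, map_mul, map_inv, map_pow]
        apply hu.mul_le_of
        · rw [hu.inv_eq]; exact h1.le
        · exact hu.pow_le _ _
  intro x y
  constructor
  · intro h
    by_contra h'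
    exact absurd h (not_le.mpr (hlt x y (not_le.mp h')))
  · exact hle' y x

end consequences

end Pool.Agent.Helper944
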