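import Pool.Agent.Helper944.Rich

set_option autoImplicit false

namespace Pool.Agent.Helper944

namespace PStr

variable {p : ℕ} {I V : Type} [LinearOrder V] [OrderBot V]

theorem Solves.mono_left {A A' T : PStr p I V} {Λ Λ' : Set V} (h : A'.Solves T Λ')
    (hA : A.le A') (hΛ : Λ ⊆ Λ') : A.Solves T Λ := by
  intro A₁ B _ _ _ _ vA vB hvA hvB ι hι y₀ hy₀ hlab
  exact h A₁ B vA vB hvA hvB ι hι y₀ (hy₀.mono hA)
    (fun b => Set.insert_subset_insert hΛ (hlab b))

theorem Solves.mono_right {A T T' : PStr p I V} {Λ : Set V} (h : A.Solves T Λ)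
    (hAT : A.le T) (hT : T.le T') : A.Solves T' Λ := by
  intro A₁ B _ _ _ _ vA vB hvA hvB ι hι y₀ hy₀ hlab
  obtain ⟨y, hy, hyι⟩ := h A₁ B vA vB hvA hvB ι hι y₀ hy₀ hlab
  refine ⟨y, hy.mono hT, fun a => ?_⟩
  rw [hT.2 _ (mul_mem (hy.mem _) (inv_mem (Fs_mono hAT.1 (hy₀.mem a))))]
  exact hyι a

end PStr

/-- elements of the transfinite construction -/
abbrev Pnt (p : ℕ) (V Ω : Type) [LinearOrder V] [OrderBot V] : Type :=
  {T : PStr p ℝ V // T.S.Countable} × Ω

/-- one element of the construction is far below another -/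
def Far {p : ℕ} {V Ω : Type} [LinearOrder V] [OrderBot V] [LinearOrder Ω] (Λ : Ω → Set V)
    (a b : Pnt p V Ω) : Prop :=
  a.1.1.le b.1.1 ∧ a.2 < b.2 ∧ a.1.1.Solves b.1.1 (Λ a.2)

section

variable {p : ℕ} [hp : Fact p.Prime] {V Ω : Type} [LinearOrder V] [OrderBot V]
  [DenselyOrdered V] [NoMaxOrder V] [LinearOrder Ω]

omit hp [DenselyOrdered V] [NoMaxOrder V] in
theorem Far.trans {Λ : Ω → Set V} {a b c : Pnt p V Ω} (h1 : Far Λ a b) (h2 : Far Λ b c) :
    Far Λ a c :=
  ⟨PStr.le_trans h1.1 h2.1, h1.2.1.trans h2.2.1, h1.2.2.mono_right h1.1 h2.1⟩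

omit hp [DenselyOrdered V] [NoMaxOrder V] in
theorem exists_above (hΩ : ¬ Countable Ω) (hIic : ∀ α : Ω, (Set.Iic α).Countable) (D : Set Ω)
    (hD : D.Countable) : ∃ β, ∀ α ∈ D, α < β := by
  by_contra hno
  push Not at hno
  apply hΩ
  rw [← Set.countable_univ_iff]
  apply (hD.biUnion (fun α _ => hIic α)).mono
  intro β _
  obtain ⟨α, hα, h⟩ := hno β
  exact Set.mem_biUnion hα h

/-- countable chains have upper bounds -/
theorem exists_ub (hΩ : ¬ Countable Ω) (hIic : ∀ α : Ω, (Set.Iic α).Countable)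
    (Λ : Ω → Set V) (hΛm : Monotone Λ) (hΛc : ∀ α, (Λ α).Countable)
    (D : Set (Pnt p V Ω)) (hD : D.Countable) (hch : IsChain (Far Λ) D) :
    ∃ z, ∀ d ∈ D, Far Λ d z := by
  rcases D.eq_empty_or_nonempty with rfl | hne
  · obtain ⟨A₀, hA₀⟩ := PStr.exists_empty (p := p) (I := ℝ) (V := V)
    obtain ⟨α, _⟩ := exists_above hΩ hIic ∅ Set.countable_empty
    exact ⟨(⟨A₀, by rw [hA₀]; exact Set.countable_empty⟩, α), by simp⟩
  · have hne' : Nonempty D := hne.to_subtype
    have hDc : Countable D := hD.to_subtype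
    have hdir : ∀ i j : D, ∃ k : D, i.1.1.1.le k.1.1.1 ∧ j.1.1.1.le k.1.1.1 := by
      intro i j
      rcases eq_or_ne i j with rfl | hij
      · exact ⟨i, PStr.le_refl _, PStr.le_refl _⟩
      · rcases hch i.2 j.2 (fun h => hij (Subtype.ext h)) with h | h
        · exact ⟨j, h.1, PStr.le_refl _⟩
        · exact ⟨i, PStr.le_refl _, h.1⟩
    obtain ⟨U, hUS, hU⟩ := PStr.exists_union (fun i : D => i.1.1.1) hdir
    have hUc : U.S.Countable := by
      rw [hUS]
      exact Set.countable_iUnion (fun i => i.1.1.2)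
    obtain ⟨α, hα⟩ := exists_above hΩ hIic (Prod.snd '' D) (hD.image _)
    obtain ⟨T, hTc, hUT, hsol⟩ := PStr.exists_solves real_compl_infinite U hUc (Λ α) (hΛc α)
    refine ⟨(⟨T, hTc⟩, α), ?_⟩
    intro d hd
    have h1 : d.2 < α := hα _ ⟨d, hd, rfl⟩
    exact ⟨PStr.le_trans (hU ⟨d, hd⟩) hUT, h1, hsol.mono_left (hU ⟨d, hd⟩) (hΛm h1.le)⟩

/-- rich groups with an uncountable set of labels -/
theorem exists_rich_omega (hΩ : ¬ Countable Ω) (hIic : ∀ α : Ω, (Set.Iic α).Countable)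
    (Λ : Ω → Set V) (hΛm : Monotone Λ) (hΛc : ∀ α, (Λ α).Countable)
    (hΛu : ∀ l, ∃ α, l ∈ Λ α) :
    ∃ (G : Type) (_ : Group G) (v : G → V), Rich p v := by
  classical
  obtain ⟨C, hC⟩ : ∃ C : Set (Pnt p V Ω), IsMaxChain (Far Λ) C := ⟨_, maxChain_spec⟩
  have key : ∀ D ⊆ C, D.Countable → ∃ c ∈ C, ∀ d ∈ D, Far Λ d c := by
    intro D hDC hD
    by_contra hno
    push Not at hno
    obtain ⟨z, hz⟩ := exists_ub hΩ hIic Λ hΛm hΛc D hD (hC.1.mono hDC)
    have hcz : ∀ c ∈ C, Far Λ c z := by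
      intro c hc
      obtain ⟨d, hd, hdc⟩ := hno c hc
      rcases eq_or_ne c d with rfl | hne
      · exact hz _ hd
      · rcases hC.1 hc (hDC hd) hne with h | h
        · exact h.trans (hz d hd)
        · exact absurd h hdc
    have hins : IsChain (Far Λ) (insert z C) :=
      hC.1.insert (fun b hb _ => Or.inr (hcz b hb))
    have hzC : z ∈ C := by
      rw [hC.2 hins (Set.subset_insert z C)]
      exact Set.mem_insert z C
    obtain ⟨d, hd, hdz⟩ := hno z hzC
    exact hdz (hz d hd)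
  have hunb : ∀ β, ∃ c ∈ C, β < c.2 := by
    intro β
    by_contra hno
    push Not at hno
    have hinj : Set.InjOn (fun c : Pnt p V Ω => c.2) C := by
      intro a ha b hb hab
      by_contra hne
      have hab' : a.2 = b.2 := hab
      rcases hC.1 ha hb hne with h | h
      · exact absurd hab' h.2.1.ne
      · exact absurd hab' h.2.1.ne'
    have hCc : C.Countable := by
      apply Set.countable_of_injective_of_countable_image hinj
      apply (hIic β).mono
      rintro _ ⟨c, hc, rfl⟩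
      exact hno c hc
    obtain ⟨c, hc, h⟩ := key C subset_rfl hCc
    exact lt_irrefl _ (h c hc).2.1
  have hdir : ∀ i j : C, ∃ k : C, i.1.1.1.le k.1.1.1 ∧ j.1.1.1.le k.1.1.1 := by
    intro i j
    rcases eq_or_ne i j with rfl | hij
    · exact ⟨i, PStr.le_refl _, PStr.le_refl _⟩
    · rcases hC.1 i.2 j.2 (fun h => hij (Subtype.ext h)) with h | h
      · exact ⟨j, h.1, PStr.le_refl _⟩
      · exact ⟨i, PStr.le_refl _, h.1⟩
  have hne : Nonempty C := by
    obtain ⟨β, _⟩ := exists_above hΩ hIic ∅ Set.countable_empty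
    obtain ⟨c, hc, _⟩ := hunb β
    exact ⟨⟨c, hc⟩⟩
  obtain ⟨U, hUS, hU⟩ := PStr.exists_union (fun i : C => i.1.1.1) hdir
  refine ⟨U.G, inferInstance, U.pre.quot, ?_⟩
  apply PStr.rich_of_directed (fun i : C => i.1.1.1) hdir U hUS hU
  intro i F
  have hF : ∃ β, (F : Set V) ⊆ Λ β := by
    induction F using Finset.induction_on with
    | empty => exact ⟨i.1.2, by simp⟩
    | insert a s _ ih =>
      obtain ⟨β, hβ⟩ := ih
      obtain ⟨α, hα⟩ := hΛu a
      refine ⟨max α β, ?_⟩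
      rw [Finset.coe_insert]
      apply Set.insert_subset
      · exact hΛm (le_max_left _ _) hα
      · exact hβ.trans (hΛm (le_max_right _ _))
  obtain ⟨β, hβ⟩ := hF
  obtain ⟨c, hc, hcβ⟩ := hunb (max β i.1.2)
  have hic : Far Λ i.1 c := by
    have hlt : i.1.2 < c.2 := (le_max_right _ _).trans_lt hcβ
    rcases hC.1 i.2 hc (fun h => by rw [h] at hlt; exact lt_irrefl _ hlt) with h | h
    · exact h
    · exact absurd h.2.1 hlt.not_gt
  obtain ⟨k, hk, hck⟩ := key {c} (Set.singleton_subset_iff.mpr hc) (Set.countable_singleton c)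
  have hck' := hck c rfl
  exact ⟨⟨k, hk⟩, Λ c.2, hβ.trans (hΛm ((le_max_left _ _).trans hcβ.le)),
    PStr.le_trans hic.1 hck'.1, hck'.2.2.mono_left hic.1 subset_rfl⟩

end

section instantiate

/-- the first uncountable well order -/
abbrev Om : Type := (Cardinal.aleph 1).ord.ToType

theorem Om_not_countable : ¬ Countable Om := by
  intro h
  have h1 : Cardinal.mk Om ≤ Cardinal.aleph0 := Cardinal.mk_le_aleph0_iff.mpr h
  rw [Cardinal.mk_toType, Cardinal.card_ord] at h1
  exact absurd h1 (not_le.mpr Cardinal.aleph0_lt_aleph_one)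

theorem Om_Iic (α : Om) : (Set.Iic α).Countable := by
  have h1 : Cardinal.mk (Set.Iio α) < Cardinal.aleph 1 := Cardinal.mk_Iio_toType_ord_lt α
  have h2 : (Set.Iio α).Countable := by
    rw [← Cardinal.le_aleph0_iff_set_countable]
    exact Order.lt_succ_iff.mp (h1.trans_eq Cardinal.succ_aleph0.symm)
  have h3 : Set.Iic α = insert α (Set.Iio α) := by
    ext x
    simp [le_iff_eq_or_lt]
  rw [h3]
  exact h2.insert α

/-- the label order -/
abbrev Lab : Type := WithBot (WithTop Om ×ₗ ℚ)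

/-- the countable pieces of the label order -/
def LabΛ (α : Om) : Set Lab :=
  insert ⊥ ((fun t : WithTop Om × ℚ => ((toLex t : WithTop Om ×ₗ ℚ) : Lab)) ''
    ((insert ⊤ ((fun β : Om => (β : WithTop Om)) '' Set.Iic α)) ×ˢ Set.univ))

theorem LabΛ_countable (α : Om) : (LabΛ α).Countable := by
  apply Set.Countable.insert
  apply Set.Countable.image
  apply Set.Countable.prod
  · exact ((Om_Iic α).image _).insert _
  · exact Set.countable_univ

theorem LabΛ_mono : Monotone LabΛ := by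
  intro α β h
  apply Set.insert_subset_insert
  apply Set.image_mono
  apply Set.prod_mono _ subset_rfl
  apply Set.insert_subset_insert
  apply Set.image_mono
  exact Set.Iic_subset_Iic.mpr h

theorem LabΛ_cover (l : Lab) : ∃ α, l ∈ LabΛ α := by
  obtain ⟨α₀, _⟩ := exists_above Om_not_countable Om_Iic ∅ Set.countable_empty
  induction l using WithBot.recBotCoe with
  | bot => exact ⟨α₀, Set.mem_insert _ _⟩
  | coe t =>
    obtain ⟨a, q⟩ := t
    induction a using WithTop.recTopCoe with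
    | top => exact ⟨α₀, Or.inr ⟨(⊤, q), ⟨Set.mem_insert _ _, Set.mem_univ _⟩, rfl⟩⟩
    | coe a => exact ⟨a, Or.inr ⟨((a : WithTop Om), q),
        ⟨Or.inr ⟨a, Set.mem_Iic.mpr le_rfl, rfl⟩, Set.mem_univ _⟩, rfl⟩⟩

theorem Lab_Iic_small (a : Om) (q : ℚ) :
    (Set.Iic ((toLex ((a : WithTop Om), q) : WithTop Om ×ₗ ℚ) : Lab)).Countable := by
  apply (LabΛ_countable a).mono
  intro l hl
  induction l using WithBot.recBotCoe with
  | bot => exact Set.mem_insert _ _
  | coe t =>
    obtain ⟨b, r⟩ := t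
    have h1 : (toLex (b, r) : WithTop Om ×ₗ ℚ) ≤ toLex ((a : WithTop Om), q) :=
      WithBot.coe_le_coe.mp hl
    rw [Prod.Lex.toLex_le_toLex] at h1
    have h2 : b ≤ (a : WithTop Om) := by
      rcases h1 with h | h
      · exact h.le
      · exact h.1.le
    induction b using WithTop.recTopCoe with
    | top => exact absurd h2 (by simp)
    | coe b =>
      exact Or.inr ⟨((b : WithTop Om), r), ⟨Or.inr ⟨b, WithTop.coe_le_coe.mp h2, rfl⟩,
        Set.mem_univ _⟩, rfl⟩

theorem Lab_Iic_big (q : ℚ) :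
    ¬ (Set.Iic ((toLex ((⊤ : WithTop Om), q) : WithTop Om ×ₗ ℚ) : Lab)).Countable := by
  intro h
  apply Om_not_countable
  have hc := h.to_subtype
  let F : Om → Set.Iic ((toLex ((⊤ : WithTop Om), q) : WithTop Om ×ₗ ℚ) : Lab) := fun a =>
    ⟨((toLex ((a : WithTop Om), (0 : ℚ)) : WithTop Om ×ₗ ℚ) : Lab), by
      rw [Set.mem_Iic, WithBot.coe_le_coe, Prod.Lex.toLex_le_toLex]
      exact Or.inl (WithTop.coe_lt_top a)⟩
  have hF : Function.Injective F := by
    intro a b hab
    have h1 := congrArg Subtype.val hab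
    have h2 : (toLex ((a : WithTop Om), (0 : ℚ)) : WithTop Om ×ₗ ℚ) =
      toLex ((b : WithTop Om), (0 : ℚ)) := WithBot.coe_injective h1
    have h3 : ((a : WithTop Om), (0 : ℚ)) = ((b : WithTop Om), (0 : ℚ)) := toLex.injective h2
    exact WithTop.coe_injective (congrArg Prod.fst h3)
  exact hF.countable

end instantiate

end Pool.Agent.Helper944
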