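import Mathlib

set_option autoImplicit false

namespace Pool.Agent.Helper944

/-- A `p`-pre-valuation on a group: a map to a linear order with least element whose sublevel sets
form a central series with all factors cyclic of order dividing `p`. -/
structure IsPre (p : ℕ) {G V : Type*} [Group G] [LinearOrder V] [OrderBot V] (v : G → V) :
    Prop where
  one : v 1 = ⊥
  mul : ∀ x y, v (x * y) ≤ max (v x) (v y)
  inv : ∀ x, v x⁻¹ ≤ v x
  comm : ∀ x y, v (x * y * x⁻¹ * y⁻¹) < v x ∨ v (x * y * x⁻¹ * y⁻¹) = ⊥
  layer : ∀ x y, v x = v y → ∃ i : ℕ, v (x ^ i * y⁻¹) < v x ∨ v (x ^ i * y⁻¹) = ⊥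
  pow : ∀ x, v (x ^ p) < v x ∨ v (x ^ p) = ⊥

/-- A `p`-valuation: a `p`-pre-valuation with trivial kernel. -/
structure IsPVal (p : ℕ) {G V : Type*} [Group G] [LinearOrder V] [OrderBot V] (v : G → V) :
    Prop extends IsPre p v where
  eq_one : ∀ x, v x = ⊥ → x = 1

section basic

variable {p : ℕ} {G V : Type*} [Group G] [LinearOrder V] [OrderBot V] {v : G → V}

theorem IsPre.inv_eq (h : IsPre p v) (x : G) : v x⁻¹ = v x :=
  le_antisymm (h.inv x) (by simpa using h.inv x⁻¹)

theorem IsPre.mul_le_of (h : IsPre p v) {x y : G} {a : V} (hx : v x ≤ a) (hy : v y ≤ a) :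
    v (x * y) ≤ a := (h.mul x y).trans (max_le hx hy)

theorem IsPre.mul_lt_of (h : IsPre p v) {x y : G} {a : V} (hx : v x < a) (hy : v y < a) :
    v (x * y) < a := (h.mul x y).trans_lt (max_lt hx hy)

theorem IsPre.mul_eq_right (h : IsPre p v) {x y : G} (hxy : v x < v y) : v (x * y) = v y := by
  apply le_antisymm
  · exact (h.mul x y).trans (max_le hxy.le le_rfl)
  · have h1 : v (x⁻¹ * (x * y)) ≤ max (v x⁻¹) (v (x * y)) := h.mul _ _
    rw [inv_mul_cancel_left, h.inv_eq] at h1
    rcases le_max_iff.mp h1 with h2 | h2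
    · exact absurd h2 (not_le.mpr hxy)
    · exact h2

theorem IsPre.mul_eq_left (h : IsPre p v) {x y : G} (hxy : v y < v x) : v (x * y) = v x := by
  apply le_antisymm
  · exact (h.mul x y).trans (max_le le_rfl hxy.le)
  · have h1 : v ((x * y) * y⁻¹) ≤ max (v (x * y)) (v y⁻¹) := h.mul _ _
    rw [mul_inv_cancel_right, h.inv_eq] at h1
    rcases le_max_iff.mp h1 with h2 | h2
    · exact h2
    · exact absurd h2 (not_le.mpr hxy)

theorem IsPre.mul_bot_right (h : IsPre p v) {x y : G} (hy : v y = ⊥) : v (x * y) = v x := by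
  rcases eq_or_ne (v x) ⊥ with hx | hx
  · rw [hx]
    have := h.mul x y
    rw [hx, hy, max_self] at this
    exact le_bot_iff.mp this
  · exact h.mul_eq_left (by rw [hy]; exact bot_lt_iff_ne_bot.mpr hx)

theorem IsPre.mul_bot_left (h : IsPre p v) {x y : G} (hx : v x = ⊥) : v (x * y) = v y := by
  rcases eq_or_ne (v y) ⊥ with hy | hy
  · rw [hy]
    have := h.mul x y
    rw [hx, hy, max_self] at this
    exact le_bot_iff.mp this
  · exact h.mul_eq_right (by rw [hx]; exact bot_lt_iff_ne_bot.mpr hy)

theorem IsPre.conj_eq (h : IsPre p v) (x y : G) : v (y * x * y⁻¹) = v x := by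
  have h1 : y * x * y⁻¹ = (x * y * x⁻¹ * y⁻¹)⁻¹ * x := by group
  rw [h1]
  rcases h.comm x y with h2 | h2
  · exact h.mul_eq_right (by rw [h.inv_eq]; exact h2)
  · exact h.mul_bot_left (by rw [h.inv_eq]; exact h2)

theorem IsPre.pow_le (h : IsPre p v) (x : G) (n : ℕ) : v (x ^ n) ≤ v x := by
  induction n with
  | zero => simp [h.one]
  | succ n ih => rw [pow_succ]; exact h.mul_le_of ih le_rfl

theorem IsPre.comm_le (h : IsPre p v) (x y : G) : v (x * y * x⁻¹ * y⁻¹) ≤ v x := by
  rcases h.comm x y with h2 | h2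
  · exact h2.le
  · rw [h2]; exact bot_le

theorem IsPVal.bot_iff (h : IsPVal p v) {x : G} : v x = ⊥ ↔ x = 1 :=
  ⟨h.eq_one x, fun hx => by rw [hx, h.one]⟩

theorem IsPVal.ne_bot (h : IsPVal p v) {x : G} (hx : x ≠ 1) : ⊥ < v x :=
  bot_lt_iff_ne_bot.mpr (fun h1 => hx (h.eq_one x h1))

theorem IsPVal.comm_lt (h : IsPVal p v) {x : G} (hx : x ≠ 1) (y : G) :
    v (x * y * x⁻¹ * y⁻¹) < v x := by
  rcases h.comm x y with h2 | h2
  · exact h2
  · rw [h2]; exact h.ne_bot hx

theorem IsPVal.pow_lt (h : IsPVal p v) {x : G} (hx : x ≠ 1) : v (x ^ p) < v x := by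
  rcases h.pow x with h2 | h2
  · exact h2
  · rw [h2]; exact h.ne_bot hx

theorem IsPVal.layer_lt (h : IsPVal p v) {x y : G} (hx : x ≠ 1) (hxy : v x = v y) :
    ∃ i : ℕ, v (x ^ i * y⁻¹) < v x := by
  obtain ⟨i, hi⟩ := h.layer x y hxy
  refine ⟨i, ?_⟩
  rcases hi with h2 | h2
  · exact h2
  · rw [h2]; exact h.ne_bot hx

/-- restricting along a homomorphism -/
theorem IsPre.comp {H : Type*} [Group H] (h : IsPre p v) (f : H →* G) :
    IsPre p (fun x => v (f x)) where
  one := by simp [h.one]
  mul x y := by simpa using h.mul (f x) (f y)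
  inv x := by simpa using h.inv (f x)
  comm x y := by simpa using h.comm (f x) (f y)
  layer x y hxy := by simpa using h.layer (f x) (f y) hxy
  pow x := by simpa using h.pow (f x)

theorem IsPVal.comp {H : Type*} [Group H] (h : IsPVal p v) (f : H →* G)
    (hf : Function.Injective f) : IsPVal p (fun x => v (f x)) where
  toIsPre := h.toIsPre.comp f
  eq_one x hx := hf (by rw [h.eq_one _ hx, map_one])

/-- a value preserving homomorphism into a (pre)valued group has trivial kernel -/
theorem IsPVal.injective_of_preserves {H : Type*} [Group H] {u : H → V} (hu : IsPVal p u)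
    (hv : IsPre p v) (f : H →* G) (hf : ∀ x, v (f x) = u x) : Function.Injective f := by
  rw [injective_iff_map_eq_one]
  intro a ha
  apply hu.eq_one
  rw [← hf, ha, hv.one]

/-- elements of a finite valued group have `p`-power order -/
theorem IsPVal.isPGroup [Finite G] (h : IsPVal p v) : IsPGroup p G := by
  have hwf : WellFounded (fun x y : G => v x < v y) := by
    have : IsTrans G (fun x y : G => v x < v y) := ⟨fun a b c hab hbc => lt_trans hab hbc⟩
    have : Std.Irrefl (fun x y : G => v x < v y) := ⟨fun a => lt_irrefl _⟩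
    exact Finite.wellFounded_of_trans_of_irrefl _
  intro g
  induction g using hwf.induction with
  | _ x ih =>
    rcases eq_or_ne x 1 with rfl | hx
    · exact ⟨0, by simp⟩
    · obtain ⟨k, hk⟩ := ih (x ^ p) (h.pow_lt hx)
      exact ⟨k + 1, by rw [pow_succ', pow_mul, hk]⟩

end basic

section extend

variable {p : ℕ} {C W V : Type*} [Group C] [Group W] [LinearOrder V]
  [OrderBot V]

open Classical in
/-- extension of a valuation by a bottom layer -/
noncomputable def extVal (π : C →* W) (w : W → V) (t : V) (c : C) : V :=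
  if π c ≠ 1 then w (π c) else if c ≠ 1 then t else ⊥

theorem extVal_of_ne {π : C →* W} {w : W → V} {t : V} {c : C} (h : π c ≠ 1) :
    extVal π w t c = w (π c) := by simp [extVal, h]

theorem extVal_of_eq {π : C →* W} {w : W → V} {t : V} {c : C} (h : π c = 1) (hc : c ≠ 1) :
    extVal π w t c = t := by simp [extVal, h, hc]

theorem extVal_one {π : C →* W} {w : W → V} {t : V} : extVal π w t 1 = ⊥ := by simp [extVal]

theorem extVal_le_of_eq {π : C →* W} {w : W → V} {t : V} {c : C} (h : π c = 1) :
    extVal π w t c ≤ t := by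
  rcases eq_or_ne c 1 with rfl | hc
  · rw [extVal_one]; exact bot_le
  · rw [extVal_of_eq h hc]

/-- the bottom extension lemma -/
theorem isPVal_extVal (π : C →* W) (w : W → V) (hw : IsPVal p w) (t : V) (ht : ⊥ < t)
    (htw : ∀ x, x ≠ 1 → t < w x)
    (hcen : ∀ z c : C, π z = 1 → z * c = c * z)
    (hpow : ∀ z : C, π z = 1 → z ^ p = 1)
    (hcyc : ∀ z z' : C, π z = 1 → π z' = 1 → z ≠ 1 → ∃ i : ℕ, z' = z ^ i) :
    IsPVal p (extVal π w t) := by
  have hlt : ∀ {x y : C}, π x ≠ 1 → w (π y) < w (π x) → extVal π w t y < extVal π w t x := by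
    intro x y hx hxy
    rw [extVal_of_ne hx]
    rcases eq_or_ne (π y) 1 with hy | hy
    · exact (extVal_le_of_eq hy).trans_lt (htw _ hx)
    · rw [extVal_of_ne hy]; exact hxy
  have hle : ∀ {x : C} {a : V}, w (π x) ≤ a → t ≤ a → extVal π w t x ≤ a := by
    intro x a h1 h2
    rcases eq_or_ne (π x) 1 with hx | hx
    · exact (extVal_le_of_eq hx).trans h2
    · rw [extVal_of_ne hx]; exact h1
  refine { one := extVal_one, mul := ?_, inv := ?_, comm := ?_, layer := ?_, pow := ?_,
           eq_one := ?_ }
  · intro x y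
    rcases eq_or_ne (π x) 1 with hx | hx
    · rcases eq_or_ne (π y) 1 with hy | hy
      · -- both in kernel
        rcases eq_or_ne x 1 with rfl | hx1
        · simp
        · apply le_max_of_le_left
          rw [extVal_of_eq hx hx1]
          exact extVal_le_of_eq (by rw [map_mul, hx, hy, one_mul])
      · apply le_max_of_le_right
        have : π (x * y) = π y := by rw [map_mul, hx, one_mul]
        rw [extVal_of_ne hy, extVal_of_ne (by rw [this]; exact hy), this]
    · apply hle
      · rw [map_mul]
        rcases eq_or_ne (π y) 1 with hy | hy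
        · apply le_max_of_le_left
          rw [hy, mul_one, extVal_of_ne hx]
        · rw [extVal_of_ne hx, extVal_of_ne hy]
          exact hw.mul _ _
      · apply le_max_of_le_left
        rw [extVal_of_ne hx]
        exact (htw _ hx).le
  · intro x
    rcases eq_or_ne (π x) 1 with hx | hx
    · rcases eq_or_ne x 1 with rfl | hx1
      · simp
      · rw [extVal_of_eq hx hx1]
        exact extVal_le_of_eq (by rw [map_inv, hx, inv_one])
    · have : π x⁻¹ ≠ 1 := by rw [map_inv]; exact inv_ne_one.mpr hx
      rw [extVal_of_ne hx, extVal_of_ne this, map_inv]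
      exact hw.inv _
  · intro x y
    rcases eq_or_ne (π x) 1 with hx | hx
    · right
      rw [hcen x y hx]
      simp [extVal_one]
    · left
      apply hlt hx
      have := hw.comm_lt hx (π y)
      simpa using this
  · intro x y hxy
    rcases eq_or_ne (π x) 1 with hx | hx
    · rcases eq_or_ne x 1 with rfl | hx1
      · rw [extVal_one] at hxy
        refine ⟨0, Or.inr ?_⟩
        rcases eq_or_ne (π y) 1 with hy | hy
        · rcases eq_or_ne y 1 with rfl | hy1
          · simp [extVal_one]
          · rw [extVal_of_eq hy hy1] at hxy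
            exact absurd hxy ht.ne
        · rw [extVal_of_ne hy] at hxy
          exact absurd hxy (ht.trans (htw _ hy)).ne
      · have hy : π y = 1 := by
          by_contra hy
          rw [extVal_of_eq hx hx1, extVal_of_ne hy] at hxy
          exact absurd hxy (htw _ hy).ne
        obtain ⟨i, hi⟩ := hcyc x y hx hy hx1
        exact ⟨i, Or.inr (by rw [hi, mul_inv_cancel, extVal_one])⟩
    · have hy : π y ≠ 1 := by
        intro hy
        rw [extVal_of_ne hx] at hxy
        have := extVal_le_of_eq (π := π) (w := w) (t := t) hy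
        rw [← hxy] at this
        exact absurd this (not_le.mpr (htw _ hx))
      rw [extVal_of_ne hx, extVal_of_ne hy] at hxy
      obtain ⟨i, hi⟩ := hw.layer_lt hx hxy
      refine ⟨i, Or.inl (hlt hx ?_)⟩
      simpa using hi
  · intro x
    rcases eq_or_ne (π x) 1 with hx | hx
    · right; rw [hpow x hx, extVal_one]
    · left
      apply hlt hx
      simpa using hw.pow_lt hx
  · intro x hx
    by_contra hx1
    rcases eq_or_ne (π x) 1 with h | h
    · rw [extVal_of_eq h hx1] at hx
      exact ht.ne' hx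
    · rw [extVal_of_ne h] at hx
      exact h (hw.eq_one _ hx)

end extend

section refine

/-- a nontrivial normal subgroup of a nilpotent group meets the centre -/
theorem exists_mem_center {H : Type*} [Group H] [Group.IsNilpotent H] (K : Subgroup H) [K.Normal]
    (hK : K ≠ ⊥) : ∃ z ∈ K, z ≠ 1 ∧ z ∈ Subgroup.center H := by
  classical
  obtain ⟨n, hn⟩ := Group.IsNilpotent.nilpotent H
  have hex : ∃ m, ∃ z ∈ K, z ≠ 1 ∧ z ∈ Subgroup.upperCentralSeries H m := by
    obtain ⟨a, ha⟩ := Subgroup.ne_bot_iff_exists_ne_one.mp hK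
    exact ⟨n, a.1, a.2, by simpa using ha, by rw [hn]; trivial⟩
  obtain ⟨z, hzK, hz1, hzm⟩ := Nat.find_spec hex
  set m := Nat.find hex with hm
  refine ⟨z, hzK, hz1, ?_⟩
  rcases Nat.eq_zero_or_pos m with h0 | hpos
  · rw [h0, Subgroup.upperCentralSeries_zero, Subgroup.mem_bot] at hzm
    exact absurd hzm hz1
  · obtain ⟨k, hk⟩ : ∃ k, m = k + 1 := ⟨m - 1, by omega⟩
    rw [hk, Subgroup.mem_upperCentralSeries_succ_iff] at hzm
    rw [Subgroup.mem_center_iff]
    intro y
    have h1 := hzm y
    have h2 : z * y * z⁻¹ * y⁻¹ ∈ K := by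
      have : y * z⁻¹ * y⁻¹ ∈ K := Subgroup.Normal.conj_mem inferInstance _ (K.inv_mem hzK) y
      have h3 := K.mul_mem hzK this
      simpa [mul_assoc] using h3
    by_contra hne
    have h4 : z * y * z⁻¹ * y⁻¹ ≠ 1 := by
      intro h5
      apply hne
      have : z * y = y * z := by
        calc z * y = (z * y * z⁻¹ * y⁻¹) * (y * z) := by group
          _ = y * z := by rw [h5, one_mul]
      exact this.symm
    exact Nat.find_min hex (m := k) (by omega) ⟨_, h2, h4, h1⟩

variable {p : ℕ} [hp : Fact p.Prime]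

theorem prime_cyc {C : Type*} [Group C] {z : C} (hz : orderOf z = p) {x y : C}
    (hx : x ∈ Subgroup.zpowers z) (hy : y ∈ Subgroup.zpowers z) (hx1 : x ≠ 1) :
    ∃ i : ℕ, y = x ^ i := by
  have hpos : 0 < orderOf z := by rw [hz]; exact hp.out.pos
  have hfin : Finite (Subgroup.zpowers z) := by
    have := finite_zpowers.mpr (orderOf_pos_iff.mp hpos)
    exact this
  have hxo : orderOf x = p := by
    have h1 : orderOf x ∣ orderOf z := by
      obtain ⟨k, rfl⟩ := Subgroup.mem_zpowers_iff.mp hx
      apply orderOf_dvd_of_pow_eq_one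
      rw [← zpow_natCast, ← zpow_mul, mul_comm, zpow_mul, zpow_natCast, pow_orderOf_eq_one,
        one_zpow]
    rw [hz] at h1
    rcases (Nat.dvd_prime hp.out).mp h1 with h2 | h2
    · exact absurd (orderOf_eq_one_iff.mp h2) hx1
    · exact h2
  have hle : Subgroup.zpowers x ≤ Subgroup.zpowers z := by
    rw [Subgroup.zpowers_le]; exact hx
  have heq : Subgroup.zpowers x = Subgroup.zpowers z := by
    apply Subgroup.eq_of_le_of_card_ge hle
    rw [Nat.card_zpowers, Nat.card_zpowers, hz, hxo]
  rw [← heq] at hy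
  have hfx : IsOfFinOrder x := orderOf_pos_iff.mp (by rw [hxo]; exact hp.out.pos)
  rw [← hfx.mem_powers_iff_mem_zpowers] at hy
  obtain ⟨i, hi⟩ := hy
  exact ⟨i, hi.symm⟩

omit hp in
theorem prime_pow_one {C : Type*} [Group C] {z : C} (hz : orderOf z = p) {x : C}
    (hx : x ∈ Subgroup.zpowers z) : x ^ p = 1 := by
  obtain ⟨k, rfl⟩ := Subgroup.mem_zpowers_iff.mp hx
  rw [← zpow_natCast, ← zpow_mul, mul_comm, zpow_mul, zpow_natCast, ← hz, pow_orderOf_eq_one,
    one_zpow]

/-- refinement: a valuation on the image extends to the whole finite `p`-group, with prescribed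
interval for the new values -/
theorem exists_refine {V : Type*} [LinearOrder V] [OrderBot V] [DenselyOrdered V]
    {W : Type*} [Group W] (w : W → V) (hw : IsPVal p w) (u : V) (huw : ∀ x, x ≠ 1 → u ≤ w x) :
    ∀ (n : ℕ) (C : Type*) [Group C] [Finite C] (_ : Nat.card C = n) (_ : IsPGroup p C)
      (π : C →* W) (a : V) (_ : a < u),
      ∃ v : C → V, IsPVal p v ∧ (∀ c, π c ≠ 1 → v c = w (π c)) ∧
        (∀ c, π c = 1 → c ≠ 1 → a < v c ∧ v c < u) := by
  intro n
  induction n using Nat.strong_induction_on with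
  | _ n ih =>
    intro C _ _ hn hC π a hau
    by_cases hker : π.ker = ⊥
    · have hinj : Function.Injective π := (MonoidHom.ker_eq_bot_iff π).mp hker
      refine ⟨fun c => w (π c), hw.comp π hinj, fun c _ => rfl, ?_⟩
      intro c hc hc1
      exact absurd (hinj (by rw [hc, map_one])) hc1
    · have hnil : Group.IsNilpotent C := IsPGroup.isNilpotent hC
      obtain ⟨z₀, hz₀K, hz₀1, hz₀c⟩ := exists_mem_center π.ker hker
      have hZ' : (π.ker ⊓ Subgroup.center C) ≠ ⊥ := by
        intro hb
        have : z₀ ∈ (π.ker ⊓ Subgroup.center C) := ⟨hz₀K, hz₀c⟩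
        rw [hb, Subgroup.mem_bot] at this
        exact hz₀1 this
      have hdvd : p ∣ Nat.card (π.ker ⊓ Subgroup.center C : Subgroup C) := by
        obtain ⟨k, hk⟩ := (IsPGroup.iff_card.mp (hC.to_subgroup (π.ker ⊓ Subgroup.center C)))
        rw [hk]
        apply dvd_pow_self
        rintro rfl
        rw [pow_zero] at hk
        exact hZ' (Subgroup.card_eq_one.mp hk)
      obtain ⟨z', hz'⟩ := exists_prime_orderOf_dvd_card' p hdvd
      set z : C := z'.1 with hzdef
      have hz : orderOf z = p := by rw [hzdef, ← hz']; exact Subgroup.orderOf_coe z'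
      have hzK : π z = 1 := z'.2.1
      have hzc : z ∈ Subgroup.center C := z'.2.2
      have hZK : ∀ x ∈ Subgroup.zpowers z, π x = 1 := by
        intro x hx
        obtain ⟨k, rfl⟩ := Subgroup.mem_zpowers_iff.mp hx
        rw [map_zpow, hzK, one_zpow]
      have hZc : ∀ x ∈ Subgroup.zpowers z, x ∈ Subgroup.center C := by
        intro x hx
        exact (Subgroup.zpowers_le.mpr hzc) hx
      have hnorm : (Subgroup.zpowers z).Normal := by
        refine ⟨fun x hx g => ?_⟩
        have := (Subgroup.mem_center_iff.mp (hZc x hx)) g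
        rw [this, mul_inv_cancel_right]
        exact hx
      set Z := Subgroup.zpowers z with hZdef
      obtain ⟨t, hat, htu⟩ := exists_between hau
      have hcard : Nat.card (C ⧸ Z) < n := by
        have h1 := Subgroup.card_eq_card_quotient_mul_card_subgroup Z
        rw [hZdef, Nat.card_zpowers, hz, hn, ← hZdef] at h1
        have h2 : 0 < Nat.card (C ⧸ Z) := Nat.card_pos
        rw [h1]
        have := hp.out.one_lt
        nlinarith
      obtain ⟨v', hv', hv'1, hv'2⟩ := ih (Nat.card (C ⧸ Z)) hcard (C ⧸ Z) rfl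
        (hC.to_quotient Z) (QuotientGroup.lift Z π hZK) t htu
      have hat0 : ⊥ < t := lt_of_le_of_lt bot_le hat
      refine ⟨extVal (QuotientGroup.mk' Z) v' t, ?_, ?_, ?_⟩
      · apply isPVal_extVal _ _ hv' t hat0
        · intro x hx
          by_cases hπ : QuotientGroup.lift Z π hZK x = 1
          · exact (hv'2 x hπ hx).1
          · rw [hv'1 x hπ]
            exact htu.trans_le (huw _ hπ)
        · intro x c hx
          rw [QuotientGroup.mk'_apply, QuotientGroup.eq_one_iff] at hx
          exact ((Subgroup.mem_center_iff.mp (hZc x hx)) c).symm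
        · intro x hx
          rw [QuotientGroup.mk'_apply, QuotientGroup.eq_one_iff] at hx
          exact prime_pow_one hz hx
        · intro x x' hx hx' hx1
          rw [QuotientGroup.mk'_apply, QuotientGroup.eq_one_iff] at hx hx'
          exact prime_cyc hz hx hx' hx1
      · intro c hc
        have h1 : QuotientGroup.mk' Z c ≠ 1 := by
          intro h
          rw [QuotientGroup.mk'_apply, QuotientGroup.eq_one_iff] at h
          exact hc (hZK c h)
        have h2 : QuotientGroup.lift Z π hZK (QuotientGroup.mk' Z c) = π c := rfl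
        rw [extVal_of_ne h1, hv'1 _ (by rw [h2]; exact hc), h2]
      · intro c hc hc1
        by_cases h1 : QuotientGroup.mk' Z c = 1
        · rw [extVal_of_eq h1 hc1]
          exact ⟨hat, htu⟩
        · rw [extVal_of_ne h1]
          have h2 : QuotientGroup.lift Z π hZK (QuotientGroup.mk' Z c) = π c := rfl
          have := hv'2 (QuotientGroup.mk' Z c) (by rw [h2]; exact hc) h1
          exact ⟨hat.trans this.1, this.2⟩

end refine

end Pool.Agent.Helper944
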