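import Pool.Agent.Helper944.All

set_option autoImplicit false

namespace Pool.Agent.Helper944

/-- A rich valued group: valued by `v`, locally finite, and all finite valued extension problems
over it are solvable. -/
structure Rich (p : ℕ) {G V : Type} [Group G] [LinearOrder V] [OrderBot V] (v : G → V) :
    Prop where
  val : IsPVal p v
  lf : ∀ s : Set G, s.Finite → Finite (Subgroup.closure s)
  ext : ∀ (A B : Type) [Group A] [Group B] [Finite A] [Finite B] (vA : A → V) (vB : B → V),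
    IsPVal p vA → IsPVal p vB → ∀ (ι : A →* B), (∀ a, vB (ι a) = vA a) →
    ∀ (j : A →* G), (∀ a, v (j a) = vA a) →
      ∃ e : B →* G, (∀ b, v (e b) = vB b) ∧ ∀ a, e (ι a) = j a

namespace PStr

variable {p : ℕ} [hp : Fact p.Prime] {I V : Type} [LinearOrder V] [OrderBot V]

omit hp in
theorem exists_mem_Fs_fin {ι : Type*} [Nonempty ι] (D : ι → PStr p I V)
    (hd : ∀ i j, ∃ k, (D i).le (D k) ∧ (D j).le (D k)) {A : Type*} [Finite A]
    (y : A → FreeGroup I) (hy : ∀ a, y a ∈ Fs (⋃ i, (D i).S)) :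
    ∃ i, ∀ a, y a ∈ Fs (D i).S := by
  classical
  have hmem := mem_Fs_iUnion (fun i => (D i).S) (fun i j => by
    obtain ⟨k, h1, h2⟩ := hd i j
    exact ⟨k, h1.1, h2.1⟩)
  have hfin : Fintype A := Fintype.ofFinite A
  have key : ∀ s : Finset A, ∃ i, ∀ a ∈ s, y a ∈ Fs (D i).S := by
    intro s
    induction s using Finset.induction_on with
    | empty => exact ⟨Classical.arbitrary ι, by simp⟩
    | insert a s _ ih =>
      obtain ⟨i, hi⟩ := ih
      obtain ⟨j, hj⟩ := hmem (y a) (hy a)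
      obtain ⟨k, hik, hjk⟩ := hd i j
      refine ⟨k, ?_⟩
      intro x hx
      rcases Finset.mem_insert.mp hx with rfl | hx
      · exact Fs_mono hjk.1 hj
      · exact Fs_mono hik.1 (hi x hx)
  obtain ⟨i, hi⟩ := key Finset.univ
  exact ⟨i, fun a => hi a (Finset.mem_univ a)⟩

omit hp in
theorem rich_of_directed {ι : Type*} [Nonempty ι] (D : ι → PStr p I V)
    (hd : ∀ i j, ∃ k, (D i).le (D k) ∧ (D j).le (D k)) (U : PStr p I V)
    (hU : U.S = ⋃ i, (D i).S) (hle : ∀ i, (D i).le U)
    (hsol : ∀ i (F : Finset V), ∃ k, ∃ Λ : Set V, (F : Set V) ⊆ Λ ∧ (D i).le (D k) ∧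
      (D i).Solves (D k) Λ) : Rich p U.pre.quot where
  val := U.pre.isPVal_quot
  lf := U.locFin
  ext := by
    classical
    intro A B _ _ _ _ vA vB hA hB ιAB hι j hj
    obtain ⟨y₀, hy₀, hy₀j⟩ := U.exists_real j hj
    obtain ⟨i, hi⟩ := exists_mem_Fs_fin D hd y₀ (fun a => by rw [← hU]; exact hy₀.mem a)
    have hy₀i : (D i).Real vA y₀ := by
      refine ⟨hi, ?_, ?_⟩
      · intro b b'
        rw [← (hle i).2 _ (mul_mem (mul_mem (hi b) (hi b')) (inv_mem (hi _)))]
        exact hy₀.mul b b'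
      · intro b
        rw [← (hle i).2 _ (hi b)]
        exact hy₀.val b
    have hfin : Fintype B := Fintype.ofFinite B
    obtain ⟨k, Λ, hΛ, hik, hs⟩ := hsol i (Finset.univ.image vB)
    obtain ⟨y, hy, hyι⟩ := hs A B vA vB hA hB ιAB hι y₀ hy₀i (fun b => Or.inr (hΛ (by
      rw [Finset.mem_coe, Finset.mem_image]
      exact ⟨b, Finset.mem_univ b, rfl⟩)))
    have hyU : U.Real vB y := hy.mono (hle k)
    refine ⟨hyU.hom, hyU.hom_val, ?_⟩
    intro a
    rw [← hy₀j]
    change QuotientGroup.mk' U.pre.ker ⟨y (ιAB a), _⟩ = QuotientGroup.mk' U.pre.ker ⟨y₀ a, _⟩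
    rw [← mul_inv_eq_one, ← map_inv, ← map_mul, QuotientGroup.mk'_apply,
      QuotientGroup.eq_one_iff, U.pre.mem_ker]
    change U.w (y (ιAB a) * (y₀ a)⁻¹) = ⊥
    rw [(hle k).2 _ (mul_mem (hy.mem _) (inv_mem (Fs_mono hik.1 (hi a))))]
    exact hyι a

omit hp in
/-- the empty structure -/
theorem exists_empty : ∃ A : PStr p I V, A.S = ∅ := by
  have hv : IsPVal p (fun _ : PUnit.{1} => (⊥ : V)) :=
    { one := rfl
      mul := fun _ _ => by simp
      inv := fun _ => _root_.le_refl _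
      comm := fun _ _ => Or.inr rfl
      layer := fun _ _ _ => ⟨0, Or.inr rfl⟩
      pow := fun _ => Or.inr rfl
      eq_one := fun _ _ => rfl }
  exact ⟨ofHom (fun _ : PUnit.{1} => (⊥ : V)) hv ∅ 1, rfl⟩

end PStr

theorem real_compl_infinite (S : Set ℝ) (hS : S.Countable) : (Sᶜ).Infinite := by
  intro h
  have h1 : (Set.univ : Set ℝ).Countable := by
    rw [← Set.union_compl_self S]
    exact hS.union h.countable
  exact Cardinal.not_countable_real h1

/-- countable rich groups exist -/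
theorem exists_countable_rich (p : ℕ) [hp : Fact p.Prime] (V : Type) [LinearOrder V] [OrderBot V]
    [DenselyOrdered V] [NoMaxOrder V] [Countable V] :
    ∃ (G : Type) (_ : Group G) (_ : Countable G) (v : G → V), Rich p v := by
  obtain ⟨A₀, hA₀⟩ := PStr.exists_empty (p := p) (I := ℝ) (V := V)
  obtain ⟨f, hf0, hf⟩ := exists_dep_seq
    (X := fun _ => {T : PStr p ℝ V // T.S.Countable})
    (⟨A₀, by rw [hA₀]; exact Set.countable_empty⟩)
    (fun n T T' => T.1.le T'.1 ∧ T.1.Solves T'.1 Set.univ) (by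
      intro n T
      obtain ⟨T', h1, h2, h3⟩ := PStr.exists_solves real_compl_infinite T.1 T.2 Set.univ
        Set.countable_univ
      exact ⟨⟨T', h1⟩, h2, h3⟩)
  have hmono : ∀ n k, n ≤ k → (f n).1.le (f k).1 := by
    intro n k hnk
    induction hnk with
    | refl => exact PStr.le_refl _
    | step _ ih => exact PStr.le_trans ih (hf _).1
  have hd : ∀ i k, ∃ l, (f i).1.le (f l).1 ∧ (f k).1.le (f l).1 :=
    fun i k => ⟨max i k, hmono _ _ (le_max_left _ _), hmono _ _ (le_max_right _ _)⟩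
  obtain ⟨U, hUS, hU⟩ := PStr.exists_union (fun n => (f n).1) hd
  have hUc : U.S.Countable := by
    rw [hUS]
    exact Set.countable_iUnion (fun n => (f n).2)
  have h1 : Countable (Fs U.S) := Fs_countable hUc
  refine ⟨U.G, inferInstance, ?_, U.pre.quot, ?_⟩
  · exact (QuotientGroup.mk'_surjective U.pre.ker).countable
  · exact PStr.rich_of_directed (fun n => (f n).1) hd U hUS hU
      (fun i F => ⟨i + 1, Set.univ, Set.subset_univ _, (hf i).1, (hf i).2⟩)

end Pool.Agent.Helper944
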