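import Pool.Agent.Helper944.Str

set_option autoImplicit false

namespace Pool.Agent.Helper944

theorem amalgam' {p : ℕ} [hp : Fact p.Prime] {V : Type*} [LinearOrder V] [OrderBot V]
    [DenselyOrdered V] [NoMaxOrder V] (A B H : Type) [Group A] [Group B] [Group H] [Finite A]
    [Finite B] (vA : A → V) (vB : B → V) (vH : H → V)
    (hA : IsPVal p vA) (hB : IsPVal p vB) (hH : IsPVal p vH)
    (f : H →* A) (g : H →* B) (hf : ∀ h, vA (f h) = vH h) (hg : ∀ h, vB (g h) = vH h) :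
    ∃ (C : Type) (_ : Group C) (_ : Finite C) (vC : C → V) (i : A →* C) (j : B →* C),
        IsPVal p vC ∧ (∀ a, vC (i a) = vA a) ∧ (∀ a, vC (j a) = vB a) ∧
        (∀ h, i (f h) = j (g h)) := by
  obtain ⟨m, hm⟩ := ((Set.finite_range vA).union (Set.finite_range vB)).bddAbove
  obtain ⟨C, gC, fC, vC, i, j, h1, h2, h3, h4, _⟩ := amalgam m _ A B H rfl vA vB vH hA hB hH f g
    hf hg ⊥ (fun a ha => hA.ne_bot ha) (fun a ha => hB.ne_bot ha)
    (fun a => hm (Or.inl ⟨a, rfl⟩)) (fun a => hm (Or.inr ⟨a, rfl⟩))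
  exact ⟨C, gC, fC, vC, i, j, h1, h2, h3, h4⟩

theorem exists_dep_seq {X : ℕ → Type*} (x0 : X 0) (R : ∀ n, X n → X (n + 1) → Prop)
    (h : ∀ n x, ∃ y, R n x y) : ∃ f : ∀ n, X n, f 0 = x0 ∧ ∀ n, R n (f n) (f (n + 1)) :=
  ⟨fun n => Nat.rec x0 (fun n x => (h n x).choose) n, rfl, fun n => (h n _).choose_spec⟩

theorem exists_exhaustion {I : Type} (S : Set I) (hS : S.Countable) :
    ∃ J : ℕ → Set I, Monotone J ∧ (∀ n, (J n).Finite) ∧ (⋃ n, J n) = S := by
  obtain ⟨enc, henc⟩ := (hS.to_subtype).exists_injective_nat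
  refine ⟨fun n => {i | ∃ h : i ∈ S, enc ⟨i, h⟩ < n}, ?_, ?_, ?_⟩
  · intro a b hab i hi
    obtain ⟨h, hi⟩ := hi
    exact ⟨h, hi.trans_le hab⟩
  · intro n
    have : {i | ∃ h : i ∈ S, enc ⟨i, h⟩ < n} = Subtype.val '' (enc ⁻¹' (Set.Iio n)) := by
      ext i
      constructor
      · rintro ⟨h, hi⟩
        exact ⟨⟨i, h⟩, hi, rfl⟩
      · rintro ⟨⟨i, h⟩, hi, rfl⟩
        exact ⟨h, hi⟩
    change ({i | ∃ h : i ∈ S, enc ⟨i, h⟩ < n}).Finite
    rw [this]
    exact ((Set.finite_Iio n).preimage (henc.injOn)).image _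
  · ext i
    rw [Set.mem_iUnion]
    constructor
    · rintro ⟨_, h, _⟩
      exact h
    · intro h
      exact ⟨enc ⟨i, h⟩ + 1, h, Nat.lt_succ_self _⟩

namespace PStr

variable {p : ℕ} [hp : Fact p.Prime] {I V : Type} [LinearOrder V] [OrderBot V]

/-- partial structure coming from a homomorphism to a finite valued group -/
def ofHom {C : Type} [Group C] [Finite C] (v : C → V) (hv : IsPVal p v) (S : Set I)
    (π : FreeGroup I →* C) : PStr p I V where
  S := S
  w := fun x => v (π x)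
  pre := hv.toIsPre.comp (π.comp (Fs S).subtype)
  lf := by
    classical
    intro s hs
    have hfin : Fintype C := Fintype.ofFinite C
    refine ⟨(Finset.univ : Finset C).image
      (fun c => if h : ∃ x ∈ Fs S, π x = c then h.choose else 1), ?_, ?_⟩
    · intro x hx
      rw [Finset.mem_image] at hx
      obtain ⟨c, _, rfl⟩ := hx
      split_ifs with h
      · exact h.choose_spec.1
      · exact one_mem _
    · intro x hx
      have hxS : x ∈ Fs S := by
        have hle : Subgroup.closure (s : Set (FreeGroup I)) ≤ Fs S := by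
          rw [Subgroup.closure_le]
          exact fun z hz => hs z hz
        exact hle hx
      have hex : ∃ y ∈ Fs S, π y = π x := ⟨x, hxS, rfl⟩
      refine ⟨if h : ∃ y ∈ Fs S, π y = π x then h.choose else 1, ?_, ?_⟩
      · rw [Finset.mem_image]
        exact ⟨π x, Finset.mem_univ _, rfl⟩
      · rw [dif_pos hex, map_mul, map_inv, hex.choose_spec.2, mul_inv_cancel, hv.one]

/-- stage of the one-point extension construction -/
structure Stage (p : ℕ) {V : Type} [LinearOrder V] [OrderBot V] {G : Type} [Group G] (vG : G → V)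
    (An : Subgroup G) {B A' : Type} [Group B] [Group A'] (vB : B → V) (ι : A' →* B)
    (j : A' →* An) where
  C : Type
  grp : Group C
  fin : Finite C
  v : C → V
  isP : IsPVal p v
  α : An →* C
  β : B →* C
  hα : ∀ a, v (α a) = vG a
  hβ : ∀ b, v (β b) = vB b
  comp : ∀ a, α (j a) = β (ι a)

attribute [instance] Stage.grp Stage.fin

/-- the single extension step -/
theorem exists_step [DenselyOrdered V] [NoMaxOrder V]
    (hI : ∀ S : Set I, S.Countable → (Sᶜ).Infinite)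
    (A : PStr p I V) (hA : A.S.Countable) {A' B : Type} [Group A'] [Group B] [Finite A'] [Finite B]
    (vA' : A' → V) (vB : B → V) (hA' : IsPVal p vA') (hB : IsPVal p vB) (ι : A' →* B)
    (hι : ∀ a, vB (ι a) = vA' a) (y₀ : A' → FreeGroup I) (hy₀ : A.Real vA' y₀) :
    ∃ T : PStr p I V, T.S.Countable ∧ A.le T ∧ ∃ y : B → FreeGroup I, T.Real vB y ∧
      ∀ a, T.w (y (ι a) * (y₀ a)⁻¹) = ⊥ := by
  classical
  -- new letters
  obtain ⟨βI, hβI, hβdisj⟩ : ∃ βI : B → I, Function.Injective βI ∧ ∀ b, βI b ∉ A.S := by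
    have hinf : Infinite (A.Sᶜ : Set I) := (hI A.S hA).to_subtype
    obtain ⟨e⟩ : Nonempty (B ↪ (A.Sᶜ : Set I)) := by
      have := Fintype.ofFinite B
      exact ⟨(Fintype.equivFin B).toEmbedding.trans
        (Fin.valEmbedding.trans (Infinite.natEmbedding _))⟩
    exact ⟨fun b => (e b : I), fun a b h => e.injective (Subtype.ext h), fun b => (e b).2⟩
  obtain ⟨J, hJm, hJf, hJu⟩ := exists_exhaustion A.S hA
  have hJS : ∀ n, J n ⊆ A.S := fun n => by rw [← hJu]; exact Set.subset_iUnion J n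
  let vG : A.G → V := A.pre.quot
  have hvG : IsPVal p vG := A.pre.isPVal_quot
  let q' : I → A.G := fun i =>
    if h : i ∈ A.S then QuotientGroup.mk' A.pre.ker ⟨FreeGroup.of i, of_mem_Fs h⟩ else 1
  let j : A' →* A.G := hy₀.hom
  let An : ℕ → Subgroup A.G := fun n => Subgroup.closure (q' '' (J n) ∪ Set.range j)
  have hAnfin : ∀ n, Finite (An n) := fun n =>
    A.locFin _ (((hJf n).image _).union (Set.finite_range j))
  have hAnm : ∀ n, An n ≤ An (n + 1) := fun n =>
    Subgroup.closure_mono (Set.union_subset_union_left _ (Set.image_mono (hJm (Nat.le_succ n))))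
  have hjm : ∀ n a, j a ∈ An n := fun n a => Subgroup.subset_closure (Or.inr ⟨a, rfl⟩)
  have hqm : ∀ n, ∀ i ∈ J n, q' i ∈ An n := fun n i hi =>
    Subgroup.subset_closure (Or.inl ⟨i, hi, rfl⟩)
  let jn : ∀ n, A' →* An n := fun n => j.codRestrict (An n) (hjm n)
  have hjval : ∀ a, vG (j a) = vA' a := fun a => hy₀.hom_val a
  let X : ℕ → Type 1 := fun n => Stage p vG (An n) vB ι (jn n)
  have hstage0 : Nonempty (X 0) := by
    obtain ⟨C, gC, fC, vC, i, j', h1, h2, h3, h4⟩ := amalgam' (An 0) B A'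
      (fun a => vG a) vB vA' (hvG.comp (An 0).subtype Subtype.val_injective) hB hA' (jn 0) ι
      (fun a => hjval a) hι
    exact ⟨⟨C, gC, fC, vC, h1, i, j', h2, h3, h4⟩⟩
  obtain ⟨st0⟩ := hstage0
  let R : ∀ n, X n → X (n + 1) → Prop := fun n s s' =>
    ∃ γ : s.C →* s'.C, (∀ c, s'.v (γ c) = s.v c) ∧
      (∀ a : An n, s'.α (Subgroup.inclusion (hAnm n) a) = γ (s.α a)) ∧
      (∀ b, s'.β b = γ (s.β b))
  have hR : ∀ n s, ∃ s', R n s s' := by
    intro n s
    obtain ⟨C, gC, fC, vC, i, j', h1, h2, h3, h4⟩ := amalgam' (An (n + 1)) s.C (An n)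
      (fun a => vG a) s.v (fun a => vG a)
      (hvG.comp (An (n + 1)).subtype Subtype.val_injective) s.isP
      (hvG.comp (An n).subtype Subtype.val_injective)
      (Subgroup.inclusion (hAnm n)) s.α (fun a => rfl) s.hα
    refine ⟨⟨C, gC, fC, vC, h1, i, j'.comp s.β, h2, fun b => ?_, fun a => ?_⟩, j', h3, h4,
      fun b => rfl⟩
    · rw [MonoidHom.comp_apply, h3, s.hβ]
    · have : jn (n + 1) a = Subgroup.inclusion (hAnm n) (jn n a) := rfl
      rw [this, h4, s.comp]
      rfl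
  obtain ⟨st, _, hst⟩ := exists_dep_seq st0 R hR
  let L : ℕ → Set I := fun n => J n ∪ Set.range βI
  have hLm : Monotone L := fun a b hab => Set.union_subset_union_left _ (hJm hab)
  let π : ∀ n, FreeGroup I →* (st n).C := fun n => FreeGroup.lift (fun i =>
    if h : i ∈ J n then (st n).α ⟨q' i, hqm n i h⟩
    else if h : ∃ b, βI b = i then (st n).β h.choose else 1)
  have hπJ : ∀ n i (h : i ∈ J n), π n (FreeGroup.of i) = (st n).α ⟨q' i, hqm n i h⟩ := by
    intro n i h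
    simp only [π, FreeGroup.lift_apply_of]
    rw [dif_pos h]
  have hπβ : ∀ n b, π n (FreeGroup.of (βI b)) = (st n).β b := by
    intro n b
    have h1 : βI b ∉ J n := fun h => hβdisj b (hJS n h)
    have h2 : ∃ b', βI b' = βI b := ⟨b, rfl⟩
    simp only [π, FreeGroup.lift_apply_of]
    rw [dif_neg h1, dif_pos h2]
    congr 1
    exact hβI h2.choose_spec
  have hcompat : ∀ n, ∀ x ∈ Fs (L n), (st (n + 1)).v (π (n + 1) x) = (st n).v (π n x) := by
    intro n x hx
    obtain ⟨γ, hγv, hγα, hγβ⟩ := hst n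
    have : π (n + 1) x = (γ.comp (π n)) x := by
      apply hom_eq_on_Fs (S := L n) _ hx
      rintro i (hi | ⟨b, rfl⟩)
      · rw [MonoidHom.comp_apply, hπJ n i hi, ← hγα, hπJ (n + 1) i (hJm (Nat.le_succ n) hi)]
        rfl
      · rw [MonoidHom.comp_apply, hπβ, hπβ, hγβ]
    rw [this, MonoidHom.comp_apply, hγv]
  let D : ℕ → PStr p I V := fun n => ofHom (st n).v (st n).isP (L n) (π n)
  have hD1 : ∀ n, (D n).le (D (n + 1)) := fun n => ⟨hLm (Nat.le_succ n), hcompat n⟩
  have hDm : ∀ n k, n ≤ k → (D n).le (D k) := by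
    intro n k hnk
    induction hnk with
    | refl => exact le_refl _
    | step _ ih => exact le_trans ih (hD1 _)
  obtain ⟨T, hTS, hT⟩ := exists_union D (fun i k => ⟨max i k, hDm _ _ (le_max_left _ _),
    hDm _ _ (le_max_right _ _)⟩)
  have hTw : ∀ n, ∀ x ∈ Fs (L n), T.w x = (st n).v (π n x) := fun n => (hT n).2
  -- elements over the old letters
  have hold : ∀ n, ∀ x (hx : x ∈ Fs (J n)), ∃ g : An n,
      (g : A.G) = QuotientGroup.mk' A.pre.ker ⟨x, Fs_mono (hJS n) hx⟩ ∧ π n x = (st n).α g := by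
    intro n x hx
    induction hx using Subgroup.closure_induction with
    | mem x hx =>
      obtain ⟨i, hi, rfl⟩ := hx
      refine ⟨⟨q' i, hqm n i hi⟩, ?_, hπJ n i hi⟩
      simp only [q', dif_pos (hJS n hi)]
    | one => exact ⟨1, rfl, by rw [map_one, map_one]⟩
    | mul x y hx hy ihx ihy =>
      obtain ⟨g, hg1, hg2⟩ := ihx
      obtain ⟨g', hg1', hg2'⟩ := ihy
      refine ⟨g * g', ?_, by rw [map_mul, map_mul, hg2, hg2']⟩
      rw [Subgroup.coe_mul, hg1, hg1', ← map_mul]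
      rfl
    | inv x hx ihx =>
      obtain ⟨g, hg1, hg2⟩ := ihx
      refine ⟨g⁻¹, ?_, by rw [map_inv, map_inv, hg2]⟩
      rw [Subgroup.coe_inv, hg1, ← map_inv]
      rfl
  have hJx : ∀ x ∈ Fs A.S, ∃ n, x ∈ Fs (J n) := by
    intro x hx
    apply mem_Fs_iUnion J (fun i k => ⟨max i k, hJm (le_max_left _ _), hJm (le_max_right _ _)⟩)
    rw [hJu]; exact hx
  refine ⟨T, ?_, ⟨?_, ?_⟩, fun b => FreeGroup.of (βI b), ⟨?_, ?_, ?_⟩, ?_⟩
  · rw [hTS]
    exact Set.countable_iUnion (fun n => (hJf n).countable.union (Set.countable_range βI))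
  · rw [hTS, ← hJu]
    exact Set.iUnion_mono (fun n => Set.subset_union_left)
  · intro x hx
    obtain ⟨n, hn⟩ := hJx x hx
    obtain ⟨g, hg1, hg2⟩ := hold n x hn
    rw [hTw n x (Fs_mono Set.subset_union_left hn), hg2, (st n).hα, hg1]
    rfl
  · intro b
    apply of_mem_Fs
    rw [hTS]
    exact Set.mem_iUnion.mpr ⟨0, Or.inr ⟨b, rfl⟩⟩
  · intro b b'
    have hm : ∀ b, FreeGroup.of (βI b) ∈ Fs (L 0) := fun b => of_mem_Fs (Or.inr ⟨b, rfl⟩)
    rw [hTw 0 _ (mul_mem (mul_mem (hm b) (hm b')) (inv_mem (hm _))), map_mul, map_mul, map_inv,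
      hπβ, hπβ, hπβ, map_mul, mul_inv_cancel, (st 0).isP.one]
  · intro b
    rw [hTw 0 _ (of_mem_Fs (Or.inr ⟨b, rfl⟩)), hπβ, (st 0).hβ]
  · intro a
    obtain ⟨n, hn⟩ := hJx (y₀ a) (hy₀.mem a)
    obtain ⟨g, hg1, hg2⟩ := hold n _ hn
    have hm : FreeGroup.of (βI (ι a)) * (y₀ a)⁻¹ ∈ Fs (L n) :=
      mul_mem (of_mem_Fs (Or.inr ⟨_, rfl⟩)) (inv_mem (Fs_mono Set.subset_union_left hn))
    have hg : g = jn n a := Subtype.ext hg1
    rw [hTw n _ hm, map_mul, map_inv, hπβ, hg2, hg, (st n).comp, mul_inv_cancel, (st n).isP.one]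

end PStr

end Pool.Agent.Helper944
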