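import Pool.Agent.Helper944.AP

set_option autoImplicit false

namespace Pool.Agent.Helper944

section local_lemmas

variable {p : ℕ} {Γ V : Type*} [Group Γ] [LinearOrder V] [OrderBot V]

/-- being a pre-valuation is a local property -/
theorem isPre_of_local (w : Γ → V)
    (h : ∀ x y : Γ, ∃ K : Subgroup Γ, x ∈ K ∧ y ∈ K ∧ IsPre p (fun z : K => w z)) :
    IsPre p w where
  one := by
    obtain ⟨K, _, _, hK⟩ := h 1 1
    exact hK.one
  mul x y := by
    obtain ⟨K, hx, hy, hK⟩ := h x y
    exact hK.mul ⟨x, hx⟩ ⟨y, hy⟩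
  inv x := by
    obtain ⟨K, hx, _, hK⟩ := h x x
    exact hK.inv ⟨x, hx⟩
  comm x y := by
    obtain ⟨K, hx, hy, hK⟩ := h x y
    exact hK.comm ⟨x, hx⟩ ⟨y, hy⟩
  layer x y hxy := by
    obtain ⟨K, hx, hy, hK⟩ := h x y
    exact hK.layer ⟨x, hx⟩ ⟨y, hy⟩ hxy
  pow x := by
    obtain ⟨K, hx, _, hK⟩ := h x x
    exact hK.pow ⟨x, hx⟩

end local_lemmas

/-- subgroup of a free group generated by a set of letters -/
def Fs {I : Type} (S : Set I) : Subgroup (FreeGroup I) := Subgroup.closure (FreeGroup.of '' S)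

theorem Fs_mono {I : Type} {S T : Set I} (h : S ⊆ T) : Fs S ≤ Fs T :=
  Subgroup.closure_mono (Set.image_mono h)

theorem of_mem_Fs {I : Type} {S : Set I} {i : I} (h : i ∈ S) : FreeGroup.of i ∈ Fs S :=
  Subgroup.subset_closure ⟨i, h, rfl⟩

/-- every element of `Fs (⋃ S i)` lies in some `Fs (S i)` for a directed family -/
theorem mem_Fs_iUnion {I : Type} {ι : Type*} [Nonempty ι] (S : ι → Set I)
    (hd : ∀ i j, ∃ k, S i ⊆ S k ∧ S j ⊆ S k) (x : FreeGroup I) (hx : x ∈ Fs (⋃ i, S i)) :
    ∃ i, x ∈ Fs (S i) := by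
  induction hx using Subgroup.closure_induction with
  | mem x hx =>
    obtain ⟨i, hi, rfl⟩ := hx
    obtain ⟨k, hk⟩ := Set.mem_iUnion.mp hi
    exact ⟨k, of_mem_Fs hk⟩
  | one => exact ⟨Classical.arbitrary ι, one_mem _⟩
  | mul x y _ _ hx hy =>
    obtain ⟨i, hi⟩ := hx
    obtain ⟨j, hj⟩ := hy
    obtain ⟨k, hik, hjk⟩ := hd i j
    exact ⟨k, mul_mem (Fs_mono hik hi) (Fs_mono hjk hj)⟩
  | inv x _ hx =>
    obtain ⟨i, hi⟩ := hx
    exact ⟨i, inv_mem hi⟩

/-- two homomorphisms agreeing on letters of `S` agree on `Fs S` -/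
theorem hom_eq_on_Fs {I : Type} {S : Set I} {G : Type*} [Group G] {f g : FreeGroup I →* G}
    (h : ∀ i ∈ S, f (FreeGroup.of i) = g (FreeGroup.of i)) {x : FreeGroup I} (hx : x ∈ Fs S) :
    f x = g x := by
  have hle : Fs S ≤ f.eqLocus g := by
    rw [Fs, Subgroup.closure_le]
    rintro _ ⟨i, hi, rfl⟩
    exact h i hi
  exact hle hx

/-- partial valued structure on the letters `S` -/
structure PStr (p : ℕ) (I V : Type) [LinearOrder V] [OrderBot V] where
  S : Set I
  w : FreeGroup I → V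
  pre : IsPre p (fun z : Fs S => w z)
  lf : ∀ s : Finset (FreeGroup I), (∀ x ∈ s, x ∈ Fs S) → ∃ t : Finset (FreeGroup I),
    (∀ x ∈ t, x ∈ Fs S) ∧ ∀ x ∈ Subgroup.closure (s : Set (FreeGroup I)), ∃ y ∈ t,
      w (x * y⁻¹) = ⊥

namespace PStr

variable {p : ℕ} {I V : Type} [LinearOrder V] [OrderBot V]

/-- extension of partial structures -/
def le (A B : PStr p I V) : Prop := A.S ⊆ B.S ∧ ∀ x ∈ Fs A.S, B.w x = A.w x

theorem le_refl (A : PStr p I V) : A.le A := ⟨subset_rfl, fun _ _ => rfl⟩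

theorem le_trans {A B C : PStr p I V} (h1 : A.le B) (h2 : B.le C) : A.le C :=
  ⟨h1.1.trans h2.1, fun x hx => (h2.2 x (Fs_mono h1.1 hx)).trans (h1.2 x hx)⟩

/-- the group of a partial structure -/
abbrev G (A : PStr p I V) : Type := Fs A.S ⧸ A.pre.ker

/-- a realisation of a valued group in a partial structure -/
structure Real (A : PStr p I V) {B : Type} [Group B] (vB : B → V) (y : B → FreeGroup I) :
    Prop where
  mem : ∀ b, y b ∈ Fs A.S
  mul : ∀ b b', A.w (y b * y b' * (y (b * b'))⁻¹) = ⊥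
  val : ∀ b, A.w (y b) = vB b

theorem Real.mono {A A' : PStr p I V} (h : A.le A') {B : Type} [Group B] {vB : B → V}
    {y : B → FreeGroup I} (hy : A.Real vB y) : A'.Real vB y where
  mem b := Fs_mono h.1 (hy.mem b)
  mul b b' := by
    rw [h.2 _ (mul_mem (mul_mem (hy.mem b) (hy.mem b')) (inv_mem (hy.mem _)))]
    exact hy.mul b b'
  val b := by rw [h.2 _ (hy.mem b)]; exact hy.val b

/-- the homomorphism attached to a realisation -/
def Real.hom {A : PStr p I V} {B : Type} [Group B] {vB : B → V}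
    {y : B → FreeGroup I} (hy : A.Real vB y) : B →* A.G :=
  MonoidHom.mk' (fun b => QuotientGroup.mk' A.pre.ker ⟨y b, hy.mem b⟩) (by
    intro a b
    rw [← map_mul, eq_comm, ← mul_inv_eq_one, ← map_inv, ← map_mul, QuotientGroup.mk'_apply,
      QuotientGroup.eq_one_iff, A.pre.mem_ker]
    exact hy.mul a b)

theorem Real.hom_val {A : PStr p I V} {B : Type} [Group B] {vB : B → V}
    {y : B → FreeGroup I} (hy : A.Real vB y) (b : B) : A.pre.quot (hy.hom b) = vB b :=
  hy.val b

/-- every value preserving homomorphism comes from a realisation -/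
theorem exists_real (A : PStr p I V) {B : Type} [Group B] {vB : B → V} (e : B →* A.G)
    (he : ∀ b, A.pre.quot (e b) = vB b) :
    ∃ y : B → FreeGroup I, ∃ hy : A.Real vB y, hy.hom = e := by
  have hs : ∀ g : A.G, ∃ z : Fs A.S, QuotientGroup.mk' A.pre.ker z = g :=
    QuotientGroup.mk'_surjective _
  choose z hz using fun b => hs (e b)
  have hy : A.Real vB (fun b => (z b : FreeGroup I)) := by
    refine ⟨fun b => (z b).2, ?_, ?_⟩
    · intro b b'
      have h1 : QuotientGroup.mk' A.pre.ker (z b * z b' * (z (b * b'))⁻¹) = 1 := by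
        rw [map_mul, map_mul, map_inv, hz, hz, hz, map_mul, mul_inv_cancel]
      rw [QuotientGroup.mk'_apply, QuotientGroup.eq_one_iff, A.pre.mem_ker] at h1
      exact h1
    · intro b
      rw [← he b, ← hz b]
      rfl
  refine ⟨fun b => z b, hy, ?_⟩
  ext b
  exact hz b

/-- local finiteness of the group of a partial structure -/
theorem locFin (A : PStr p I V) (s : Set A.G) (hs : s.Finite) : Finite (Subgroup.closure s) := by
  classical
  have hsur : ∀ g : A.G, ∃ z : Fs A.S, QuotientGroup.mk' A.pre.ker z = g :=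
    QuotientGroup.mk'_surjective _
  choose z hz using hsur
  obtain ⟨t, ht, htc⟩ := A.lf (hs.toFinset.image (fun g => (z g : FreeGroup I))) (by
    intro x hx
    rw [Finset.mem_image] at hx
    obtain ⟨g, _, rfl⟩ := hx
    exact (z g).2)
  have hsub : (Subgroup.closure s : Set A.G) ⊆
      (fun y : FreeGroup I => if h : y ∈ Fs A.S then QuotientGroup.mk' A.pre.ker ⟨y, h⟩ else 1) ''
        (t : Set (FreeGroup I)) := by
    intro g hg
    -- lift g to the closure of the chosen lifts
    have hlift : ∃ x : Fs A.S, (x : FreeGroup I) ∈ Subgroup.closure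
        ((hs.toFinset.image (fun g => (z g : FreeGroup I)) : Finset (FreeGroup I)) :
          Set (FreeGroup I)) ∧ QuotientGroup.mk' A.pre.ker x = g := by
      induction hg using Subgroup.closure_induction with
      | mem x hx =>
        refine ⟨z x, Subgroup.subset_closure ?_, hz x⟩
        rw [Finset.mem_coe, Finset.mem_image]
        exact ⟨x, by simpa using hx, rfl⟩
      | one => exact ⟨1, one_mem _, map_one _⟩
      | mul x y _ _ hx hy =>
        obtain ⟨a, ha, rfl⟩ := hx
        obtain ⟨b, hb, rfl⟩ := hy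
        exact ⟨a * b, mul_mem ha hb, map_mul _ _ _⟩
      | inv x _ hx =>
        obtain ⟨a, ha, rfl⟩ := hx
        exact ⟨a⁻¹, inv_mem ha, map_inv _ _⟩
    obtain ⟨x, hx, rfl⟩ := hlift
    obtain ⟨y, hyt, hy⟩ := htc _ hx
    refine ⟨y, hyt, ?_⟩
    have hyS := ht y hyt
    simp only [hyS, dif_pos]
    rw [eq_comm, ← mul_inv_eq_one, ← map_inv, ← map_mul, QuotientGroup.mk'_apply,
      QuotientGroup.eq_one_iff, A.pre.mem_ker]
    exact hy
  have hfin : (Subgroup.closure s : Set A.G).Finite := (t.finite_toSet.image _).subset hsub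
  exact hfin.to_subtype

/-- union of a directed family -/
theorem exists_union {ι : Type*} [Nonempty ι] (D : ι → PStr p I V)
    (hd : ∀ i j, ∃ k, (D i).le (D k) ∧ (D j).le (D k)) :
    ∃ U : PStr p I V, U.S = (⋃ i, (D i).S) ∧ ∀ i, (D i).le U := by
  classical
  have hmem := mem_Fs_iUnion (fun i => (D i).S) (fun i j => by
    obtain ⟨k, h1, h2⟩ := hd i j
    exact ⟨k, h1.1, h2.1⟩)
  let w : FreeGroup I → V := fun x => if h : ∃ i, x ∈ Fs (D i).S then (D h.choose).w x else ⊥
  have hw : ∀ i, ∀ x ∈ Fs (D i).S, w x = (D i).w x := by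
    intro i x hx
    have hex : ∃ i, x ∈ Fs (D i).S := ⟨i, hx⟩
    have h1 : w x = (D hex.choose).w x := dif_pos hex
    rw [h1]
    obtain ⟨k, h2, h3⟩ := hd hex.choose i
    rw [← h2.2 x hex.choose_spec, h3.2 x hx]
  have hfin : ∀ s : Finset (FreeGroup I), (∀ x ∈ s, x ∈ Fs (⋃ i, (D i).S)) →
      ∃ i, ∀ x ∈ s, x ∈ Fs (D i).S := by
    intro s
    induction s using Finset.induction_on with
    | empty => exact fun _ => ⟨Classical.arbitrary ι, by simp⟩
    | insert a s _ ih =>
      intro hs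
      obtain ⟨i, hi⟩ := ih (fun x hx => hs x (Finset.mem_insert_of_mem hx))
      obtain ⟨j, hj⟩ := hmem a (hs a (Finset.mem_insert_self _ _))
      obtain ⟨k, hik, hjk⟩ := hd i j
      refine ⟨k, ?_⟩
      intro x hx
      rcases Finset.mem_insert.mp hx with rfl | hx
      · exact Fs_mono hjk.1 hj
      · exact Fs_mono hik.1 (hi x hx)
  refine ⟨⟨⋃ i, (D i).S, w, ?_, ?_⟩, rfl, ?_⟩
  · apply isPre_of_local
    intro x y
    obtain ⟨i, hi⟩ := hfin {(x : FreeGroup I), (y : FreeGroup I)} (by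
      intro z hz
      rcases Finset.mem_insert.mp hz with rfl | hz
      · exact x.2
      · rw [Finset.mem_singleton] at hz
        rw [hz]; exact y.2)
    refine ⟨(Fs (D i).S).subgroupOf (Fs (⋃ i, (D i).S)), ?_, ?_, ?_⟩
    · rw [Subgroup.mem_subgroupOf]
      exact hi x (by simp)
    · rw [Subgroup.mem_subgroupOf]
      exact hi y (by simp)
    · let f : (Fs (D i).S).subgroupOf (Fs (⋃ i, (D i).S)) →* Fs (D i).S :=
        { toFun := fun z => ⟨z, Subgroup.mem_subgroupOf.mp z.2⟩
          map_one' := rfl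
          map_mul' := fun _ _ => rfl }
      have := (D i).pre.comp f
      have heq : (fun z : (Fs (D i).S).subgroupOf (Fs (⋃ i, (D i).S)) =>
          w (z : Fs (⋃ i, (D i).S))) = fun z => (D i).w (f z) := by
        funext z
        exact hw i _ (Subgroup.mem_subgroupOf.mp z.2)
      rw [heq]
      exact this
  · intro s hs
    obtain ⟨i, hi⟩ := hfin s hs
    obtain ⟨t, ht, htc⟩ := (D i).lf s hi
    have hsub : (D i).S ⊆ ⋃ i, (D i).S := Set.subset_iUnion (fun i => (D i).S) i
    refine ⟨t, fun x hx => Fs_mono hsub (ht x hx), ?_⟩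
    intro x hx
    obtain ⟨y, hy, hxy⟩ := htc x hx
    refine ⟨y, hy, ?_⟩
    rw [hw i]
    · exact hxy
    · refine mul_mem ?_ (inv_mem (ht y hy))
      have hle : Subgroup.closure (s : Set (FreeGroup I)) ≤ Fs (D i).S := by
        rw [Subgroup.closure_le]
        exact fun z hz => hi z hz
      exact hle hx
  · intro i
    exact ⟨Set.subset_iUnion (fun i => (D i).S) i, hw i⟩

end PStr

end Pool.Agent.Helper944
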