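import Pool.Agent.Helper944.Embed

set_option autoImplicit false

namespace Pool.Agent.Helper944

/-- the two element valued group -/
def sgnVal {V : Type*} [LinearOrder V] [OrderBot V] (t : V) (u : ℤˣ) : V :=
  if u = 1 then ⊥ else t

theorem sgnVal_one {V : Type*} [LinearOrder V] [OrderBot V] (t : V) : sgnVal t 1 = ⊥ := by
  simp [sgnVal]

theorem sgnVal_neg {V : Type*} [LinearOrder V] [OrderBot V] (t : V) : sgnVal t (-1) = t := by
  simp [sgnVal]

theorem isPVal_sgnVal {V : Type*} [LinearOrder V] [OrderBot V] (t : V) (ht : ⊥ < t) :
    IsPVal 2 (sgnVal t) where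
  one := sgnVal_one t
  mul x y := by
    rcases Int.units_eq_one_or x with rfl | rfl <;> rcases Int.units_eq_one_or y with rfl | rfl <;>
      simp [sgnVal]
  inv x := by
    rcases Int.units_eq_one_or x with rfl | rfl <;> simp [sgnVal]
  comm x y := by
    right
    rw [mul_comm x y, mul_inv_cancel_right, mul_inv_cancel, sgnVal_one]
  layer x y hxy := by
    rcases Int.units_eq_one_or x with rfl | rfl <;> rcases Int.units_eq_one_or y with rfl | rfl
    · exact ⟨0, Or.inr (by simp [sgnVal])⟩
    · rw [sgnVal_one, sgnVal_neg] at hxy
      exact absurd hxy ht.ne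
    · rw [sgnVal_one, sgnVal_neg] at hxy
      exact absurd hxy ht.ne'
    · exact ⟨1, Or.inr (by simp [sgnVal])⟩
  pow x := by
    right
    rcases Int.units_eq_one_or x with rfl | rfl <;> simp [sgnVal]
  eq_one x hx := by
    rcases Int.units_eq_one_or x with rfl | rfl
    · rfl
    · rw [sgnVal_neg] at hx
      exact absurd hx ht.ne'

/-- product of valuations with disjoint labels -/
theorem isPVal_prod {p : ℕ} {A B V : Type*} [Group A] [Group B] [LinearOrder V] [OrderBot V]
    {vA : A → V} {vB : B → V} (hA : IsPVal p vA) (hB : IsPVal p vB)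
    (hd : ∀ a b, a ≠ 1 → b ≠ 1 → vA a ≠ vB b) :
    IsPVal p (fun x : A × B => max (vA x.1) (vB x.2)) := by
  have key : ∀ (x : A × B) (y : A × B), (vA y.1 < vA x.1 ∨ vA y.1 = ⊥) →
      (vB y.2 < vB x.2 ∨ vB y.2 = ⊥) →
      (max (vA y.1) (vB y.2) < max (vA x.1) (vB x.2) ∨ max (vA y.1) (vB y.2) = ⊥) := by
    intro x y h1 h2
    rcases eq_or_ne (max (vA x.1) (vB x.2)) ⊥ with h3 | h3
    · right
      have h4 : vA x.1 = ⊥ := le_bot_iff.mp (h3 ▸ le_max_left _ _)
      have h5 : vB x.2 = ⊥ := le_bot_iff.mp (h3 ▸ le_max_right _ _)
      rw [h4] at h1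
      rw [h5] at h2
      rcases h1 with h1 | h1
      · exact absurd h1 not_lt_bot
      · rcases h2 with h2 | h2
        · exact absurd h2 not_lt_bot
        · rw [h1, h2, max_self]
    · left
      have h4 : ⊥ < max (vA x.1) (vB x.2) := bot_lt_iff_ne_bot.mpr h3
      apply max_lt
      · rcases h1 with h1 | h1
        · exact h1.trans_le (le_max_left _ _)
        · rw [h1]; exact h4
      · rcases h2 with h2 | h2
        · exact h2.trans_le (le_max_right _ _)
        · rw [h2]; exact h4
  refine { one := ?_, mul := ?_, inv := ?_, comm := ?_, layer := ?_, pow := ?_, eq_one := ?_ }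
  · change max (vA 1) (vB 1) = ⊥
    rw [hA.one, hB.one, max_self]
  · intro x y
    apply max_le
    · exact (hA.mul _ _).trans (max_le_max (le_max_left _ _) (le_max_left _ _))
    · exact (hB.mul _ _).trans (max_le_max (le_max_right _ _) (le_max_right _ _))
  · intro x
    exact max_le_max (hA.inv _) (hB.inv _)
  · intro x y
    exact key x (x * y * x⁻¹ * y⁻¹) (hA.comm _ _) (hB.comm _ _)
  · intro x y hxy
    rcases eq_or_ne (max (vA x.1) (vB x.2)) ⊥ with h3 | h3
    · refine ⟨0, Or.inr ?_⟩
      have h3' := h3
      have hxy' : max (vA x.1) (vB x.2) = max (vA y.1) (vB y.2) := hxy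
      rw [hxy'] at h3'
      have h4 : vA y.1 = ⊥ := le_bot_iff.mp (h3' ▸ le_max_left _ _)
      have h5 : vB y.2 = ⊥ := le_bot_iff.mp (h3' ▸ le_max_right _ _)
      change max (vA (x.1 ^ 0 * y.1⁻¹)) (vB (x.2 ^ 0 * y.2⁻¹)) = ⊥
      rw [pow_zero, pow_zero, one_mul, one_mul, hA.inv_eq, hB.inv_eq, h4, h5, max_self]
    · have hxy' : max (vA x.1) (vB x.2) = max (vA y.1) (vB y.2) := hxy
      have hpos : ⊥ < max (vA x.1) (vB x.2) := bot_lt_iff_ne_bot.mpr h3
      rcases le_total (vB x.2) (vA x.1) with h | h
      · have hm : max (vA x.1) (vB x.2) = vA x.1 := max_eq_left h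
        have hx1 : x.1 ≠ 1 := by
          intro h'
          rw [hm, h', hA.one] at hpos
          exact lt_irrefl _ hpos
        have hxlt : vB x.2 < vA x.1 := by
          rcases h.lt_or_eq with h' | h'
          · exact h'
          · rcases eq_or_ne x.2 1 with h'' | h''
            · rw [h'', hB.one]; exact hA.ne_bot hx1
            · exact absurd h'.symm (hd _ _ hx1 h'')
        have hy : vA y.1 = vA x.1 ∧ vB y.2 < vA x.1 := by
          rw [hm] at hxy'
          rcases le_total (vB y.2) (vA y.1) with h' | h'
          · rw [max_eq_left h'] at hxy'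
            refine ⟨hxy'.symm, ?_⟩
            rcases eq_or_ne y.2 1 with h'' | h''
            · rw [h'', hB.one]; exact hA.ne_bot hx1
            · exact lt_of_le_of_ne (h'.trans hxy'.ge) (fun h4 => hd x.1 y.2 hx1 h'' h4.symm)
          · rw [max_eq_right h'] at hxy'
            rcases eq_or_ne y.2 1 with h'' | h''
            · rw [h'', hB.one] at hxy'
              exact absurd (hA.eq_one _ hxy') hx1
            · exact absurd hxy' (hd _ _ hx1 h'')
        obtain ⟨i, hi⟩ := hA.layer_lt hx1 hy.1.symm
        refine ⟨i, Or.inl ?_⟩
        change max (vA (x.1 ^ i * y.1⁻¹)) (vB (x.2 ^ i * y.2⁻¹)) < max (vA x.1) (vB x.2)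
        rw [hm]
        apply max_lt hi
        apply hB.mul_lt_of
        · exact (hB.pow_le _ _).trans_lt hxlt
        · rw [hB.inv_eq]; exact hy.2
      · have hm : max (vA x.1) (vB x.2) = vB x.2 := max_eq_right h
        have hx1 : x.2 ≠ 1 := by
          intro h'
          rw [hm, h', hB.one] at hpos
          exact lt_irrefl _ hpos
        have hxlt : vA x.1 < vB x.2 := by
          rcases h.lt_or_eq with h' | h'
          · exact h'
          · rcases eq_or_ne x.1 1 with h'' | h''
            · rw [h'', hA.one]; exact hB.ne_bot hx1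
            · exact absurd h' (hd _ _ h'' hx1)
        have hy : vB y.2 = vB x.2 ∧ vA y.1 < vB x.2 := by
          rw [hm] at hxy'
          rcases le_total (vA y.1) (vB y.2) with h' | h'
          · rw [max_eq_right h'] at hxy'
            refine ⟨hxy'.symm, ?_⟩
            rcases eq_or_ne y.1 1 with h'' | h''
            · rw [h'', hA.one]; exact hB.ne_bot hx1
            · exact lt_of_le_of_ne (h'.trans hxy'.ge) (fun h4 => hd y.1 x.2 h'' hx1 h4)
          · rw [max_eq_left h'] at hxy'
            rcases eq_or_ne y.1 1 with h'' | h''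
            · rw [h'', hA.one] at hxy'
              exact absurd (hB.eq_one _ hxy') hx1
            · exact absurd hxy'.symm (hd _ _ h'' hx1)
        obtain ⟨i, hi⟩ := hB.layer_lt hx1 hy.1.symm
        refine ⟨i, Or.inl ?_⟩
        change max (vA (x.1 ^ i * y.1⁻¹)) (vB (x.2 ^ i * y.2⁻¹)) < max (vA x.1) (vB x.2)
        rw [hm]
        refine max_lt ?_ hi
        apply hA.mul_lt_of
        · exact (hA.pow_le _ _).trans_lt hxlt
        · rw [hA.inv_eq]; exact hy.2
  · intro x
    exact key x (x ^ p) (hA.pow _) (hB.pow _)
  · intro x hx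
    have h4 : vA x.1 = ⊥ := le_bot_iff.mp (hx ▸ le_max_left _ _)
    have h5 : vB x.2 = ⊥ := le_bot_iff.mp (hx ▸ le_max_right _ _)
    exact Prod.ext (hA.eq_one _ h4) (hB.eq_one _ h5)

section semi

variable {A V : Type*} [Group A] [LinearOrder V] [OrderBot V]

/-- action of the two element group by an involutory automorphism -/
def sgnAct (τ : MulAut A) (hτ : τ * τ = 1) : ℤˣ →* MulAut A where
  toFun u := if u = 1 then 1 else τ
  map_one' := by simp
  map_mul' x y := by
    rcases Int.units_eq_one_or x with rfl | rfl <;> rcases Int.units_eq_one_or y with rfl | rfl <;>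
      simp [hτ]

/-- extension of a valuation to a semidirect product with a two element group on top -/
theorem isPVal_semi {vA : A → V} (hA : IsPVal 2 vA) (τ : MulAut A) (hτ : τ * τ = 1)
    (hτv : ∀ a, a ≠ 1 → vA (τ a * a⁻¹) < vA a) (t : V) (ht : ∀ a, vA a < t) :
    IsPVal 2 (fun x : A ⋊[sgnAct τ hτ] ℤˣ => if x.right = 1 then vA x.left else t) := by
  have hle : ∀ x : A ⋊[sgnAct τ hτ] ℤˣ, (if x.right = 1 then vA x.left else t) ≤ t := by
    intro x
    split_ifs
    · exact (ht _).le
    · exact le_rfl
  refine { one := ?_, mul := ?_, inv := ?_, comm := ?_, layer := ?_, pow := ?_, eq_one := ?_ }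
  · simp [hA.one]
  · intro x y
    by_cases hx : x.right = 1
    · by_cases hy : y.right = 1
      · simp only [SemidirectProduct.mul_right, SemidirectProduct.mul_left, hx, hy, mul_one,
          if_true, map_one, MulAut.one_apply]
        exact hA.mul _ _
      · rw [if_neg hy]
        exact (hle _).trans (le_max_right _ _)
    · rw [if_neg hx]
      exact (hle _).trans (le_max_left _ _)
  · intro x
    by_cases hx : x.right = 1
    · simp only [SemidirectProduct.inv_right, SemidirectProduct.inv_left, hx, inv_one,
          if_true, map_one, MulAut.one_apply]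
      exact hA.inv _
    · rw [if_neg hx]
      exact hle _
  · intro x y
    have hr : (x * y * x⁻¹ * y⁻¹).right = 1 := by
      simp only [SemidirectProduct.mul_right, SemidirectProduct.inv_right]
      rw [mul_comm x.right y.right, mul_inv_cancel_right, mul_inv_cancel]
    simp only [hr, if_true]
    by_cases hx : x.right = 1
    · rcases eq_or_ne x.left 1 with hx1 | hx1
      · right
        have : x = 1 := SemidirectProduct.ext hx1 hx
        rw [this, one_mul, inv_one, mul_one, mul_inv_cancel]
        exact hA.one
      · left
        simp only [hx, if_true]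
        have h1 : (x * y * x⁻¹ * y⁻¹).left = (x.left * y.left * x.left⁻¹ * y.left⁻¹) *
            (y.left * (x.left * ((sgnAct τ hτ y.right) x.left)⁻¹) * y.left⁻¹) := by
          simp only [SemidirectProduct.mul_left, SemidirectProduct.mul_right,
            SemidirectProduct.inv_left, SemidirectProduct.inv_right, hx, map_one, inv_one,
            MulAut.one_apply, one_mul, mul_one, map_inv, mul_assoc, inv_mul_cancel_left]
          simp [mul_assoc]
        rw [h1]
        apply hA.mul_lt_of
        · exact hA.comm_lt hx1 _
        · rw [hA.conj_eq]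
          rcases Int.units_eq_one_or y.right with hy | hy
          · rw [hy, map_one, MulAut.one_apply, mul_inv_cancel, hA.one]
            exact hA.ne_bot hx1
          · rw [hy]
            have h2 : sgnAct τ hτ (-1) = τ := by simp [sgnAct]
            rw [h2, ← hA.inv_eq, mul_inv_rev, inv_inv]
            exact hτv _ hx1
    · left
      rw [if_neg hx]
      exact ht _
  · intro x y hxy
    by_cases hx : x.right = 1
    · by_cases hy : y.right = 1
      · simp only [hx, hy, if_true] at hxy
        obtain ⟨i, hi⟩ := hA.layer _ _ hxy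
        refine ⟨i, ?_⟩
        have hpow : ∀ i : ℕ, (x ^ i).left = x.left ^ i ∧ (x ^ i).right = 1 := by
          intro i
          induction i with
          | zero => simp
          | succ i ih =>
            rw [pow_succ, SemidirectProduct.mul_left, SemidirectProduct.mul_right, ih.1, ih.2, hx,
              map_one, MulAut.one_apply, pow_succ, mul_one]
            exact ⟨rfl, rfl⟩
        have h1 : (x ^ i * y⁻¹).right = 1 := by
          rw [SemidirectProduct.mul_right, (hpow i).2, SemidirectProduct.inv_right, hy, inv_one,
            mul_one]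
        have h2 : (x ^ i * y⁻¹).left = x.left ^ i * y.left⁻¹ := by
          rw [SemidirectProduct.mul_left, (hpow i).1, (hpow i).2, SemidirectProduct.inv_left, hy,
            inv_one, map_one, map_inv, MulAut.one_apply]
          simp
        simp only [h1, h2, hx, if_true]
        exact hi
      · simp only [hx, if_true, if_neg hy] at hxy
        exact absurd hxy (ht _).ne
    · by_cases hy : y.right = 1
      · simp only [hy, if_true, if_neg hx] at hxy
        exact absurd hxy (ht _).ne'
      · refine ⟨1, Or.inl ?_⟩
        have h1 : (x ^ 1 * y⁻¹).right = 1 := by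
          rw [pow_one, SemidirectProduct.mul_right, SemidirectProduct.inv_right]
          rcases Int.units_eq_one_or x.right with h | h
          · exact absurd h hx
          · rcases Int.units_eq_one_or y.right with h' | h'
            · exact absurd h' hy
            · rw [h, h']; rfl
        simp only [h1, if_true, if_neg hx]
        exact ht _
  · intro x
    have hr : (x ^ 2).right = 1 := by
      rw [pow_two, SemidirectProduct.mul_right]
      exact Int.units_mul_self _
    simp only [hr, if_true]
    by_cases hx : x.right = 1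
    · have h1 : (x ^ 2).left = x.left ^ 2 := by
        rw [pow_two, SemidirectProduct.mul_left, hx, map_one, MulAut.one_apply, pow_two]
      simp only [hx, if_true, h1]
      exact hA.pow _
    · left
      rw [if_neg hx]
      exact ht _
  · intro x hx
    by_cases h : x.right = 1
    · simp only [h, if_true] at hx
      exact SemidirectProduct.ext (hA.eq_one _ hx) h
    · simp only [if_neg h] at hx
      exact absurd (hx ▸ ht 1) not_lt_bot

end semi

end Pool.Agent.Helper944
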