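import Pool.Agent.Helper944.Embed
import Pool.Agent.Helper944.Tors

set_option autoImplicit false

namespace Pool.Agent.Helper944

/-- finitely supported families in a family of groups -/
def finSupp {ι : Type} (G : ι → Type) [∀ i, Group (G i)] : Subgroup (∀ i, G i) where
  carrier := {f | {i | f i ≠ 1}.Finite}
  one_mem' := by
    change ({i | (1 : ∀ i, G i) i ≠ 1} : Set ι).Finite
    simp
  mul_mem' := by
    intro f g hf hg
    apply (Set.Finite.union hf hg).subset
    intro i hi
    by_contra hne
    rw [Set.mem_union, not_or] at hne
    have hne1 : f i = 1 := not_not.mp hne.1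
    have hne2 : g i = 1 := not_not.mp hne.2
    apply hi
    rw [Pi.mul_apply, hne1, hne2, one_mul]
  inv_mem' := by
    intro f hf
    apply Set.Finite.subset hf
    intro i hi h
    apply hi
    have h' : f i = 1 := h
    rw [Pi.inv_apply, h', inv_one]

theorem countable_finSupp {ι : Type} [Countable ι] (G : ι → Type) [∀ i, Group (G i)]
    [∀ i, Countable (G i)] : Countable (finSupp G) := by
  classical
  let F : (Σ S : Finset ι, ∀ i : S, G i) → finSupp G := fun t =>
    ⟨fun i => if h : i ∈ t.1 then t.2 ⟨i, h⟩ else 1, by
      apply (t.1.finite_toSet).subset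
      intro i hi
      by_contra h
      apply hi
      have h' : i ∉ t.1 := h
      simp only [dif_neg h']⟩
  have hF : Function.Surjective F := by
    rintro ⟨f, hf⟩
    have hf' : ({i | f i ≠ 1} : Set ι).Finite := hf
    refine ⟨⟨hf'.toFinset, fun i => f i⟩, ?_⟩
    apply Subtype.ext
    funext i
    change (if h : i ∈ hf'.toFinset then f i else 1) = f i
    split_ifs with h
    · rfl
    · rw [Set.Finite.mem_toFinset] at h
      exact (not_not.mp h).symm
  exact hF.countable

/-- finitely generated subgroups of the restricted direct product -/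
theorem finSupp_closure {ι : Type} (G : ι → Type) [∀ i, Group (G i)]
    (hlf : ∀ i (s : Set (G i)), s.Finite → Finite (Subgroup.closure s))
    (hnil : ∀ i (s : Set (G i)), s.Finite → Group.IsNilpotent (Subgroup.closure s))
    (s : Set (finSupp G)) (hs : s.Finite) :
    Finite (Subgroup.closure s) ∧ Group.IsNilpotent (Subgroup.closure s) := by
  classical
  let S : Set ι := ⋃ f ∈ s, {i | (f : ∀ i, G i) i ≠ 1}
  have hS : S.Finite := hs.biUnion (fun f _ => f.2)
  have hSfin : Finite S := hS.to_subtype
  let ev : ∀ i, finSupp G →* G i := fun i => (Pi.evalMonoidHom G i).comp (finSupp G).subtype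
  let K : ∀ i, Subgroup (G i) := fun i => Subgroup.closure (ev i '' s)
  have hK : ∀ i, ∀ x ∈ Subgroup.closure s, ev i x ∈ K i := by
    intro i x hx
    have : (Subgroup.closure s).map (ev i) = K i := MonoidHom.map_closure _ _
    rw [← this]
    exact ⟨x, hx, rfl⟩
  have hsupp : ∀ x ∈ Subgroup.closure s, ∀ i, i ∉ S → (x : ∀ i, G i) i = 1 := by
    intro x hx i hi
    induction hx using Subgroup.closure_induction with
    | mem x hx =>
      by_contra h
      exact hi (Set.mem_biUnion hx h)
    | one => rfl
    | mul x y _ _ hx hy =>
      rw [Subgroup.coe_mul, Pi.mul_apply, hx, hy, one_mul]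
    | inv x _ hx =>
      rw [Subgroup.coe_inv, Pi.inv_apply, hx, inv_one]
  let φ : Subgroup.closure s →* (∀ i : S, K i) :=
    { toFun := fun x i => ⟨ev i x, hK i x x.2⟩
      map_one' := by
        funext i
        apply Subtype.ext
        change ev i 1 = 1
        exact map_one _
      map_mul' := by
        intro x y
        funext i
        apply Subtype.ext
        change ev i (x * y) = ev i x * ev i y
        exact map_mul _ _ _ }
  have hφ : Function.Injective φ := by
    intro x y hxy
    apply Subtype.ext
    apply Subtype.ext
    funext i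
    by_cases hi : i ∈ S
    · have h1 := congrFun hxy ⟨i, hi⟩
      exact congrArg Subtype.val h1
    · rw [hsupp x x.2 i hi, hsupp y y.2 i hi]
  have hKf : ∀ i : S, Finite (K i) := fun i => hlf i _ (hs.image _)
  have hKn : ∀ i : S, Group.IsNilpotent (K i) := fun i => hnil i _ (hs.image _)
  refine ⟨Finite.of_injective φ hφ, ?_⟩
  apply Subgroup.isNilpotent_of_ker_le_center φ
  rw [(MonoidHom.ker_eq_bot_iff φ).mpr hφ]
  exact bot_le

theorem exists_universal :
    ∃ (U : Type) (_ : Group U), Countable U ∧ (∀ g : U, IsOfFinOrder g) ∧
      (∀ s : Set U, s.Finite → Group.IsNilpotent (Subgroup.closure s)) ∧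
      ∀ (H : Type) [Group H] [Countable H], (∀ g : H, IsOfFinOrder g) →
        (∀ s : Set H, s.Finite → Group.IsNilpotent (Subgroup.closure s)) →
        ∃ f : H →* U, Function.Injective f := by
  classical
  have hrich : ∀ p : Nat.Primes, ∃ (G : Type) (_ : Group G) (_ : Countable G) (v : G → ℚ≥0),
      Rich p v := by
    intro p
    have : Fact (p : ℕ).Prime := ⟨p.2⟩
    exact exists_countable_rich p ℚ≥0
  choose G gG cG v hv using hrich
  have hlf : ∀ p (s : Set (G p)), s.Finite → Finite (Subgroup.closure s) := fun p => (hv p).lf
  have hpg : ∀ p (s : Set (G p)), s.Finite → IsPGroup p (Subgroup.closure s) := by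
    intro p s hs
    have hf := hlf p s hs
    exact ((hv p).val.comp (Subgroup.closure s).subtype Subtype.val_injective).isPGroup
  have hnil : ∀ p (s : Set (G p)), s.Finite → Group.IsNilpotent (Subgroup.closure s) := by
    intro p s hs
    have : Fact (p : ℕ).Prime := ⟨p.2⟩
    have hf := hlf p s hs
    exact (hpg p s hs).isNilpotent
  refine ⟨finSupp G, inferInstance, countable_finSupp G, ?_, ?_, ?_⟩
  · intro g
    obtain ⟨hfin, _⟩ := finSupp_closure G hlf hnil {g} (Set.finite_singleton g)
    have h1 : IsOfFinOrder (⟨g, Subgroup.subset_closure rfl⟩ : Subgroup.closure {g}) :=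
      isOfFinOrder_of_finite _
    exact Submonoid.isOfFinOrder_coe.mpr h1
  · intro s hs
    exact (finSupp_closure G hlf hnil s hs).2
  · intro H _ _ hper hn
    have hF : ∀ p : Nat.Primes, ∃ f : H →* G p, ∀ x, f x = 1 ↔ ¬ (p : ℕ) ∣ orderOf x := by
      intro p
      have : Fact (p : ℕ).Prime := ⟨p.2⟩
      let N := primeTo (p : ℕ) H hper hn
      have hlfN : ∀ s : Set (H ⧸ N), s.Finite → Finite (Subgroup.closure s) := by
        intro s hs
        have hsur : ∀ g : H ⧸ N, ∃ z : H, QuotientGroup.mk' N z = g :=
          QuotientGroup.mk'_surjective _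
        choose z hz using hsur
        have h1 : s = QuotientGroup.mk' N '' (z '' s) := by
          ext g
          constructor
          · intro hg
            exact ⟨z g, ⟨g, hg, rfl⟩, hz g⟩
          · rintro ⟨_, ⟨g', hg', rfl⟩, rfl⟩
            rw [hz]; exact hg'
        have h2 : Subgroup.closure s = (Subgroup.closure (z '' s)).map (QuotientGroup.mk' N) := by
          rw [MonoidHom.map_closure, ← h1]
        have hnil' := hn (z '' s) (hs.image z)
        have h3 : Finite (Subgroup.closure (z '' s)) :=
          closure_finite_of_solvable hper _ (hs.image z) inferInstance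
        rw [h2]
        have h4 : ((Subgroup.closure (z '' s) : Set H)).Finite := Set.toFinite _
        have h5 : (((Subgroup.closure (z '' s)).map (QuotientGroup.mk' N) :
          Subgroup (H ⧸ N)) : Set (H ⧸ N)).Finite := by
          rw [Subgroup.coe_map]
          exact h4.image _
        exact h5.to_subtype
      have hcount : Countable (H ⧸ N) := (QuotientGroup.mk'_surjective N).countable
      obtain ⟨f, hf⟩ := (hv p).embeds (H ⧸ N) hlfN isPGroup_quot
      refine ⟨f.comp (QuotientGroup.mk' N), fun x => ?_⟩
      rw [MonoidHom.comp_apply, map_eq_one_iff f hf, QuotientGroup.mk'_apply,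
        QuotientGroup.eq_one_iff]
      exact mem_primeTo
    choose f hf using hF
    let F : H →* finSupp G :=
      { toFun := fun x => ⟨fun p => f p x, by
          have h1 : Set.Finite {p : Nat.Primes | (p : ℕ) ∣ orderOf x} := by
            apply Set.Finite.of_finite_image (f := fun p : Nat.Primes => (p : ℕ))
            · apply (Set.finite_Iic (orderOf x)).subset
              rintro _ ⟨p, hp, rfl⟩
              exact Nat.le_of_dvd (hper x).orderOf_pos hp
            · exact Subtype.val_injective.injOn
          apply h1.subset
          intro p hp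
          by_contra h2
          exact hp ((hf p x).mpr h2)⟩
        map_one' := by
          apply Subtype.ext
          funext p
          exact map_one _
        map_mul' := by
          intro x y
          apply Subtype.ext
          funext p
          exact map_mul _ _ _ }
    refine ⟨F, ?_⟩
    rw [injective_iff_map_eq_one]
    intro x hx
    rw [← orderOf_eq_one_iff]
    by_contra hne
    obtain ⟨p, hp, hpd⟩ := Nat.exists_prime_and_dvd hne
    let P : Nat.Primes := ⟨p, hp⟩
    have h1 : f P x = 1 := congrFun (congrArg Subtype.val hx) P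
    exact (hf P x).mp h1 hpd

end Pool.Agent.Helper944
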